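import Pool.Agent.Lib.ANT.Geo
import Pool.Agent.Lib.ANT.DivBound

/-! The arithmetic of the shifted phase: the numbers `m < h` with `h ∣ 4 m ^ 2` and the reciprocal distances of
`4 m ^ 2 / h` from the integers, on average over `h`. -/

open Finset Pool.Agent.ANT

namespace Pool.Agent.PG3

/-- the number of the `m < n` with `n ∣ 4 m ^ 2` -/
noncomputable def g1 (n : ℕ) : ℝ := (((range n).filter fun m : ℕ => (n : ℤ) ∣ 4 * (m : ℤ) ^ 2).card : ℝ)

/-- the sum of the reciprocal distances of `4 m ^ 2 / n` from the integers, over the other `m < n` -/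
noncomputable def g2 (n : ℕ) : ℝ :=
  ∑ m ∈ (range n).filter (fun m : ℕ => ¬ (n : ℤ) ∣ 4 * (m : ℤ) ^ 2), (nn (-(4 * (m : ℝ) ^ 2 / n)))⁻¹

theorem g1_nonneg (n : ℕ) : 0 ≤ g1 n := Nat.cast_nonneg _

theorem g2_nonneg (n : ℕ) : 0 ≤ g2 n :=
  Finset.sum_nonneg fun _ _ => inv_nonneg.2 (nn_nonneg _)

/-- the distance is `k / n` with a small residue `k` -/
theorem exK {n m : ℕ} (hn : 1 ≤ n) (hnd : ¬ (n : ℤ) ∣ 4 * (m : ℤ) ^ 2) :
    ∃ k : ℕ, 1 ≤ k ∧ 2 * k ≤ n ∧ ((n : ℤ) ∣ 4 * (m : ℤ) ^ 2 + k ∨ (n : ℤ) ∣ 4 * (m : ℤ) ^ 2 - k) ∧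
      nn (-(4 * (m : ℝ) ^ 2 / n)) = k / n := by
  have hn0 : (0 : ℝ) < n := by exact_mod_cast hn
  set θ : ℝ := -(4 * (m : ℝ) ^ 2 / n) with hθ
  set j : ℤ := round θ with hj
  set b : ℤ := 4 * (m : ℤ) ^ 2 + j * n with hb
  have h1 : θ - j = -((b : ℝ) / n) := by
    rw [hθ, hb]
    push_cast
    field_simp
    ring
  have h2 : nn θ = (b.natAbs : ℝ) / n := by
    unfold nn
    rw [← hj, h1, abs_neg, abs_div, abs_of_pos hn0, Nat.cast_natAbs, Int.cast_abs]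
  have hb0 : b ≠ 0 := by
    intro h0
    apply hnd
    refine ⟨-j, ?_⟩
    rw [hb] at h0
    linarith
  refine ⟨b.natAbs, ?_, ?_, ?_, h2⟩
  · have := Int.natAbs_pos.2 hb0
    omega
  · have h3 := nn_le_half θ
    rw [h2, div_le_iff₀ hn0] at h3
    have h4 : 2 * (b.natAbs : ℝ) ≤ n := by linarith
    exact_mod_cast h4
  · rcases Int.natAbs_eq b with h | h
    · right
      refine ⟨-j, ?_⟩
      rw [← h, hb]
      ring
    · left
      refine ⟨-j, ?_⟩
      have : ((b.natAbs : ℕ) : ℤ) = -b := by omega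
      rw [this, hb]
      ring

theorem main_ineq {h : ℕ} {T : ℝ} (hh : 1 ≤ h) (hT : 0 < T) :
    ∑ m ∈ range h, Fy T (-(4 * (m : ℝ) ^ 2 / h)) ≤ T * g1 h + g2 h := by
  rw [← Finset.sum_filter_add_sum_filter_not (range h) (fun m : ℕ => (h : ℤ) ∣ 4 * (m : ℤ) ^ 2)]
  refine add_le_add ?_ ?_
  · calc _ ≤ ∑ m ∈ (range h).filter (fun m : ℕ => (h : ℤ) ∣ 4 * (m : ℤ) ^ 2), T :=
          Finset.sum_le_sum fun m _ => Fy_le hT _
      _ = T * g1 h := by
          rw [Finset.sum_const, nsmul_eq_mul, g1, mul_comm]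
  · unfold g2
    refine Finset.sum_le_sum fun m hm => ?_
    rw [Finset.mem_filter] at hm
    obtain ⟨k, hk1, -, -, hk⟩ := exK hh hm.2
    have hpos : 0 < nn (-(4 * (m : ℝ) ^ 2 / h)) := by
      rw [hk]
      have h1 : (0 : ℝ) < k := by exact_mod_cast hk1
      have h2 : (0 : ℝ) < h := by exact_mod_cast hh
      positivity
    unfold Fy
    exact inv_anti₀ hpos (le_max_right _ _)

theorem partial_le {p : ℝ} (hp : p < -1) : ∃ A : ℝ, 0 ≤ A ∧ ∀ X : ℕ, ∑ n ∈ range X, (n : ℝ) ^ p ≤ A := by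
  have h := Real.summable_nat_rpow.2 hp
  refine ⟨∑' n : ℕ, (n : ℝ) ^ p, tsum_nonneg fun n => by positivity, fun X => ?_⟩
  exact h.sum_le_tsum _ fun n _ => by positivity

theorem summable_g1 {s : ℝ} (hs : 1 < s) : Summable fun n : ℕ => (n : ℝ) ^ (-s) * g1 n := by
  obtain ⟨A, hA, hA'⟩ := partial_le (p := -s) (by linarith)
  obtain ⟨B, hB, hB'⟩ := partial_le (p := -((s + 1) / 2)) (by linarith)
  obtain ⟨C, hC, hτ⟩ := tauR_le_rpow (ε := (s - 1) / 4) (by linarith)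
  have hf : ∀ n : ℕ, 0 ≤ (n : ℝ) ^ (-s) * g1 n := fun n => mul_nonneg (by positivity) (g1_nonneg n)
  refine summable_of_sum_range_le (c := A + C * (4 : ℝ) ^ ((s - 1) / 4) * B) hf fun X => ?_
  -- each term: the part `m = 0` and the rest
  have h1 : ∀ n ∈ range X, (n : ℝ) ^ (-s) * g1 n ≤ (n : ℝ) ^ (-s) +
      ∑ m ∈ range X, if 1 ≤ m ∧ m < n ∧ (n : ℤ) ∣ 4 * (m : ℤ) ^ 2 then (n : ℝ) ^ (-s) else 0 := by
    intro n hn
    rw [mem_range] at hn
    have h2 : g1 n ≤ 1 + ∑ m ∈ range X, if 1 ≤ m ∧ m < n ∧ (n : ℤ) ∣ 4 * (m : ℤ) ^ 2 then (1 : ℝ) else 0 := by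
      rw [Finset.sum_boole]
      unfold g1
      have h3 : (range n).filter (fun m : ℕ => (n : ℤ) ∣ 4 * (m : ℤ) ^ 2) ⊆
          {0} ∪ (range X).filter (fun m : ℕ => 1 ≤ m ∧ m < n ∧ (n : ℤ) ∣ 4 * (m : ℤ) ^ 2) := by
        intro m hm
        rw [mem_filter, mem_range] at hm
        rw [mem_union, mem_singleton, mem_filter, mem_range]
        rcases Nat.eq_zero_or_pos m with h0 | h0
        · left; exact h0
        · right; exact ⟨by omega, h0, hm.1, hm.2⟩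
      have h4 := (Finset.card_le_card h3).trans (Finset.card_union_le _ _)
      rw [Finset.card_singleton] at h4
      exact_mod_cast h4
    calc (n : ℝ) ^ (-s) * g1 n ≤ (n : ℝ) ^ (-s) * (1 + ∑ m ∈ range X,
          if 1 ≤ m ∧ m < n ∧ (n : ℤ) ∣ 4 * (m : ℤ) ^ 2 then (1 : ℝ) else 0) :=
          mul_le_mul_of_nonneg_left h2 (by positivity)
      _ = _ := by
          rw [mul_add, mul_one, Finset.mul_sum]
          congr 1
          refine Finset.sum_congr rfl fun m _ => ?_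
          split_ifs <;> simp
  refine (Finset.sum_le_sum h1).trans ?_
  rw [Finset.sum_add_distrib, Finset.sum_comm]
  refine add_le_add (hA' X) ?_
  have h5 : ∀ m ∈ range X, (∑ n ∈ range X, if 1 ≤ m ∧ m < n ∧ (n : ℤ) ∣ 4 * (m : ℤ) ^ 2 then (n : ℝ) ^ (-s)
      else 0) ≤ C * (4 : ℝ) ^ ((s - 1) / 4) * (m : ℝ) ^ (-((s + 1) / 2)) := by
    intro m _
    rcases Nat.eq_zero_or_pos m with h0 | h0
    · subst h0
      simp only [nonpos_iff_eq_zero, one_ne_zero, false_and, if_false, Finset.sum_const_zero]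
      positivity
    have hm0 : (0 : ℝ) < m := by exact_mod_cast h0
    have hne : 4 * m ^ 2 ≠ 0 := by positivity
    calc _ ≤ ∑ n ∈ (4 * m ^ 2).divisors, (m : ℝ) ^ (-s) := by
          rw [← Finset.sum_filter]
          refine (Finset.sum_le_sum (g := fun _ => (m : ℝ) ^ (-s)) fun n hn => ?_).trans
            (Finset.sum_le_sum_of_subset_of_nonneg ?_ fun _ _ _ => by positivity)
          · rw [mem_filter] at hn
            have : (m : ℝ) ≤ n := by exact_mod_cast hn.2.2.1.le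
            exact Real.rpow_le_rpow_of_nonpos hm0 this (by linarith)
          · intro n hn
            rw [mem_filter] at hn
            rw [Nat.mem_divisors]
            exact ⟨by exact_mod_cast hn.2.2.2, hne⟩
      _ = tauR (4 * m ^ 2) * (m : ℝ) ^ (-s) := by
          rw [Finset.sum_const, nsmul_eq_mul, tauR]
      _ ≤ (C * ((4 * m ^ 2 : ℕ) : ℝ) ^ ((s - 1) / 4)) * (m : ℝ) ^ (-s) :=
          mul_le_mul_of_nonneg_right (hτ _ hne) (by positivity)
      _ = C * (4 : ℝ) ^ ((s - 1) / 4) * (m : ℝ) ^ (-((s + 1) / 2)) := by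
          push_cast
          rw [Real.mul_rpow (by norm_num) (by positivity), ← Real.rpow_natCast (m : ℝ) 2,
            ← Real.rpow_mul hm0.le]
          have : (m : ℝ) ^ (-((s + 1) / 2)) = (m : ℝ) ^ (((2 : ℕ) : ℝ) * ((s - 1) / 4)) * (m : ℝ) ^ (-s) := by
            rw [← Real.rpow_add hm0]
            congr 1
            push_cast
            ring
          rw [this]
          ring
  calc _ ≤ ∑ m ∈ range X, C * (4 : ℝ) ^ ((s - 1) / 4) * (m : ℝ) ^ (-((s + 1) / 2)) := Finset.sum_le_sum h5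
    _ ≤ _ := by
        rw [← Finset.mul_sum]
        exact mul_le_mul_of_nonneg_left (hB' X) (by positivity)

/-- the triples of the second sum -/
def Q (n m k : ℕ) : Prop :=
  1 ≤ m ∧ m < n ∧ 1 ≤ k ∧ 2 * k ≤ n ∧ ((n : ℤ) ∣ 4 * (m : ℤ) ^ 2 + k ∨ (n : ℤ) ∣ 4 * (m : ℤ) ^ 2 - k)

open Classical in
theorem inner_le {μ : ℝ} (hμ : 0 < μ) {C : ℝ} (hC : 1 ≤ C)
    (hτ : ∀ n : ℕ, n ≠ 0 → tauR n ≤ C * (n : ℝ) ^ (μ / 8)) {Z : ℝ}
    (hZ : 0 ≤ Z) (hZ' : ∀ X : ℕ, ∑ n ∈ range X, (n : ℝ) ^ (-(1 + μ)) ≤ Z) (X m k : ℕ) :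
    (∑ n ∈ range X, if Q n m k then (n : ℝ) ^ (-(1 + μ)) / k else 0) ≤
      2 * (C * (5 : ℝ) ^ (μ / 8)) * ((m : ℝ) ^ (-(1 + μ / 4)) * (k : ℝ) ^ (-(1 + 3 * μ / 8))) +
        if k = 4 * m ^ 2 then Z * (m : ℝ) ^ (-2 : ℝ) else 0 := by
  have hnn : (0 : ℝ) ≤ if k = 4 * m ^ 2 then Z * (m : ℝ) ^ (-2 : ℝ) else 0 := by
    split_ifs <;> positivity
  by_cases hmk : 1 ≤ m ∧ 1 ≤ k
  swap
  · have h0 : (∑ n ∈ range X, if Q n m k then (n : ℝ) ^ (-(1 + μ)) / k else 0) = 0 := by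
      refine Finset.sum_eq_zero fun n _ => if_neg fun h => hmk ⟨h.1, h.2.2.1⟩
    rw [h0]
    positivity
  obtain ⟨hm, hk⟩ := hmk
  have hm0 : (1 : ℝ) ≤ m := by exact_mod_cast hm
  have hk0 : (1 : ℝ) ≤ k := by exact_mod_cast hk
  have hm1 : (0 : ℝ) < m := by linarith
  have hk1 : (0 : ℝ) < k := by linarith
  by_cases hkm : k = 4 * m ^ 2
  · rw [if_pos hkm]
    have h1 : (∑ n ∈ range X, if Q n m k then (n : ℝ) ^ (-(1 + μ)) / k else 0) ≤
        ∑ n ∈ range X, (n : ℝ) ^ (-(1 + μ)) * (m : ℝ) ^ (-2 : ℝ) := by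
      refine Finset.sum_le_sum fun n _ => ?_
      split_ifs with h
      · rw [div_eq_mul_inv]
        refine mul_le_mul_of_nonneg_left ?_ (by positivity)
        rw [Real.rpow_neg hm1.le, hkm]
        refine inv_anti₀ (by positivity) ?_
        push_cast
        have : (m : ℝ) ^ (2 : ℝ) = (m : ℝ) ^ 2 := by exact_mod_cast Real.rpow_natCast (m : ℝ) 2
        rw [this]
        nlinarith [sq_nonneg (m : ℝ)]
      · positivity
    rw [← Finset.sum_mul] at h1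
    have h2 := mul_le_mul_of_nonneg_right (hZ' X) (show 0 ≤ (m : ℝ) ^ (-2 : ℝ) by positivity)
    have h3 : 0 ≤ 2 * (C * (5 : ℝ) ^ (μ / 8)) *
        ((m : ℝ) ^ (-(1 + μ / 4)) * (k : ℝ) ^ (-(1 + 3 * μ / 8))) := by positivity
    linarith
  · rw [if_neg hkm, add_zero]
    set D : Finset ℕ := (4 * m ^ 2 + k).divisors ∪ ((4 * (m : ℤ) ^ 2 - k).natAbs).divisors with hD
    have hne1 : 4 * m ^ 2 + k ≠ 0 := by positivity
    have hne2 : (4 * (m : ℤ) ^ 2 - k).natAbs ≠ 0 := by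
      rw [Int.natAbs_ne_zero]
      intro h
      apply hkm
      have : (k : ℤ) = 4 * (m : ℤ) ^ 2 := by linarith
      exact_mod_cast this
    have hsub : (range X).filter (fun n => Q n m k) ⊆ D := by
      intro n hn
      rw [mem_filter] at hn
      obtain ⟨-, -, -, -, -, h | h⟩ := hn
      · rw [hD, mem_union, Nat.mem_divisors]
        left
        exact ⟨by exact_mod_cast h, hne1⟩
      · rw [hD, mem_union, Nat.mem_divisors, Nat.mem_divisors]
        right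
        refine ⟨?_, hne2⟩
        rw [← Int.natCast_dvd_natCast, Int.dvd_natAbs]
        exact h
    have hterm : ∀ n ∈ (range X).filter (fun n => Q n m k), (n : ℝ) ^ (-(1 + μ)) / k ≤
        (m : ℝ) ^ (-(1 + μ / 2)) * (k : ℝ) ^ (-(1 + μ / 2)) := by
      intro n hn
      rw [mem_filter] at hn
      obtain ⟨-, -, hmn, -, hkn, -⟩ := hn
      have a1 : (m : ℝ) ≤ n := by exact_mod_cast hmn.le
      have a2 : (k : ℝ) ≤ n := by
        have : k ≤ n := by omega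
        exact_mod_cast this
      have hn1 : (0 : ℝ) < n := by linarith
      have e1 : (n : ℝ) ^ (-(1 + μ)) = (n : ℝ) ^ (-(1 + μ / 2)) * (n : ℝ) ^ (-(μ / 2)) := by
        rw [← Real.rpow_add hn1]
        congr 1
        ring
      have e2 : (k : ℝ) ^ (-(1 + μ / 2)) = (k : ℝ) ^ (-(μ / 2)) / k := by
        rw [← Real.rpow_sub_one hk1.ne']
        congr 1
        ring
      rw [e1, e2, ← mul_div_assoc]
      refine div_le_div_of_nonneg_right ?_ hk1.le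
      refine mul_le_mul ?_ ?_ (by positivity) (by positivity)
      · exact Real.rpow_le_rpow_of_nonpos hm1 a1 (by linarith)
      · exact Real.rpow_le_rpow_of_nonpos hk1 a2 (by linarith)
    have hbig : ∀ a : ℕ, a ≠ 0 → (a : ℝ) ≤ 5 * ((m : ℝ) ^ 2 * k) →
        tauR a ≤ C * (5 : ℝ) ^ (μ / 8) * ((m : ℝ) ^ (μ / 4) * (k : ℝ) ^ (μ / 8)) := by
      intro a ha hle
      refine (hτ a ha).trans ?_
      have h1 : (a : ℝ) ^ (μ / 8) ≤ (5 * ((m : ℝ) ^ 2 * k)) ^ (μ / 8) :=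
        Real.rpow_le_rpow (Nat.cast_nonneg _) hle (by linarith)
      have h2 : (5 * ((m : ℝ) ^ 2 * k)) ^ (μ / 8) =
          (5 : ℝ) ^ (μ / 8) * ((m : ℝ) ^ (μ / 4) * (k : ℝ) ^ (μ / 8)) := by
        rw [Real.mul_rpow (by norm_num) (by positivity), Real.mul_rpow (by positivity) hk1.le,
          ← Real.rpow_natCast (m : ℝ) 2, ← Real.rpow_mul hm1.le]
        congr 3
        push_cast
        ring
      rw [h2] at h1
      calc C * (a : ℝ) ^ (μ / 8) ≤
            C * ((5 : ℝ) ^ (μ / 8) * ((m : ℝ) ^ (μ / 4) * (k : ℝ) ^ (μ / 8))) :=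
            mul_le_mul_of_nonneg_left h1 (by linarith)
        _ = _ := by ring
    have hmk1 : (1 : ℝ) ≤ (m : ℝ) ^ 2 := one_le_pow₀ hm0
    have hmk2 : (k : ℝ) ≤ (m : ℝ) ^ 2 * k := by nlinarith
    have hmk3 : (m : ℝ) ^ 2 ≤ (m : ℝ) ^ 2 * k := by nlinarith
    have hcard : (D.card : ℝ) ≤
        2 * (C * (5 : ℝ) ^ (μ / 8)) * ((m : ℝ) ^ (μ / 4) * (k : ℝ) ^ (μ / 8)) := by
      have h1 : (D.card : ℝ) ≤ tauR (4 * m ^ 2 + k) + tauR ((4 * (m : ℤ) ^ 2 - k).natAbs) := by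
        unfold tauR
        rw [← Nat.cast_add, hD]
        exact Nat.cast_le.2 (Finset.card_union_le _ _)
      have h2 := hbig (4 * m ^ 2 + k) hne1 (by push_cast; nlinarith)
      have h3 := hbig ((4 * (m : ℤ) ^ 2 - k).natAbs) hne2 (by
        rw [Nat.cast_natAbs, Int.cast_abs]
        push_cast
        rw [abs_le]
        constructor <;> nlinarith)
      linarith
    calc (∑ n ∈ range X, if Q n m k then (n : ℝ) ^ (-(1 + μ)) / k else 0)
        = ∑ n ∈ (range X).filter (fun n => Q n m k), (n : ℝ) ^ (-(1 + μ)) / k := by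
          rw [Finset.sum_filter]
      _ ≤ ∑ n ∈ (range X).filter (fun n => Q n m k), (m : ℝ) ^ (-(1 + μ / 2)) * (k : ℝ) ^ (-(1 + μ / 2)) :=
          Finset.sum_le_sum hterm
      _ ≤ ∑ n ∈ D, (m : ℝ) ^ (-(1 + μ / 2)) * (k : ℝ) ^ (-(1 + μ / 2)) :=
          Finset.sum_le_sum_of_subset_of_nonneg hsub fun _ _ _ => by positivity
      _ = D.card * ((m : ℝ) ^ (-(1 + μ / 2)) * (k : ℝ) ^ (-(1 + μ / 2))) := by
          rw [Finset.sum_const, nsmul_eq_mul]
      _ ≤ (2 * (C * (5 : ℝ) ^ (μ / 8)) * ((m : ℝ) ^ (μ / 4) * (k : ℝ) ^ (μ / 8))) *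
            ((m : ℝ) ^ (-(1 + μ / 2)) * (k : ℝ) ^ (-(1 + μ / 2))) :=
          mul_le_mul_of_nonneg_right hcard (by positivity)
      _ = 2 * (C * (5 : ℝ) ^ (μ / 8)) * (((m : ℝ) ^ (μ / 4) * (m : ℝ) ^ (-(1 + μ / 2))) *
            ((k : ℝ) ^ (μ / 8) * (k : ℝ) ^ (-(1 + μ / 2)))) := by ring
      _ = _ := by
          rw [← Real.rpow_add hm1, ← Real.rpow_add hk1]
          congr 3
          · ring
          · ring

open Classical in
theorem summable_g2 {s : ℝ} (hs : 2 < s) : Summable fun n : ℕ => (n : ℝ) ^ (-s) * g2 n := by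
  obtain ⟨μ, hμ⟩ : ∃ μ : ℝ, μ = s - 2 := ⟨_, rfl⟩
  have hμ0 : 0 < μ := by rw [hμ]; linarith
  have hsμ : s = 2 + μ := by rw [hμ]; ring
  obtain ⟨C, hC, hτ⟩ := tauR_le_rpow (ε := μ / 8) (by linarith)
  obtain ⟨Z, hZ, hZ'⟩ := partial_le (p := -(1 + μ)) (by linarith)
  obtain ⟨A, hA, hA'⟩ := partial_le (p := -(1 + μ / 4)) (by linarith)
  obtain ⟨B, hB, hB'⟩ := partial_le (p := -(1 + 3 * μ / 8)) (by linarith)
  obtain ⟨D, hD, hD'⟩ := partial_le (p := -2) (by norm_num)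
  obtain ⟨K, hK⟩ : ∃ K : ℝ, K = 2 * (C * (5 : ℝ) ^ (μ / 8)) := ⟨_, rfl⟩
  have hK0 : 0 ≤ K := by rw [hK]; positivity
  have hf : ∀ n : ℕ, 0 ≤ (n : ℝ) ^ (-s) * g2 n := fun n => mul_nonneg (by positivity) (g2_nonneg n)
  refine summable_of_sum_range_le (c := K * B * A + Z * D) hf fun X => ?_
  have h1 : ∀ n ∈ range X, (n : ℝ) ^ (-s) * g2 n ≤
      ∑ m ∈ range X, ∑ k ∈ range X, if Q n m k then (n : ℝ) ^ (-(1 + μ)) / k else 0 := by
    intro n hn
    rw [mem_range] at hn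
    unfold g2
    rw [Finset.mul_sum]
    have hsub : (range n).filter (fun m : ℕ => ¬ (n : ℤ) ∣ 4 * (m : ℤ) ^ 2) ⊆ range X := by
      intro m hm
      rw [mem_filter, mem_range] at hm
      rw [mem_range]
      omega
    refine (Finset.sum_le_sum (g := fun m => ∑ k ∈ range X,
      if Q n m k then (n : ℝ) ^ (-(1 + μ)) / k else 0) fun m hm => ?_).trans
      (Finset.sum_le_sum_of_subset_of_nonneg hsub fun m _ _ =>
        Finset.sum_nonneg fun k _ => by split_ifs <;> positivity)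
    rw [mem_filter, mem_range] at hm
    have hn1 : 1 ≤ n := by omega
    have hn0 : (0 : ℝ) < n := by exact_mod_cast hn1
    obtain ⟨k, hk1, hk2, hk3, hk4⟩ := exK hn1 hm.2
    have hm1 : 1 ≤ m := by
      by_contra h0
      have h00 : m = 0 := by omega
      subst h00
      apply hm.2
      simp
    have hk0 : (0 : ℝ) < k := by exact_mod_cast hk1
    have hQ : Q n m k := ⟨hm1, hm.1, hk1, hk2, hk3⟩
    have hkX : k ∈ range X := by rw [mem_range]; omega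
    have e1 : (n : ℝ) ^ (-s) * (nn (-(4 * (m : ℝ) ^ 2 / n)))⁻¹ = (n : ℝ) ^ (-(1 + μ)) / k := by
      rw [hk4, inv_div]
      have : (n : ℝ) ^ (-(1 + μ)) = (n : ℝ) ^ (-s) * n := by
        rw [← Real.rpow_add_one hn0.ne', hsμ]
        congr 1
        ring
      rw [this]
      ring
    rw [e1]
    calc (n : ℝ) ^ (-(1 + μ)) / k = if Q n m k then (n : ℝ) ^ (-(1 + μ)) / k else 0 := by
          rw [if_pos hQ]
      _ ≤ _ := Finset.single_le_sum
          (f := fun k : ℕ => if Q n m k then (n : ℝ) ^ (-(1 + μ)) / (k : ℝ) else 0)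
          (fun k _ => by split_ifs <;> positivity) hkX
  refine (Finset.sum_le_sum h1).trans ?_
  rw [Finset.sum_comm]
  have h2 : ∀ m ∈ range X, (∑ n ∈ range X, ∑ k ∈ range X,
      if Q n m k then (n : ℝ) ^ (-(1 + μ)) / k else 0) ≤
      K * B * (m : ℝ) ^ (-(1 + μ / 4)) + Z * (m : ℝ) ^ (-2 : ℝ) := by
    intro m _
    rw [Finset.sum_comm]
    refine (Finset.sum_le_sum fun k _ => inner_le hμ0 hC hτ hZ hZ' X m k).trans ?_
    rw [Finset.sum_add_distrib, ← hK]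
    refine add_le_add ?_ ?_
    · rw [← Finset.mul_sum, ← Finset.mul_sum]
      have := mul_le_mul_of_nonneg_left (hB' X)
        (show 0 ≤ K * (m : ℝ) ^ (-(1 + μ / 4)) by positivity)
      linarith
    · rw [Finset.sum_ite_eq']
      split_ifs
      · exact le_rfl
      · positivity
  refine (Finset.sum_le_sum h2).trans ?_
  rw [Finset.sum_add_distrib, ← Finset.mul_sum, ← Finset.mul_sum]
  have a1 := mul_le_mul_of_nonneg_left (hA' X) (show 0 ≤ K * B by positivity)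
  have a2 := mul_le_mul_of_nonneg_left (hD' X) hZ
  linarith

theorem arith : ∃ g₁ g₂ : ℕ → ℝ, (∀ n, 0 ≤ g₁ n) ∧ (∀ n, 0 ≤ g₂ n) ∧
    (∀ s : ℝ, 1 < s → Summable fun n : ℕ => (n : ℝ) ^ (-s) * g₁ n) ∧
    (∀ s : ℝ, 2 < s → Summable fun n : ℕ => (n : ℝ) ^ (-s) * g₂ n) ∧
    ∀ (h : ℕ) (T : ℝ), 1 ≤ h → 0 < T →
      ∑ m ∈ Finset.range h, Pool.Agent.ANT.Fy T (-(4 * (m : ℝ) ^ 2 / h)) ≤ T * g₁ h + g₂ h :=
  ⟨g1, g2, g1_nonneg, g2_nonneg, fun _ hs => summable_g1 hs, fun _ hs => summable_g2 hs,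
    fun _ _ hh hT => main_ineq hh hT⟩

end Pool.Agent.PG3
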