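import Pool.Agent.PGap.Count

/-! Weighted counts of small fractional parts. -/

open Finset Real

namespace Pool.Agent.PG3

open Pool.Agent.ANT Pool.Agent.PGap

theorem abs_wsum_cos_le {ι : Type*} (S : Finset ι) (x ω : ι → ℝ) (n : ℕ) (τ : ℝ) :
    |∑ i ∈ S, ω i * Real.cos (2 * π * n * (x i - τ))| ≤ ‖∑ i ∈ S, (ω i : ℂ) * ee (n * x i)‖ := by
  have e : ∑ i ∈ S, ω i * Real.cos (2 * π * n * (x i - τ)) =
      (ee (-(n * τ)) * ∑ i ∈ S, (ω i : ℂ) * ee (n * x i)).re := by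
    rw [Finset.mul_sum, Complex.re_sum]
    refine Finset.sum_congr rfl fun i _ => ?_
    rw [mul_left_comm, ← ee_add, Complex.re_ofReal_mul]
    congr 1
    unfold ee
    rw [mul_comm Complex.I, Complex.exp_ofReal_mul_I_re]
    congr 1
    ring
  rw [e]
  refine (Complex.abs_re_le_norm _).trans ?_
  rw [norm_mul, norm_ee, one_mul]

/-- Sums of triangle functions and exponential sums. -/
theorem TW_sum_err {ι : Type*} (S : Finset ι) (x ω : ι → ℝ) {η : ℝ} (h0 : 0 < η) (h1 : η ≤ 1 / 2)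
    {κ : Type*} (I : Finset κ) (K : κ → ℝ) (s : κ → ℝ) (g : κ → ℕ → ℝ)
    (hK : ∀ k ∈ I, 0 ≤ K k) (hs : ∀ k ∈ I, 0 ≤ s k) (hs' : ∀ k ∈ I, s k ≤ 2)
    (hg : ∀ k ∈ I, ∀ n, 0 ≤ g k n) (hsum : ∀ k ∈ I, Summable fun n : ℕ => (n : ℝ) ^ (s k - 2) * g k n)
    (hS : ∀ n : ℕ, 1 ≤ n → ‖∑ i ∈ S, (ω i : ℂ) * ee (n * x i)‖ ≤ ∑ k ∈ I, K k * g k n) (τ : ℝ) :
    |∑ i ∈ S, ω i * T η (x i - τ) - η * ∑ i ∈ S, ω i| ≤
      ∑ k ∈ I, 2 * (∑' n : ℕ, (n : ℝ) ^ (s k - 2) * g k n) * K k * η ^ (s k - 1) := by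
  have hsum' : HasSum (fun n : ℕ => (1 - Real.cos (2 * π * n * η)) / (π ^ 2 * η * (n : ℝ) ^ 2) *
      ∑ i ∈ S, ω i * Real.cos (2 * π * n * (x i - τ))) (∑ i ∈ S, ω i * T η (x i - τ) - η * ∑ i ∈ S, ω i) := by
    have h := hasSum_sum (s := S) (fun i _ => (T_hasSum h0 h1 (x i - τ)).mul_left (ω i))
    have e1 : ∑ i ∈ S, ω i * (T η (x i - τ) - η) = ∑ i ∈ S, ω i * T η (x i - τ) - η * ∑ i ∈ S, ω i := by
      rw [Finset.mul_sum, ← Finset.sum_sub_distrib]
      exact Finset.sum_congr rfl fun i _ => by ring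
    have e2 : (fun n : ℕ => (1 - Real.cos (2 * π * n * η)) / (π ^ 2 * η * (n : ℝ) ^ 2) *
        ∑ i ∈ S, ω i * Real.cos (2 * π * n * (x i - τ))) = fun n : ℕ =>
        ∑ i ∈ S, ω i * ((1 - Real.cos (2 * π * n * η)) / (π ^ 2 * η * (n : ℝ) ^ 2) *
          Real.cos (2 * π * n * (x i - τ))) := by
      funext n
      rw [Finset.mul_sum]
      exact Finset.sum_congr rfl fun i _ => by ring
    rw [← e1, e2]
    exact h
  have hgs := hasSum_sum (s := I) (fun k hk => ((hsum k hk).hasSum.mul_left (2 * K k * η ^ (s k - 1))))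
  have hb := tsum_of_norm_bounded hgs (f := fun n : ℕ => (1 - Real.cos (2 * π * n * η)) / (π ^ 2 * η * (n : ℝ) ^ 2) *
      ∑ i ∈ S, ω i * Real.cos (2 * π * n * (x i - τ))) ?_
  · rw [hsum'.tsum_eq, Real.norm_eq_abs] at hb
    refine hb.trans (le_of_eq ?_)
    exact Finset.sum_congr rfl fun k _ => by ring
  · intro n
    rw [norm_mul, Real.norm_eq_abs, Real.norm_eq_abs]
    rcases Nat.eq_zero_or_pos n with rfl | hn
    · simp only [CharP.cast_eq_zero, mul_zero, zero_mul, Real.cos_zero, sub_self, zero_div, abs_zero]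
      refine Finset.sum_nonneg fun k hk => ?_
      have := hK k hk
      have := hg k hk 0
      positivity
    · have hn0 : (0 : ℝ) < n := by exact_mod_cast hn
      have hc0 : 0 ≤ (1 - Real.cos (2 * π * n * η)) / (π ^ 2 * η * (n : ℝ) ^ 2) := by
        have := Real.cos_le_one (2 * π * n * η)
        have : 0 ≤ 1 - Real.cos (2 * π * n * η) := by linarith
        positivity
      rw [abs_of_nonneg hc0]
      have h2 := (abs_wsum_cos_le S x ω n τ).trans (hS n hn)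
      refine (mul_le_mul_of_nonneg_left h2 hc0).trans ?_
      rw [Finset.mul_sum]
      refine Finset.sum_le_sum fun k hk => ?_
      have a1 := coef_le h0 (hs k hk) (hs' k hk) n hn
      have a2 : 0 ≤ K k * g k n := mul_nonneg (hK k hk) (hg k hk n)
      refine (mul_le_mul_of_nonneg_right a1 a2).trans (le_of_eq ?_)
      ring

/-- Upper bound for the weighted number of small fractional parts. -/
theorem countw_upper {ι : Type*} (S : Finset ι) (x ω : ι → ℝ) (hω : ∀ i ∈ S, 0 ≤ ω i) {η E : ℝ} {M : ℕ}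
    (h0 : 0 < η) (hM : 1 ≤ M) (hE : ∀ τ, |∑ i ∈ S, ω i * T η (x i - τ) - η * ∑ i ∈ S, ω i| ≤ E) :
    ∑ i ∈ S.filter (fun i => Int.fract (x i) ≤ M * η), ω i ≤ (M + 1) * (η * ∑ i ∈ S, ω i + E) := by
  calc ∑ i ∈ S.filter (fun i => Int.fract (x i) ≤ M * η), ω i
      ≤ ∑ i ∈ S.filter (fun i => Int.fract (x i) ≤ M * η), ∑ j ∈ range (M + 1), ω i * T η (x i - j * η) := by
        refine Finset.sum_le_sum fun i hi => ?_
        rw [Finset.mem_filter] at hi
        rw [← Finset.mul_sum]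
        have := mul_le_mul_of_nonneg_left (one_le_sum_T h0 hM hi.2) (hω i hi.1)
        rwa [mul_one] at this
    _ ≤ ∑ i ∈ S, ∑ j ∈ range (M + 1), ω i * T η (x i - j * η) :=
        Finset.sum_le_sum_of_subset_of_nonneg (Finset.filter_subset _ _)
          (fun i hi _ => Finset.sum_nonneg fun _ _ => mul_nonneg (hω i hi) (T_nonneg _ _))
    _ = ∑ j ∈ range (M + 1), ∑ i ∈ S, ω i * T η (x i - j * η) := Finset.sum_comm
    _ ≤ ∑ j ∈ range (M + 1), (η * ∑ i ∈ S, ω i + E) := by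
        refine Finset.sum_le_sum fun j _ => ?_
        have := (abs_le.1 (hE (j * η))).2
        linarith
    _ = _ := by rw [Finset.sum_const, Finset.card_range, nsmul_eq_mul]; push_cast; ring

/-- Lower bound for the weighted number of small fractional parts. -/
theorem countw_lower {ι : Type*} (S : Finset ι) (x ω : ι → ℝ) (hω : ∀ i ∈ S, 0 ≤ ω i) {η E : ℝ} {M : ℕ}
    (h0 : 0 < η) (hM : 1 ≤ M) (hδ : M * η < 1)
    (hE : ∀ τ, |∑ i ∈ S, ω i * T η (x i - τ) - η * ∑ i ∈ S, ω i| ≤ E) :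
    (M - 1) * (η * ∑ i ∈ S, ω i - E) ≤ ∑ i ∈ S.filter (fun i => Int.fract (x i) ≤ M * η), ω i := by
  calc (M - 1) * (η * ∑ i ∈ S, ω i - E) = ∑ j ∈ Ico 1 M, (η * ∑ i ∈ S, ω i - E) := by
        rw [Finset.sum_const, Nat.card_Ico, nsmul_eq_mul, Nat.cast_sub hM]; push_cast; ring
    _ ≤ ∑ j ∈ Ico 1 M, ∑ i ∈ S, ω i * T η (x i - j * η) := by
        refine Finset.sum_le_sum fun j _ => ?_
        have := (abs_le.1 (hE (j * η))).1
        linarith
    _ = ∑ i ∈ S, ∑ j ∈ Ico 1 M, ω i * T η (x i - j * η) := Finset.sum_comm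
    _ ≤ ∑ i ∈ S, (if Int.fract (x i) ≤ M * η then ω i else 0) := by
        refine Finset.sum_le_sum fun i hi => ?_
        rw [← Finset.mul_sum]
        refine (mul_le_mul_of_nonneg_left (sum_T_le h0 hM hδ (x i)) (hω i hi)).trans (le_of_eq ?_)
        split_ifs <;> simp
    _ = _ := by rw [Finset.sum_filter]

end Pool.Agent.PG3
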