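import Pool.Agent.PG3.Shift
import Pool.Agent.PG3.TW

/-! Small fractional parts in blocks. -/

open Finset Real Filter

namespace Pool.Agent.PG3

open Pool.Agent.ANT Pool.Agent.PGap

/-- Asymptotic number of small fractional parts in the blocks from Y to ρ Y. -/
def BlockHyp (x : ℕ → ℝ) (γ : ℝ) : Prop :=
  ∀ ρ : ℝ, 1 < ρ → ρ ≤ 2 → ∀ ε : ℝ, 0 < ε → ε ≤ 1 → ∀ c : ℝ, 0 < c → ∀ᶠ Y : ℝ in atTop,
    ∀ δ : ℝ, c * (⌊Y⌋₊ : ℝ) ^ (-γ) ≤ δ → δ < 1 →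
      |(((Ioc ⌊Y⌋₊ ⌊ρ * Y⌋₊).filter (fun y => Int.fract (x y) ≤ δ)).card : ℝ)
          - δ * ((⌊ρ * Y⌋₊ : ℝ) - ⌊Y⌋₊)| ≤ ε * (δ * ((⌊ρ * Y⌋₊ : ℝ) - ⌊Y⌋₊))

/-- Bounds for weighted exponential sums of `x`. -/
def ExpW (x : ℕ → ℝ) : Prop :=
  ∃ g₁ g₂ : ℕ → ℝ, (∀ n, 0 ≤ g₁ n) ∧ (∀ n, 0 ≤ g₂ n) ∧
    (∀ s : ℝ, s < 3 / 2 → Summable fun n : ℕ => (n : ℝ) ^ (s - 2) * g₁ n) ∧
    (∀ s : ℝ, s < 1 / 2 → Summable fun n : ℕ => (n : ℝ) ^ (s - 2) * g₂ n) ∧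
    ∀ (a b : ℝ) (w : ℝ → ℝ), 0 < a → a ≤ b → Wt a b w → ∃ C : ℝ, 0 ≤ C ∧ ∀ T : ℝ, 1 ≤ T → ∀ N : ℕ,
      b ^ 2 * T ^ 2 ≤ N → ∀ h : ℕ, 1 ≤ h →
      ‖∑ y ∈ Ioc 0 N, (w (√(y : ℝ) / T) : ℂ) * ee (h * x y)‖ ≤
        C * (T ^ (3 / 2 : ℝ) * g₁ h + T ^ (1 / 2 : ℝ) * g₂ h + 1)

/-- Smooth weights. -/
theorem exists_wt {a b κ : ℝ} (hκ : 0 < κ) : ∃ w : ℝ → ℝ, Wt a b w ∧ (∀ s, 0 ≤ w s) ∧
    (∀ s, w s ≤ 1) ∧ (∀ s, s ≤ a → w s = 0) ∧ ∀ s, a + κ ≤ s → s ≤ b - κ → w s = 1 := by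
  refine ⟨fun s => Real.smoothTransition ((s - a) / κ) * Real.smoothTransition ((b - s) / κ),
    ⟨?_, fun s hs => ?_⟩, fun s => mul_nonneg (Real.smoothTransition.nonneg _) (Real.smoothTransition.nonneg _),
    fun s => mul_le_one₀ (Real.smoothTransition.le_one _) (Real.smoothTransition.nonneg _)
      (Real.smoothTransition.le_one _), fun s hs => ?_, fun s h1 h2 => ?_⟩
  · refine (Real.smoothTransition.contDiff.comp ?_).mul (Real.smoothTransition.contDiff.comp ?_) <;> fun_prop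
  · rw [Set.mem_Icc, not_and_or, not_le, not_le] at hs
    rcases hs with hs | hs
    · rw [Real.smoothTransition.zero_of_nonpos (div_nonpos_of_nonpos_of_nonneg (by linarith) hκ.le), zero_mul]
    · rw [Real.smoothTransition.zero_of_nonpos (x := (b - s) / κ)
        (div_nonpos_of_nonpos_of_nonneg (by linarith) hκ.le), mul_zero]
  · simp only
    rw [Real.smoothTransition.zero_of_nonpos (div_nonpos_of_nonpos_of_nonneg (by linarith) hκ.le), zero_mul]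
  · simp only
    rw [Real.smoothTransition.one_of_one_le (by rw [le_div_iff₀ hκ]; linarith),
      Real.smoothTransition.one_of_one_le (by rw [le_div_iff₀ hκ]; linarith), one_mul]

theorem wsum_le {a b : ℝ} {w : ℝ → ℝ} (ha : 0 < a) (hab : a ≤ b) (hw : Wt a b w) (h1 : ∀ s, w s ≤ 1)
    {Y : ℝ} (hY : 0 < Y) (N : ℕ) :
    ∑ y ∈ Ioc 0 N, w (√(y : ℝ) / √Y) ≤ (b ^ 2 - a ^ 2) * Y + 1 := by
  have hb : 0 < b := lt_of_lt_of_le ha hab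
  have hsY : 0 < √Y := Real.sqrt_pos.2 hY
  have hYY : √Y ^ 2 = Y := Real.sq_sqrt hY.le
  have h2 : ∀ y ∈ Ioc 0 N, w (√(y : ℝ) / √Y) ≤ if y ∈ Icc ⌈a ^ 2 * Y⌉₊ ⌊b ^ 2 * Y⌋₊ then (1 : ℝ) else 0 := by
    intro y _
    split_ifs with h
    · exact h1 _
    · by_cases hs : √(y : ℝ) / √Y ∈ Set.Icc a b
      · exfalso
        apply h
        have h3 : a * √Y ≤ √(y : ℝ) := by rw [← le_div_iff₀ hsY]; exact hs.1
        have h4 : √(y : ℝ) ≤ b * √Y := by rw [← div_le_iff₀ hsY]; exact hs.2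
        have h5 : √(y : ℝ) ^ 2 = y := Real.sq_sqrt (Nat.cast_nonneg _)
        have h6 := pow_le_pow_left₀ (by positivity) h3 2
        have h7 := pow_le_pow_left₀ (Real.sqrt_nonneg _) h4 2
        rw [mul_pow, hYY, h5] at h6
        rw [mul_pow, hYY, h5] at h7
        rw [Finset.mem_Icc]
        exact ⟨Nat.ceil_le.2 h6, Nat.le_floor h7⟩
      · rw [hw.supp _ hs]
  refine (Finset.sum_le_sum h2).trans ?_
  rw [Finset.sum_ite, Finset.sum_const_zero, add_zero, Finset.sum_const, nsmul_eq_mul, mul_one]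
  have h3 : ((filter (fun y => y ∈ Icc ⌈a ^ 2 * Y⌉₊ ⌊b ^ 2 * Y⌋₊) (Ioc 0 N)).card : ℝ) ≤
      ((Icc ⌈a ^ 2 * Y⌉₊ ⌊b ^ 2 * Y⌋₊).card : ℝ) := by
    exact_mod_cast Finset.card_le_card fun y hy => (Finset.mem_filter.1 hy).2
  refine h3.trans ?_
  rw [Nat.card_Icc]
  have h8 : (⌊b ^ 2 * Y⌋₊ : ℝ) ≤ b ^ 2 * Y := Nat.floor_le (by positivity)
  have h9 : a ^ 2 * Y ≤ ⌈a ^ 2 * Y⌉₊ := Nat.le_ceil _
  rcases le_total ⌈a ^ 2 * Y⌉₊ (⌊b ^ 2 * Y⌋₊ + 1) with h | h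
  · rw [Nat.cast_sub h]; push_cast; linarith
  · rw [Nat.sub_eq_zero_of_le h]
    have : a ^ 2 ≤ b ^ 2 := pow_le_pow_left₀ ha.le hab 2
    have : 0 ≤ (b ^ 2 - a ^ 2) * Y := mul_nonneg (by linarith) hY.le
    simp only [CharP.cast_eq_zero]
    linarith

theorem wsum_ge {p q : ℝ} {w : ℝ → ℝ} (hp : 0 < p) (hq : 0 < q) (h0 : ∀ s, 0 ≤ w s)
    (h1 : ∀ s, p ≤ s → s ≤ q → w s = 1) {Y : ℝ} (hY : 0 < Y) {N : ℕ} (hN : q ^ 2 * Y ≤ N) :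
    (q ^ 2 - p ^ 2) * Y - 1 ≤ ∑ y ∈ Ioc 0 N, w (√(y : ℝ) / √Y) := by
  have hsY : 0 < √Y := Real.sqrt_pos.2 hY
  have hYY : √Y ^ 2 = Y := Real.sq_sqrt hY.le
  have hsub : Icc ⌈p ^ 2 * Y⌉₊ ⌊q ^ 2 * Y⌋₊ ⊆ Ioc 0 N := by
    intro y hy
    rw [Finset.mem_Icc] at hy
    rw [Finset.mem_Ioc]
    constructor
    · have : 0 < ⌈p ^ 2 * Y⌉₊ := Nat.ceil_pos.2 (by positivity)
      omega
    · have h5 : ⌊q ^ 2 * Y⌋₊ ≤ N := by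
        have := Nat.floor_le_floor hN
        rwa [Nat.floor_natCast] at this
      omega
  have h2 : ∑ y ∈ Icc ⌈p ^ 2 * Y⌉₊ ⌊q ^ 2 * Y⌋₊, (1 : ℝ) ≤ ∑ y ∈ Ioc 0 N, w (√(y : ℝ) / √Y) := by
    refine le_trans (le_of_eq ?_) (Finset.sum_le_sum_of_subset_of_nonneg hsub fun _ _ _ => h0 _)
    refine Finset.sum_congr rfl fun y hy => ?_
    rw [Finset.mem_Icc] at hy
    have h3 : p ^ 2 * Y ≤ y := (Nat.le_ceil _).trans (by exact_mod_cast hy.1)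
    have h4 : (y : ℝ) ≤ q ^ 2 * Y := le_trans (by exact_mod_cast hy.2) (Nat.floor_le (by positivity))
    symm
    apply h1
    · rw [le_div_iff₀ hsY]
      apply Real.le_sqrt_of_sq_le
      rw [mul_pow, hYY]; exact h3
    · rw [div_le_iff₀ hsY]
      apply Real.sqrt_le_iff.2
      refine ⟨by positivity, ?_⟩
      rw [mul_pow, hYY]; exact h4
  refine le_trans ?_ h2
  rw [Finset.sum_const, nsmul_eq_mul, mul_one, Nat.card_Icc]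
  have h8 : q ^ 2 * Y < ⌊q ^ 2 * Y⌋₊ + 1 := Nat.lt_floor_add_one _
  have h9 : (⌈p ^ 2 * Y⌉₊ : ℝ) < p ^ 2 * Y + 1 := Nat.ceil_lt_add_one (by positivity)
  have h10 : ((⌊q ^ 2 * Y⌋₊ + 1 : ℕ) : ℝ) - ⌈p ^ 2 * Y⌉₊ ≤ ((⌊q ^ 2 * Y⌋₊ + 1 - ⌈p ^ 2 * Y⌉₊ : ℕ) : ℝ) := by
    rw [sub_le_iff_le_add]
    exact_mod_cast (by omega : ⌊q ^ 2 * Y⌋₊ + 1 ≤ ⌊q ^ 2 * Y⌋₊ + 1 - ⌈p ^ 2 * Y⌉₊ + ⌈p ^ 2 * Y⌉₊)
  refine le_trans ?_ h10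
  push_cast
  linarith

end Pool.Agent.PG3
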