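import Pool.Agent.PG3.Block

/-! Small fractional parts in blocks: the asymptotic formula. -/

open Finset Real Filter

namespace Pool.Agent.PG3

open Pool.Agent.ANT Pool.Agent.PGap

theorem term_small {γ c' ε₁ Z C b s : ℝ} (hγ : 0 ≤ γ) (hc' : 0 < c') (hε₁ : 0 < ε₁) (hZ : 0 ≤ Z)
    (hC : 0 ≤ C) (hs : s ≤ 2) (he : b + γ * (2 - s) < 1) :
    ∀ᶠ Y : ℝ in atTop, ∀ η : ℝ, c' * (⌊Y⌋₊ : ℝ) ^ (-γ) ≤ η →
      2 * Z * (C * Y ^ b) * η ^ (s - 1) ≤ η * (ε₁ * Y) := by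
  have h1 := (tendsto_rpow_neg_atTop (show 0 < 1 - (b + γ * (2 - s)) by linarith)).const_mul
    (2 * Z * C * c' ^ (s - 2))
  rw [mul_zero] at h1
  filter_upwards [h1.eventually_lt_const hε₁, eventually_ge_atTop (1 : ℝ)] with Y hY hY1 η hη
  have hY0 : 0 < Y := by linarith
  have hf1 : (1 : ℝ) ≤ ⌊Y⌋₊ := by exact_mod_cast (Nat.one_le_floor_iff Y).2 hY1
  have hη' : c' * Y ^ (-γ) ≤ η := by
    refine le_trans (mul_le_mul_of_nonneg_left ?_ hc'.le) hη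
    exact Real.rpow_le_rpow_of_nonpos (by linarith) (Nat.floor_le hY0.le) (by linarith)
  have hη0 : 0 < η := lt_of_lt_of_le (by positivity) hη'
  have h2 : η ^ (s - 2) ≤ c' ^ (s - 2) * Y ^ (γ * (2 - s)) := by
    calc η ^ (s - 2) ≤ (c' * Y ^ (-γ)) ^ (s - 2) :=
          Real.rpow_le_rpow_of_nonpos (by positivity) hη' (by linarith)
      _ = _ := by
          rw [Real.mul_rpow hc'.le (by positivity), ← Real.rpow_mul hY0.le]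
          congr 2; ring
  have h3 : η ^ (s - 1) = η ^ (s - 2) * η := by
    rw [← Real.rpow_add_one hη0.ne']; congr 1; ring
  have h4 : Y ^ b * Y ^ (γ * (2 - s)) = Y ^ (-(1 - (b + γ * (2 - s)))) * Y := by
    rw [← Real.rpow_add hY0, ← Real.rpow_add_one hY0.ne']; congr 1; ring
  rw [h3]
  calc 2 * Z * (C * Y ^ b) * (η ^ (s - 2) * η)
      ≤ 2 * Z * (C * Y ^ b) * ((c' ^ (s - 2) * Y ^ (γ * (2 - s))) * η) := by gcongr
    _ = η * (2 * Z * C * c' ^ (s - 2) * (Y ^ b * Y ^ (γ * (2 - s)))) := by ring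
    _ = η * (2 * Z * C * c' ^ (s - 2) * Y ^ (-(1 - (b + γ * (2 - s)))) * Y) := by rw [h4]; ring
    _ ≤ η * (ε₁ * Y) := by gcongr

theorem err_small {x : ℕ → ℝ} (hx : ExpW x) {γ : ℝ} (hγ : 0 ≤ γ) (hγ1 : γ < 1 / 2) {a b : ℝ} {w : ℝ → ℝ}
    (ha : 0 < a) (hab : a ≤ b) (hw : Wt a b w) {c' ε₁ : ℝ} (hc' : 0 < c') (hε₁ : 0 < ε₁) :
    ∀ᶠ Y : ℝ in atTop, ∀ N : ℕ, b ^ 2 * Y ≤ N → ∀ η : ℝ, c' * (⌊Y⌋₊ : ℝ) ^ (-γ) ≤ η → η ≤ 1 / 2 →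
      ∀ τ : ℝ, |∑ y ∈ Ioc 0 N, w (√(y : ℝ) / √Y) * PGap.T η (x y - τ) -
        η * ∑ y ∈ Ioc 0 N, w (√(y : ℝ) / √Y)| ≤ η * (ε₁ * Y) := by
  obtain ⟨g₁, g₂, hg₁, hg₂, hs₁, hs₂, hE⟩ := hx
  obtain ⟨C, hC, hb⟩ := hE a b w ha hab hw
  obtain ⟨μ, hμ⟩ : ∃ μ : ℝ, μ = (1 / 2 - γ) / 2 := ⟨_, rfl⟩
  have hμ0 : 0 < μ := by rw [hμ]; linarith
  have hμ1 : μ ≤ 1 / 4 := by rw [hμ]; linarith
  have hγμ : γ * μ ≤ 1 / 2 * μ := mul_le_mul_of_nonneg_right hγ1.le hμ0.le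
  have hs₃ : Summable fun n : ℕ => (n : ℝ) ^ ((0 : ℝ) - 2) * (1 : ℝ) := by
    simp only [mul_one]
    exact Real.summable_nat_rpow.2 (by norm_num)
  set Z₁ : ℝ := ∑' n : ℕ, (n : ℝ) ^ ((3 / 2 - μ : ℝ) - 2) * g₁ n with hZ₁
  set Z₂ : ℝ := ∑' n : ℕ, (n : ℝ) ^ ((1 / 2 - μ : ℝ) - 2) * g₂ n with hZ₂
  set Z₃ : ℝ := ∑' n : ℕ, (n : ℝ) ^ ((0 : ℝ) - 2) * (1 : ℝ) with hZ₃
  have z₁ : 0 ≤ Z₁ := tsum_nonneg fun n => mul_nonneg (by positivity) (hg₁ n)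
  have z₂ : 0 ≤ Z₂ := tsum_nonneg fun n => mul_nonneg (by positivity) (hg₂ n)
  have z₃ : 0 ≤ Z₃ := tsum_nonneg fun n => mul_nonneg (by positivity) zero_le_one
  have r₁ : 3 / 4 + γ * (2 - (3 / 2 - μ)) = 3 / 4 + γ / 2 + γ * μ := by ring
  have r₂ : 1 / 4 + γ * (2 - (1 / 2 - μ)) = 1 / 4 + 3 / 2 * γ + γ * μ := by ring
  have t₁ := term_small (b := 3 / 4) (s := 3 / 2 - μ) hγ hc' (show 0 < ε₁ / 3 by positivity) z₁ hC
    (by linarith) (by rw [r₁]; linarith)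
  have t₂ := term_small (b := 1 / 4) (s := 1 / 2 - μ) hγ hc' (show 0 < ε₁ / 3 by positivity) z₂ hC
    (by linarith) (by rw [r₂]; linarith)
  have t₃ := term_small (b := 0) (s := 0) hγ hc' (show 0 < ε₁ / 3 by positivity) z₃ hC
    (by norm_num) (by linarith)
  filter_upwards [t₁, t₂, t₃, eventually_ge_atTop (1 : ℝ)] with Y h₁ h₂ h₃ hY N hN η hη hη1 τ
  have hY0 : 0 < Y := by linarith
  have hf1 : (1 : ℝ) ≤ ⌊Y⌋₊ := by exact_mod_cast (Nat.one_le_floor_iff Y).2 hY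
  have hη0 : 0 < η := lt_of_lt_of_le (by positivity) hη
  have hT1 : 1 ≤ √Y := Real.one_le_sqrt.2 hY
  have hsq : √Y ^ 2 = Y := Real.sq_sqrt hY0.le
  have q₁ : √Y ^ (3 / 2 : ℝ) = Y ^ (3 / 4 : ℝ) := by
    rw [Real.sqrt_eq_rpow, ← Real.rpow_mul hY0.le]; norm_num
  have q₂ : √Y ^ (1 / 2 : ℝ) = Y ^ (1 / 4 : ℝ) := by
    rw [Real.sqrt_eq_rpow, ← Real.rpow_mul hY0.le]; norm_num
  have key := TW_sum_err (Ioc 0 N) x (fun y : ℕ => w (√(y : ℝ) / √Y)) hη0 hη1 (Finset.univ : Finset (Fin 3))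
    ![C * Y ^ (3 / 4 : ℝ), C * Y ^ (1 / 4 : ℝ), C * Y ^ (0 : ℝ)] ![3 / 2 - μ, 1 / 2 - μ, 0]
    ![g₁, g₂, fun _ => (1 : ℝ)]
    (by intro k _; fin_cases k <;> simp <;> positivity)
    (by intro k _; fin_cases k <;> simp <;> linarith)
    (by intro k _; fin_cases k <;> simp <;> linarith)
    (by intro k _ n; fin_cases k <;> simp [hg₁, hg₂])
    (by
      intro k _
      fin_cases k
      · exact hs₁ (3 / 2 - μ) (by linarith)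
      · exact hs₂ (1 / 2 - μ) (by linarith)
      · exact hs₃)
    (by
      intro n hn
      have h := hb (√Y) hT1 N (by rw [hsq]; exact hN) n hn
      rw [q₁, q₂] at h
      refine h.trans (le_of_eq ?_)
      simp only [Fin.sum_univ_three, Matrix.cons_val_zero, Matrix.cons_val_one, Matrix.cons_val,
        Real.rpow_zero]
      ring) τ
  refine key.trans ?_
  simp only [Fin.sum_univ_three, Matrix.cons_val_zero, Matrix.cons_val_one, Matrix.cons_val]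
  rw [← hZ₁, ← hZ₂, ← hZ₃]
  have k₁ := h₁ η hη
  have k₂ := h₂ η hη
  have k₃ := h₃ η hη
  have e : η * (ε₁ * Y) = η * (ε₁ / 3 * Y) + η * (ε₁ / 3 * Y) + η * (ε₁ / 3 * Y) := by ring
  rw [e]
  linarith

end Pool.Agent.PG3
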