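import Pool.Agent.PG3.Block2

/-! Small fractional parts in blocks: the proof of `BlockHyp`. -/

open Finset Real Filter

namespace Pool.Agent.PG3

open Pool.Agent.ANT Pool.Agent.PGap

theorem blockHyp_of_expW {x : ℕ → ℝ} (hx : ExpW x) {γ : ℝ} (hγ : 0 ≤ γ) (hγ1 : γ < 1 / 2) :
    BlockHyp x γ := by
  intro ρ hρ1 hρ2 ε hε hε1 c hc
  obtain ⟨M, hM⟩ := exists_nat_gt (8 / ε)
  have hM0 : (0 : ℝ) < M := lt_trans (by positivity) hM
  have hM8 : (8 : ℝ) < M := by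
    refine lt_of_le_of_lt ?_ hM
    rw [le_div_iff₀ hε]; nlinarith
  have hM1 : 1 ≤ M := by
    have : (1 : ℝ) ≤ M := by linarith
    exact_mod_cast this
  have hq : (M : ℝ)⁻¹ ≤ ε / 8 := by
    rw [div_lt_iff₀ hε] at hM
    rw [inv_le_comm₀ hM0 (by positivity), inv_div, div_le_iff₀ hε]
    exact hM.le
  have hq0 : (0 : ℝ) < (M : ℝ)⁻¹ := by positivity
  have hP : 0 < ρ - 1 := by linarith
  set κ : ℝ := ε * (ρ - 1) / 100 with hκ
  have hκ0 : 0 < κ := by positivity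
  have hκ1 : κ ≤ (ρ - 1) / 100 := by
    rw [hκ]
    have : ε * (ρ - 1) ≤ 1 * (ρ - 1) := mul_le_mul_of_nonneg_right hε1 hP.le
    linarith
  set r : ℝ := √ρ with hr
  have hr2 : r ^ 2 = ρ := Real.sq_sqrt (by linarith)
  have hr1 : 1 < r := by rw [hr]; exact Real.lt_sqrt_of_sq_lt (by linarith)
  have hr3 : r ≤ 3 / 2 := by
    rw [hr]; exact Real.sqrt_le_iff.2 ⟨by norm_num, by linarith⟩
  have hr4 : (ρ - 1) ≤ (r - 1) * (5 / 2) := by nlinarith
  obtain ⟨w, hw, hw0, hw1, -, hw2⟩ := exists_wt (a := 1 - κ) (b := r + κ) hκ0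
  obtain ⟨v, hv, hv0, hv1, hv3, hv2⟩ := exists_wt (a := 1) (b := r) hκ0
  have ha : 0 < 1 - κ := by linarith
  have E₁ := err_small hx hγ hγ1 ha (show 1 - κ ≤ r + κ by linarith) hw (c' := c / M)
    (ε₁ := ε * (ρ - 1) / 100) (by positivity) (by positivity)
  have E₂ := err_small hx hγ hγ1 one_pos hr1.le hv (c' := c / M)
    (ε₁ := ε * (ρ - 1) / 100) (by positivity) (by positivity)
  filter_upwards [E₁, E₂, eventually_ge_atTop (1 : ℝ), eventually_ge_atTop (100 / (ε * (ρ - 1)))] with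
    Y h₁ h₂ hY1 hY2 δ hδ hδ1
  have hY0 : 0 < Y := by linarith
  have hsY : 0 < √Y := Real.sqrt_pos.2 hY0
  have hYY : √Y ^ 2 = Y := Real.sq_sqrt hY0.le
  have hf1 : (1 : ℝ) ≤ ⌊Y⌋₊ := by exact_mod_cast (Nat.one_le_floor_iff Y).2 hY1
  have hδ0 : 0 < δ := lt_of_lt_of_le (by positivity) hδ
  set η : ℝ := δ / M with hη
  have hη0 : 0 < η := by positivity
  have hηM : (M : ℝ) * η = δ := by rw [hη]; field_simp
  have hηM' : η = δ * (M : ℝ)⁻¹ := by rw [hη, div_eq_mul_inv]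
  have hη1 : η ≤ 1 / 2 := by
    rw [hη, div_le_iff₀ hM0]; linarith
  have hηl : c / M * (⌊Y⌋₊ : ℝ) ^ (-γ) ≤ η := by
    rw [hη, div_mul_eq_mul_div]
    exact div_le_div_of_nonneg_right hδ hM0.le
  set N : ℕ := ⌈(r + κ) ^ 2 * Y⌉₊ with hN
  have hN1 : (r + κ) ^ 2 * Y ≤ N := Nat.le_ceil _
  have hN2 : r ^ 2 * Y ≤ N := by
    refine le_trans (mul_le_mul_of_nonneg_right ?_ hY0.le) hN1
    exact pow_le_pow_left₀ (by linarith) (by linarith) 2
  -- the interval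
  have hmem : ∀ y : ℕ, y ∈ Ioc ⌊Y⌋₊ ⌊ρ * Y⌋₊ ↔ Y < y ∧ (y : ℝ) ≤ ρ * Y := by
    intro y
    rw [Finset.mem_Ioc, Nat.floor_lt hY0.le, Nat.le_floor_iff (by positivity)]
  have hsc : ∀ y : ℕ, (Y < y ∧ (y : ℝ) ≤ ρ * Y) ↔ (1 < √(y : ℝ) / √Y ∧ √(y : ℝ) / √Y ≤ r) := by
    intro y
    rw [one_lt_div hsY, div_le_iff₀ hsY, Real.sqrt_lt_sqrt_iff hY0.le, hr,
      ← Real.sqrt_mul (by linarith), Real.sqrt_le_sqrt_iff (by positivity)]
  set S : Finset ℕ := (Ioc ⌊Y⌋₊ ⌊ρ * Y⌋₊).filter (fun y => Int.fract (x y) ≤ δ) with hS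
  set F : Finset ℕ := (Ioc 0 N).filter (fun y => Int.fract (x y) ≤ M * η) with hF
  have hSF : S ⊆ F := by
    intro y hy
    rw [hS, Finset.mem_filter, hmem] at hy
    rw [hF, Finset.mem_filter, hηM, Finset.mem_Ioc]
    refine ⟨⟨?_, ?_⟩, hy.2⟩
    · have : (0 : ℝ) < y := by linarith [hy.1.1]
      exact_mod_cast this
    · have : (y : ℝ) ≤ N := hy.1.2.trans (by rw [← hr2]; exact hN2)
      exact_mod_cast this
  -- upper bound
  have hup : (S.card : ℝ) ≤ (M + 1) * (η * ∑ y ∈ Ioc 0 N, w (√(y : ℝ) / √Y) + η * (ε * (ρ - 1) / 100 * Y)) := by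
    refine le_trans ?_ (countw_upper (Ioc 0 N) x (fun y : ℕ => w (√(y : ℝ) / √Y)) (fun _ _ => hw0 _) hη0 hM1
      (h₁ N hN1 η hηl hη1))
    rw [← hF]
    calc (S.card : ℝ) = ∑ y ∈ S, (1 : ℝ) := by simp
      _ = ∑ y ∈ S, w (√(y : ℝ) / √Y) := by
          refine Finset.sum_congr rfl fun y hy => ?_
          rw [hS, Finset.mem_filter, hmem, hsc] at hy
          rw [hw2 _ (by linarith [hy.1.1]) (by linarith [hy.1.2])]
      _ ≤ ∑ y ∈ F, w (√(y : ℝ) / √Y) :=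
          Finset.sum_le_sum_of_subset_of_nonneg hSF fun _ _ _ => hw0 _
  have hlow : (M - 1) * (η * ∑ y ∈ Ioc 0 N, v (√(y : ℝ) / √Y) - η * (ε * (ρ - 1) / 100 * Y)) ≤ (S.card : ℝ) := by
    refine (countw_lower (Ioc 0 N) x (fun y : ℕ => v (√(y : ℝ) / √Y)) (fun _ _ => hv0 _) hη0 hM1
      (by rw [hηM]; exact hδ1) (h₂ N hN2 η hηl hη1)).trans ?_
    rw [← hF]
    calc ∑ y ∈ F, v (√(y : ℝ) / √Y) ≤ ∑ y ∈ F, (if y ∈ S then (1 : ℝ) else 0) := by
          refine Finset.sum_le_sum fun y hy => ?_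
          split_ifs with hyS
          · exact hv1 _
          · refine le_of_eq ?_
            by_contra hne
            apply hyS
            rw [hS, Finset.mem_filter, hmem, hsc]
            rw [hF, Finset.mem_filter, hηM] at hy
            refine ⟨⟨?_, ?_⟩, hy.2⟩
            · by_contra hle
              exact hne (hv3 _ (not_lt.1 hle))
            · by_contra hle
              exact hne (hv.supp _ fun hmem => hle hmem.2)
      _ = (S.card : ℝ) := by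
          rw [Finset.sum_ite, Finset.sum_const_zero, add_zero, Finset.sum_const, nsmul_eq_mul, mul_one]
          congr 2
          ext y
          rw [Finset.mem_filter]
          exact ⟨fun h => h.2, fun h => ⟨hSF h, h⟩⟩
  -- sizes
  set U : ℝ := (ρ - 1) * Y with hU
  have hU0 : 0 < U := by positivity
  have hεU : 1 ≤ ε * U / 100 := by
    rw [div_le_iff₀ (by positivity)] at hY2
    rw [le_div_iff₀ (by norm_num), hU]
    linarith
  have e0 : ε * (ρ - 1) / 100 * Y = ε * U / 100 := by rw [hU]; ring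
  have hκY : κ * Y = ε * U / 100 := by rw [hκ, hU]; ring
  have hW := wsum_le ha (show 1 - κ ≤ r + κ by linarith) hw hw1 hY0 N
  have hV := wsum_ge (p := 1 + κ) (q := r - κ) (by linarith) (by linarith) hv0
    (fun s h1 h2 => hv2 s h1 h2) hY0 (N := N) (by
      refine le_trans (mul_le_mul_of_nonneg_right ?_ hY0.le) hN2
      exact pow_le_pow_left₀ (by linarith) (by linarith) 2)
  have hW' : ∑ y ∈ Ioc 0 N, w (√(y : ℝ) / √Y) ≤ U * (1 + 6 * ε / 100) := by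
    refine hW.trans ?_
    have e1 : ((r + κ) ^ 2 - (1 - κ) ^ 2) * Y + 1 = U + 2 * (r + 1) * (κ * Y) + 1 := by
      rw [hU, ← hr2]; ring
    rw [e1, hκY]
    have : 2 * (r + 1) * (ε * U / 100) ≤ 5 * (ε * U / 100) :=
      mul_le_mul_of_nonneg_right (by linarith) (by positivity)
    linarith
  have hV' : U * (1 - 6 * ε / 100) ≤ ∑ y ∈ Ioc 0 N, v (√(y : ℝ) / √Y) := by
    refine le_trans ?_ hV
    have e1 : ((r - κ) ^ 2 - (1 + κ) ^ 2) * Y - 1 = U - 2 * (r + 1) * (κ * Y) - 1 := by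
      rw [hU, ← hr2]; ring
    rw [e1, hκY]
    have : 2 * (r + 1) * (ε * U / 100) ≤ 5 * (ε * U / 100) :=
      mul_le_mul_of_nonneg_right (by linarith) (by positivity)
    linarith
  have hL1 : (⌊ρ * Y⌋₊ : ℝ) - ⌊Y⌋₊ ≤ U * (1 + ε / 100) := by
    have g1 : (⌊ρ * Y⌋₊ : ℝ) ≤ ρ * Y := Nat.floor_le (by positivity)
    have g2 : Y < ⌊Y⌋₊ + 1 := Nat.lt_floor_add_one _
    have e1 : U * (1 + ε / 100) = ρ * Y - Y + ε * U / 100 := by rw [hU]; ring
    rw [e1]; linarith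
  have hL2 : U * (1 - ε / 100) ≤ (⌊ρ * Y⌋₊ : ℝ) - ⌊Y⌋₊ := by
    have g1 : (⌊Y⌋₊ : ℝ) ≤ Y := Nat.floor_le hY0.le
    have g2 : ρ * Y < ⌊ρ * Y⌋₊ + 1 := Nat.lt_floor_add_one _
    have e1 : U * (1 - ε / 100) = ρ * Y - Y - ε * U / 100 := by rw [hU]; ring
    rw [e1]; linarith
  set L : ℝ := (⌊ρ * Y⌋₊ : ℝ) - ⌊Y⌋₊ with hL
  have hδU : 0 < δ * U := by positivity
  rw [e0] at hup hlow
  have eup : (M + 1) * (η * ∑ y ∈ Ioc 0 N, w (√(y : ℝ) / √Y) + η * (ε * U / 100)) =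
      (1 + (M : ℝ)⁻¹) * (δ * (∑ y ∈ Ioc 0 N, w (√(y : ℝ) / √Y) + ε * U / 100)) := by
    rw [hηM']; field_simp
  have elow : (M - 1) * (η * ∑ y ∈ Ioc 0 N, v (√(y : ℝ) / √Y) - η * (ε * U / 100)) =
      (1 - (M : ℝ)⁻¹) * (δ * (∑ y ∈ Ioc 0 N, v (√(y : ℝ) / √Y) - ε * U / 100)) := by
    rw [hηM']; field_simp
  rw [eup] at hup
  rw [elow] at hlow
  have up1 : (S.card : ℝ) ≤ (1 + ε / 8) * (δ * (U * (1 + 7 * ε / 100))) := by
    refine hup.trans ?_
    have a1 : ∑ y ∈ Ioc 0 N, w (√(y : ℝ) / √Y) + ε * U / 100 ≤ U * (1 + 7 * ε / 100) := by linarith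
    have a2 : 0 ≤ ∑ y ∈ Ioc 0 N, w (√(y : ℝ) / √Y) + ε * U / 100 :=
      add_nonneg (Finset.sum_nonneg fun _ _ => hw0 _) (by positivity)
    exact mul_le_mul (by linarith) (mul_le_mul_of_nonneg_left a1 hδ0.le) (mul_nonneg hδ0.le a2) (by positivity)
  have low1 : (1 - ε / 8) * (δ * (U * (1 - 7 * ε / 100))) ≤ (S.card : ℝ) := by
    refine le_trans ?_ hlow
    have a1 : U * (1 - 7 * ε / 100) ≤ ∑ y ∈ Ioc 0 N, v (√(y : ℝ) / √Y) - ε * U / 100 := by linarith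
    have a2 : 0 ≤ U * (1 - 7 * ε / 100) := mul_nonneg hU0.le (by linarith)
    exact mul_le_mul (by linarith) (mul_le_mul_of_nonneg_left a1 hδ0.le) (mul_nonneg hδ0.le a2) (by linarith)
  have b1 : δ * (U * (1 - ε / 100)) ≤ δ * L := mul_le_mul_of_nonneg_left hL2 hδ0.le
  have b2 : δ * L ≤ δ * (U * (1 + ε / 100)) := mul_le_mul_of_nonneg_left hL1 hδ0.le
  have hδε : 0 ≤ δ * U * ε := by positivity
  have hδε2 : δ * U * ε * ε ≤ δ * U * ε := by
    have := mul_le_mul_of_nonneg_left hε1 hδε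
    linarith
  have hδε3 : 0 ≤ δ * U * ε * ε := by positivity
  rw [abs_le]
  constructor
  · have c1 : (1 - ε) * (δ * L) ≤ (1 - ε) * (δ * (U * (1 + ε / 100))) :=
      mul_le_mul_of_nonneg_left b2 (by linarith)
    have e1 : (1 - ε) * (δ * (U * (1 + ε / 100))) = δ * U - 99 / 100 * (δ * U * ε) - 1 / 100 * (δ * U * ε * ε) := by
      ring
    have e2 : (1 - ε / 8) * (δ * (U * (1 - 7 * ε / 100))) =
        δ * U - (1 / 8 + 7 / 100) * (δ * U * ε) + 7 / 800 * (δ * U * ε * ε) := by ring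
    rw [e1] at c1
    rw [e2] at low1
    linarith
  · have c1 : (1 + ε) * (δ * (U * (1 - ε / 100))) ≤ (1 + ε) * (δ * L) :=
      mul_le_mul_of_nonneg_left b1 (by linarith)
    have e1 : (1 + ε) * (δ * (U * (1 - ε / 100))) = δ * U + 99 / 100 * (δ * U * ε) - 1 / 100 * (δ * U * ε * ε) := by
      ring
    have e2 : (1 + ε / 8) * (δ * (U * (1 + 7 * ε / 100))) =
        δ * U + (1 / 8 + 7 / 100) * (δ * U * ε) + 7 / 800 * (δ * U * ε * ε) := by ring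
    rw [e1] at c1
    rw [e2] at up1
    linarith

end Pool.Agent.PG3
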