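import Pool.Agent.PG3.Block
import Pool.Agent.PG3.Arith
import Pool.Agent.PGap.Lower

/-! Bounds for the weighted exponential sums of `y ^ (3 / 2)`. -/

open Finset Real Filter

namespace Pool.Agent.PG3

open Pool.Agent.ANT Pool.Agent.PGap

theorem expW_f3 : ExpW (fun y => f3 y) := by
  obtain ⟨g₁, g₂, hg₁, hg₂, hs₁, hs₂, hD⟩ := arith
  have hsum : ∀ (g : ℕ → ℝ) (s : ℝ), Summable (fun n : ℕ => (n : ℝ) ^ (-(5 / 2 - s)) * g n) →
      Summable (fun n : ℕ => (n : ℝ) ^ (s - 2) * ((√(n : ℝ))⁻¹ * g n)) := by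
    intro g s h
    refine h.congr_atTop ?_
    filter_upwards [eventually_ge_atTop 1] with n hn
    have hn0 : (0 : ℝ) < n := by exact_mod_cast hn
    rw [← mul_assoc]
    congr 1
    rw [Real.sqrt_eq_rpow, ← Real.rpow_neg hn0.le, ← Real.rpow_add hn0]
    congr 1
    ring
  refine ⟨fun n => (√(n : ℝ))⁻¹ * g₁ n, fun n => (√(n : ℝ))⁻¹ * g₂ n, fun n => mul_nonneg (by positivity) (hg₁ n),
    fun n => mul_nonneg (by positivity) (hg₂ n), fun s hs => hsum g₁ s (hs₁ (5 / 2 - s) (by linarith)),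
    fun s hs => hsum g₂ s (hs₂ (5 / 2 - s) (by linarith)), fun a b w ha hab hw => ?_⟩
  obtain ⟨C, hC, hb⟩ := dual_bound ha hab hw
  refine ⟨C, hC, fun T hT N hN h hh => ?_⟩
  have hT0 : 0 < T := by linarith
  have hh0 : (0 : ℝ) < h := by exact_mod_cast hh
  have e1 : ∑ y ∈ Ioc 0 N, (w (√(y : ℝ) / T) : ℂ) * ee (h * f3 y) = ∑' m : ℤ, FT w T h m := by
    rw [← poisson ha hab hw hT0 hh, tsum_fw ha hw hT0 h hN]
    rfl
  rw [e1]
  refine (hb T hT h hh).trans (mul_le_mul_of_nonneg_left ?_ hC)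
  have h1 := hD h T hh hT0
  have h2 : D h T ≤ T * g₁ h + g₂ h := h1
  have e2 : T ^ (3 / 2 : ℝ) = √T * T := by
    rw [Real.sqrt_eq_rpow, ← Real.rpow_add_one hT0.ne']; norm_num
  have e3 : T ^ (1 / 2 : ℝ) = √T := by rw [Real.sqrt_eq_rpow]
  rw [e2, e3]
  have h3 : √T * (√(h : ℝ))⁻¹ * D h T ≤ √T * (√(h : ℝ))⁻¹ * (T * g₁ h + g₂ h) :=
    mul_le_mul_of_nonneg_left h2 (by positivity)
  have e4 : √T * (√(h : ℝ))⁻¹ * (T * g₁ h + g₂ h) =
      √T * T * ((√(h : ℝ))⁻¹ * g₁ h) + √T * ((√(h : ℝ))⁻¹ * g₂ h) := by ring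
  linarith

theorem ExpW.neg {x : ℕ → ℝ} (hx : ExpW x) : ExpW (fun y => -x y) := by
  obtain ⟨g₁, g₂, hg₁, hg₂, hs₁, hs₂, hE⟩ := hx
  refine ⟨g₁, g₂, hg₁, hg₂, hs₁, hs₂, fun a b w ha hab hw => ?_⟩
  obtain ⟨C, hC, hb⟩ := hE a b w ha hab hw
  refine ⟨C, hC, fun T hT N hN h hh => ?_⟩
  refine le_trans (le_of_eq ?_) (hb T hT N hN h hh)
  rw [← Complex.norm_conj, map_sum]
  congr 1
  refine Finset.sum_congr rfl fun y _ => ?_
  rw [map_mul, Complex.conj_ofReal, conj_ee]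
  congr 2
  ring

end Pool.Agent.PG3
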