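import Pool.Agent.PGap.Lower

/-! Lower bound for the number of small gaps. -/

open Finset Real Filter

namespace Pool.Agent.PG3

open Pool.Agent.PGap

/-- Non-squares from `y₀` on. -/
def Nice' (y₀ y : ℕ) : Prop := (¬ ∃ u, u ^ 2 = y) ∧ y₀ ≤ y

open Classical in
theorem cube_idx {y : ℕ} (hy : ¬ ∃ w, w ^ 2 = y) :
    1 ≤ idx y ∧ b (idx y) = y ^ 3 ∧ sc y ^ 2 ≤ b (idx y - 1) ∧ b (idx y + 1) ≤ (sc y + 1) ^ 2 := by
  unfold idx
  have hy2 := two_le_of_not_sq hy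
  have h0 : b (Nat.count PP (y ^ 3)) = y ^ 3 := b_count (PP_cube hy2)
  have h8 := sc_sq_lt hy
  have h9 : PP (sc y ^ 2) := PP_sq (sc_ge_two hy2)
  have h11 := lt_sc_succ y
  have h10 : PP ((sc y + 1) ^ 2) := PP_sq (by have := sc_ge_two hy2; omega)
  have h1 : 1 ≤ Nat.count PP (y ^ 3) := by
    have h2 : b (Nat.count PP (sc y ^ 2)) < b (Nat.count PP (y ^ 3)) := by rw [h0, b_count h9]; exact h8
    have := b_mono.lt_iff_lt.1 h2
    omega
  refine ⟨h1, h0, b_ge h1 h9 (by rw [h0]; exact h8), ?_⟩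
  exact b_next (by omega) h10 (by rw [Nat.add_sub_cancel, h0]; exact h11)

theorem idx_inj' {y z : ℕ} (hy : ¬ ∃ u, u ^ 2 = y) (hz : ¬ ∃ u, u ^ 2 = z) (h : idx y = idx z) : y = z := by
  have h1 := (cube_idx hy).2.1
  have h2 := (cube_idx hz).2.1
  rw [h, h2] at h1
  exact (Nat.pow_left_injective (n := 3) (by norm_num) h1).symm

theorem lower_bound' {θ lam c : ℝ} (hc : c < lam / 2) : ∃ K : ℕ, ∀ N : ℕ, ∀ Y : ℝ, 0 ≤ Y →
    idx ⌊Y⌋₊ + 1 ≤ N →
    cnt (fun y => f3 y) c (3 / 2 * (1 - θ)) Y + cnt (fun y => -f3 y) c (3 / 2 * (1 - θ)) Y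
      - (K + 2 * (√Y + 1)) ≤ ((PGap.E θ lam N).card : ℝ) := by
  classical
  obtain ⟨y₁, hy₁⟩ := eventually_atTop.1 (low_b θ hc)
  obtain ⟨y₂, hy₂⟩ := eventually_atTop.1 (up_b θ hc)
  refine ⟨y₁ + y₂, fun N Y hY0 hYN => ?_⟩
  set B := ⌊Y⌋₊ with hB
  set S₁ := (Ioc 0 B).filter (fun y : ℕ => Int.fract (f3 (y : ℝ)) ≤ c * (y : ℝ) ^ (-(3 / 2 * (1 - θ)))) with hS₁
  set S₂ := (Ioc 0 B).filter (fun y : ℕ => Int.fract (-f3 (y : ℝ)) ≤ c * (y : ℝ) ^ (-(3 / 2 * (1 - θ)))) with hS₂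
  set Sq := (range (Nat.sqrt B + 1)).image (fun u => u ^ 2) with hSq
  have hSqc : Sq.card ≤ Nat.sqrt B + 1 := Finset.card_image_le.trans (by rw [Finset.card_range])
  have hdec : ∀ (S : Finset ℕ) (y₀ : ℕ), S ⊆ Ioc 0 B →
      S.card ≤ (S.filter (fun y => Nice' y₀ y)).card + (Nat.sqrt B + 1 + y₀) := by
    intro S y₀ hS
    have hsub : S ⊆ S.filter (fun y => Nice' y₀ y) ∪ (Sq ∪ range y₀) := by
      intro y hy
      have hyB := hS hy
      simp only [Finset.mem_union]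
      by_cases h1 : ∃ u, u ^ 2 = y
      · right; left
        obtain ⟨u, rfl⟩ := h1
        rw [hSq, Finset.mem_image]
        refine ⟨u, ?_, rfl⟩
        rw [Finset.mem_range]
        rw [Finset.mem_Ioc] at hyB
        have : u ≤ Nat.sqrt B := Nat.le_sqrt.2 (by rw [← pow_two]; exact hyB.2)
        omega
      by_cases h3 : y₀ ≤ y
      · left; rw [Finset.mem_filter]; exact ⟨hy, h1, h3⟩
      · right; right; rw [Finset.mem_range]; omega
    refine (Finset.card_le_card hsub).trans ?_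
    refine (Finset.card_union_le _ _).trans (add_le_add le_rfl ?_)
    refine (Finset.card_union_le _ _).trans (add_le_add hSqc ?_)
    rw [Finset.card_range]
  have d₁ := hdec S₁ y₁ (Finset.filter_subset _ _)
  have d₂ := hdec S₂ y₂ (Finset.filter_subset _ _)
  set S₁' := S₁.filter (fun y => Nice' y₁ y) with hS₁'
  set S₂' := S₂.filter (fun y => Nice' y₂ y) with hS₂'
  have hidx : ∀ y, y ≤ B → idx y + 1 ≤ N := by
    intro y hy
    refine le_trans (Nat.add_le_add_right ?_ 1) hYN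
    exact Nat.count_monotone _ (Nat.pow_le_pow_left hy 3)
  have hsubE : S₁'.image idx ∪ S₂'.image (fun y => idx y + 1) ⊆ PGap.E θ lam N := by
    intro n hn
    rw [Finset.mem_union, Finset.mem_image, Finset.mem_image] at hn
    unfold PGap.E
    rw [Finset.mem_filter, Finset.mem_Icc]
    rcases hn with ⟨y, hy, rfl⟩ | ⟨y, hy, rfl⟩
    · rw [hS₁', Finset.mem_filter, hS₁, Finset.mem_filter, Finset.mem_Ioc] at hy
      obtain ⟨⟨⟨_, hyB⟩, hfr⟩, hsq, hy1⟩ := hy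
      obtain ⟨g1, g2, g3, _⟩ := cube_idx hsq
      have h1 := hidx y hyB
      refine ⟨⟨g1, by omega⟩, ?_⟩
      have h2 := hy₁ y hy1 hfr
      have e2 : ((sc y : ℝ)) ^ 2 ≤ (b (idx y - 1) : ℕ) := by exact_mod_cast g3
      rw [g2]
      push_cast
      linarith
    · rw [hS₂', Finset.mem_filter, hS₂, Finset.mem_filter, Finset.mem_Ioc] at hy
      obtain ⟨⟨⟨_, hyB⟩, hfr⟩, hsq, hy1⟩ := hy
      obtain ⟨g1, g2, _, g4⟩ := cube_idx hsq
      have h1 := hidx y hyB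
      refine ⟨⟨by omega, h1⟩, ?_⟩
      have h2 := hy₂ y hy1 hsq hfr
      have e2 : ((b (idx y + 1) : ℕ) : ℝ) ≤ ((sc y : ℝ) + 1) ^ 2 := by exact_mod_cast g4
      rw [Nat.add_sub_cancel, g2]
      push_cast
      linarith
  have hprop₁ : ∀ y ∈ S₁', ¬ ∃ u, u ^ 2 = y := by
    intro y hy
    rw [hS₁', Finset.mem_filter] at hy
    exact hy.2.1
  have hprop₂ : ∀ y ∈ S₂', ¬ ∃ u, u ^ 2 = y := by
    intro y hy
    rw [hS₂', Finset.mem_filter] at hy
    exact hy.2.1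
  have hc₁ : (S₁'.image idx).card = S₁'.card := Finset.card_image_of_injOn (fun y hy z hz h =>
    idx_inj' (hprop₁ y hy) (hprop₁ z hz) h)
  have hc₂ : (S₂'.image (fun y => idx y + 1)).card = S₂'.card := Finset.card_image_of_injOn
    (fun y hy z hz h => idx_inj' (hprop₂ y hy) (hprop₂ z hz) (by simpa using h))
  have hdisj : Disjoint (S₁'.image idx) (S₂'.image (fun y => idx y + 1)) := by
    rw [Finset.disjoint_left]
    intro n h1 h2
    rw [Finset.mem_image] at h1 h2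
    obtain ⟨y, hy, h1⟩ := h1
    obtain ⟨z, hz, h2⟩ := h2
    have a1 := (cube_idx (hprop₁ y hy)).2.1
    have a2 := (cube_idx (hprop₂ z hz)).2.1
    refine not_both_cubes (n := n) (by omega) ?_ ?_ (hprop₁ y hy) (y := z)
    · rw [← a2, ← h2, Nat.add_sub_cancel]
    · rw [← a1, h1]
  have hE : S₁'.card + S₂'.card ≤ (PGap.E θ lam N).card := by
    rw [← hc₁, ← hc₂, ← Finset.card_union_of_disjoint hdisj]
    exact Finset.card_le_card hsubE
  have e1 : cnt (fun y => f3 y) c (3 / 2 * (1 - θ)) Y = S₁.card := rfl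
  have e2 : cnt (fun y => -f3 y) c (3 / 2 * (1 - θ)) Y = S₂.card := rfl
  have hsB : (Nat.sqrt B : ℝ) ≤ √Y := by
    refine Real.nat_sqrt_le_real_sqrt.trans (Real.sqrt_le_sqrt ?_)
    exact Nat.floor_le hY0
  have d₁' : (S₁.card : ℝ) ≤ S₁'.card + ((Nat.sqrt B : ℝ) + 1 + y₁) := by exact_mod_cast d₁
  have d₂' : (S₂.card : ℝ) ≤ S₂'.card + ((Nat.sqrt B : ℝ) + 1 + y₂) := by exact_mod_cast d₂
  have hE' : (S₁'.card : ℝ) + S₂'.card ≤ (PGap.E θ lam N).card := by exact_mod_cast hE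
  rw [e1, e2]
  push_cast
  linarith

end Pool.Agent.PG3
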