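import Pool.Agent.PG3.Pts

/-! Fifth powers close to cubes. -/

open Finset Real

namespace Pool.Agent.PG3

theorem mvt2 {F F' : ℝ → ℝ} {a b lo hi : ℝ} (hab : a < b) (hd : ∀ t ∈ Set.Icc a b, HasDerivAt F (F' t) t)
    (hlo : ∀ t ∈ Set.Icc a b, lo ≤ F' t) (hhi : ∀ t ∈ Set.Icc a b, F' t ≤ hi) :
    lo * (b - a) ≤ F b - F a ∧ F b - F a ≤ hi * (b - a) := by
  obtain ⟨c, hc, he⟩ := exists_hasDerivAt_eq_slope F F' hab
    (fun t ht => (hd t ht).continuousAt.continuousWithinAt) (fun t ht => hd t ⟨ht.1.le, ht.2.le⟩)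
  have hba : 0 < b - a := by linarith
  rw [eq_div_iff hba.ne'] at he
  rw [← he]
  have hc' : c ∈ Set.Icc a b := ⟨hc.1.le, hc.2.le⟩
  exact ⟨mul_le_mul_of_nonneg_right (hlo c hc') hba.le, mul_le_mul_of_nonneg_right (hhi c hc') hba.le⟩

theorem slope_low {f f' f'' : ℝ → ℝ} {p q lo x y z : ℝ} (h1 : ∀ t ∈ Set.Icc p q, HasDerivAt f (f' t) t)
    (h2 : ∀ t ∈ Set.Icc p q, HasDerivAt f' (f'' t) t) (hlo : ∀ t ∈ Set.Icc p q, lo ≤ f'' t)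
    (hx : p ≤ x) (hxy : x < y) (hyz : y < z) (hz : z ≤ q) :
    lo / 2 * (z - x) ≤ (f z - f y) / (z - y) - (f y - f x) / (y - x) := by
  set g : ℝ → ℝ := fun t => f t - lo / 2 * t ^ 2 with hg
  have hgd : ∀ t ∈ Set.Icc p q, HasDerivAt g (f' t - lo * t) t := by
    intro t ht
    have := (h1 t ht).sub ((hasDerivAt_pow 2 t).const_mul (lo / 2))
    refine this.congr_deriv ?_
    norm_num
    ring
  obtain ⟨c, hc, hce⟩ := exists_hasDerivAt_eq_slope g (fun t => f' t - lo * t) hxy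
    (fun t ht => (hgd t ⟨by linarith [ht.1], by linarith [ht.2]⟩).continuousAt.continuousWithinAt)
    (fun t ht => hgd t ⟨by linarith [ht.1], by linarith [ht.2]⟩)
  obtain ⟨d, hd, hde⟩ := exists_hasDerivAt_eq_slope g (fun t => f' t - lo * t) hyz
    (fun t ht => (hgd t ⟨by linarith [ht.1], by linarith [ht.2]⟩).continuousAt.continuousWithinAt)
    (fun t ht => hgd t ⟨by linarith [ht.1], by linarith [ht.2]⟩)
  have hcd : c < d := by linarith [hc.2, hd.1]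
  obtain ⟨k, hk, hke⟩ := exists_hasDerivAt_eq_slope f' f'' hcd
    (fun t ht => (h2 t ⟨by linarith [ht.1, hc.1], by linarith [ht.2, hd.2]⟩).continuousAt.continuousWithinAt)
    (fun t ht => h2 t ⟨by linarith [ht.1, hc.1], by linarith [ht.2, hd.2]⟩)
  have hk1 := hlo k ⟨by linarith [hk.1, hc.1], by linarith [hk.2, hd.2]⟩
  rw [hke, le_div_iff₀ (by linarith)] at hk1
  have e1 : (g y - g x) / (y - x) = (f y - f x) / (y - x) - lo / 2 * (x + y) := by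
    rw [hg]
    have : y - x ≠ 0 := by linarith
    field_simp
    ring
  have e2 : (g z - g y) / (z - y) = (f z - f y) / (z - y) - lo / 2 * (y + z) := by
    rw [hg]
    have : z - y ≠ 0 := by linarith
    field_simp
    ring
  rw [e1] at hce
  rw [e2] at hde
  nlinarith

theorem slope_high {f f' f'' : ℝ → ℝ} {p q hi x y z : ℝ} (h1 : ∀ t ∈ Set.Icc p q, HasDerivAt f (f' t) t)
    (h2 : ∀ t ∈ Set.Icc p q, HasDerivAt f' (f'' t) t) (hhi : ∀ t ∈ Set.Icc p q, f'' t ≤ hi)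
    (hx : p ≤ x) (hxy : x < y) (hyz : y < z) (hz : z ≤ q) :
    (f z - f y) / (z - y) - (f y - f x) / (y - x) ≤ hi / 2 * (z - x) := by
  have h := slope_low (f := fun t => -f t) (f' := fun t => -f' t) (f'' := fun t => -f'' t) (lo := -hi)
    (fun t ht => (h1 t ht).neg) (fun t ht => (h2 t ht).neg) (fun t ht => neg_le_neg (hhi t ht)) hx hxy hyz hz
  have e1 : (-f z - -f y) / (z - y) - (-f y - -f x) / (y - x) =
      -((f z - f y) / (z - y) - (f y - f x) / (y - x)) := by ring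
  rw [e1] at h
  linarith

theorem three_pts {A M : ℝ} (hA : 0 < A) (hM : 10 * A ≤ M) (hM1 : 1 ≤ M) {u₀ u₁ u₂ v₀ v₁ v₂ : ℕ}
    (h0 : M < u₀) (h1 : u₀ < u₁) (h2 : u₁ < u₂) (h3 : (u₂ : ℝ) ≤ 2 * M)
    (k0 : |(v₀ : ℝ) - (u₀ : ℝ) ^ (5 / 3 : ℝ)| ≤ A * M ^ (-(4 / 3) : ℝ))
    (k1 : |(v₁ : ℝ) - (u₁ : ℝ) ^ (5 / 3 : ℝ)| ≤ A * M ^ (-(4 / 3) : ℝ))
    (k2 : |(v₂ : ℝ) - (u₂ : ℝ) ^ (5 / 3 : ℝ)| ≤ A * M ^ (-(4 / 3) : ℝ)) :
    M ^ (1 / 9 : ℝ) ≤ (u₂ : ℝ) - u₀ := by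
  have hM0 : 0 < M := by linarith
  have h1' : (u₀ : ℝ) + 1 ≤ u₁ := by exact_mod_cast h1
  have h2' : (u₁ : ℝ) + 1 ≤ u₂ := by exact_mod_cast h2
  set f : ℝ → ℝ := fun t => t ^ (5 / 3 : ℝ) with hf
  have d1 : ∀ t ∈ Set.Icc M (2 * M), HasDerivAt f (5 / 3 * t ^ (2 / 3 : ℝ)) t := by
    intro t ht
    have := Real.hasDerivAt_rpow_const (x := t) (p := 5 / 3) (Or.inl (by linarith [ht.1] : t ≠ 0))
    refine this.congr_deriv ?_
    norm_num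
  have d2 : ∀ t ∈ Set.Icc M (2 * M), HasDerivAt (fun t : ℝ => 5 / 3 * t ^ (2 / 3 : ℝ))
      (10 / 9 * t ^ (-(1 / 3) : ℝ)) t := by
    intro t ht
    have := (Real.hasDerivAt_rpow_const (x := t) (p := 2 / 3) (Or.inl (by linarith [ht.1] : t ≠ 0))).const_mul (5 / 3)
    refine this.congr_deriv ?_
    rw [← mul_assoc]
    norm_num
  set m : ℝ := M ^ (-(1 / 3) : ℝ) with hm
  have hm0 : 0 < m := by positivity
  have b2 : ∀ t ∈ Set.Icc M (2 * M), 10 / 9 * t ^ (-(1 / 3) : ℝ) ≤ 10 / 9 * m := by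
    intro t ht
    exact mul_le_mul_of_nonneg_left (Real.rpow_le_rpow_of_nonpos hM0 ht.1 (by norm_num)) (by norm_num)
  have b1 : ∀ t ∈ Set.Icc M (2 * M), 5 / 6 * m ≤ 10 / 9 * t ^ (-(1 / 3) : ℝ) := by
    intro t ht
    have c1 : (2 * M) ^ (-(1 / 3) : ℝ) ≤ t ^ (-(1 / 3) : ℝ) :=
      Real.rpow_le_rpow_of_nonpos (by linarith [ht.1]) ht.2 (by norm_num)
    rw [Real.mul_rpow (by norm_num) hM0.le] at c1
    have c2 : (3 / 4 : ℝ) ≤ 2 ^ (-(1 / 3) : ℝ) := by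
      have c3 : ((3 / 4 : ℝ) ^ 3) ^ (1 / 3 : ℝ) ≤ (1 / 2 : ℝ) ^ (1 / 3 : ℝ) :=
        Real.rpow_le_rpow (by norm_num) (by norm_num) (by norm_num)
      rw [← Real.rpow_natCast, ← Real.rpow_mul (by norm_num)] at c3
      have c4 : (1 / 2 : ℝ) ^ (1 / 3 : ℝ) = 2 ^ (-(1 / 3) : ℝ) := by
        rw [Real.rpow_neg (by norm_num), one_div, Real.inv_rpow (by norm_num)]
      rw [c4] at c3
      norm_num at c3 ⊢
      exact c3
    have c5 := mul_le_mul_of_nonneg_right c2 hm0.le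
    linarith
  have s1 := slope_low (lo := 5 / 6 * m) (x := (u₀ : ℝ)) (y := u₁) (z := u₂) d1 d2 b1 h0.le (by linarith) (by linarith) h3
  have s2 := slope_high (hi := 10 / 9 * m) (x := (u₀ : ℝ)) (y := u₁) (z := u₂) d1 d2 b2 h0.le (by linarith) (by linarith) h3
  set δ : ℝ := A * M ^ (-(4 / 3) : ℝ) with hδ
  have hδ1 : 4 * δ ≤ 2 / 5 * m := by
    have e1 : M ^ (-(4 / 3) : ℝ) = m / M := by
      rw [hm, ← Real.rpow_sub_one hM0.ne']; norm_num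
    rw [hδ, e1, ← mul_div_assoc, ← mul_div_assoc, div_le_iff₀ hM0]
    nlinarith
  have hδ0 : 0 ≤ δ := by positivity
  -- slopes of the integers
  have t1 : |((v₁ : ℝ) - v₀) / ((u₁ : ℝ) - u₀) - (f u₁ - f u₀) / ((u₁ : ℝ) - u₀)| ≤ 2 * δ := by
    rw [← sub_div, abs_div, abs_of_pos (show (0 : ℝ) < u₁ - u₀ by linarith), div_le_iff₀ (by linarith)]
    have : |(v₁ : ℝ) - v₀ - (f u₁ - f u₀)| ≤ 2 * δ := by
      have := abs_sub ((v₁ : ℝ) - f u₁) ((v₀ : ℝ) - f u₀)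
      rw [show (v₁ : ℝ) - v₀ - (f u₁ - f u₀) = (v₁ - f u₁) - (v₀ - f u₀) by ring]
      linarith
    nlinarith
  have t2 : |((v₂ : ℝ) - v₁) / ((u₂ : ℝ) - u₁) - (f u₂ - f u₁) / ((u₂ : ℝ) - u₁)| ≤ 2 * δ := by
    rw [← sub_div, abs_div, abs_of_pos (show (0 : ℝ) < u₂ - u₁ by linarith), div_le_iff₀ (by linarith)]
    have : |(v₂ : ℝ) - v₁ - (f u₂ - f u₁)| ≤ 2 * δ := by
      have := abs_sub ((v₂ : ℝ) - f u₂) ((v₁ : ℝ) - f u₁)
      rw [show (v₂ : ℝ) - v₁ - (f u₂ - f u₁) = (v₂ - f u₂) - (v₁ - f u₁) by ring]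
      linarith
    nlinarith
  rw [abs_le] at t1 t2
  set D : ℝ := ((v₂ : ℝ) - v₁) / ((u₂ : ℝ) - u₁) - ((v₁ : ℝ) - v₀) / ((u₁ : ℝ) - u₀) with hD
  set l : ℝ := (u₂ : ℝ) - u₀ with hl
  have hl2 : 2 ≤ l := by rw [hl]; linarith
  have D1 : 0 < D := by
    have : 5 / 6 * m / 2 * l ≥ 5 / 6 * m := by nlinarith
    linarith [t1.1, t1.2, t2.1, t2.2]
  have D2 : D ≤ m * l := by
    have : m * 2 ≤ m * l := mul_le_mul_of_nonneg_left hl2 hm0.le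
    linarith [t1.1, t1.2, t2.1, t2.2]
  have D3 : 1 / l ^ 2 ≤ D := by
    have e1 : D = ((((v₂ : ℤ) - v₁) * ((u₁ : ℤ) - u₀) - ((v₁ : ℤ) - v₀) * ((u₂ : ℤ) - u₁) : ℤ) : ℝ) /
        (((u₂ : ℝ) - u₁) * ((u₁ : ℝ) - u₀)) := by
      rw [hD]
      have g1 : (u₂ : ℝ) - u₁ ≠ 0 := by linarith
      have g2 : (u₁ : ℝ) - u₀ ≠ 0 := by linarith
      push_cast
      field_simp
    have g3 : 0 < ((u₂ : ℝ) - u₁) * ((u₁ : ℝ) - u₀) := mul_pos (by linarith) (by linarith)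
    rw [e1, lt_div_iff₀ g3, zero_mul] at D1
    have g4 : (1 : ℤ) ≤ (((v₂ : ℤ) - v₁) * ((u₁ : ℤ) - u₀) - ((v₁ : ℤ) - v₀) * ((u₂ : ℤ) - u₁) : ℤ) := by
      have : (0 : ℤ) < (((v₂ : ℤ) - v₁) * ((u₁ : ℤ) - u₀) - ((v₁ : ℤ) - v₀) * ((u₂ : ℤ) - u₁) : ℤ) := by
        exact_mod_cast D1
      omega
    have g5 : (1 : ℝ) ≤ ((((v₂ : ℤ) - v₁) * ((u₁ : ℤ) - u₀) - ((v₁ : ℤ) - v₀) * ((u₂ : ℤ) - u₁) : ℤ) : ℝ) := by
      exact_mod_cast g4
    rw [e1]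
    refine div_le_div₀ (by linarith) g5 g3 ?_
    rw [hl]
    nlinarith
  have D4 : 1 ≤ m * l ^ 3 := by
    have h5 := D3.trans D2
    rw [div_le_iff₀ (by positivity)] at h5
    calc (1 : ℝ) ≤ m * l * l ^ 2 := h5
      _ = m * l ^ 3 := by ring
  have D5 : M ^ (1 / 3 : ℝ) ≤ l ^ 3 := by
    have e2 : m * M ^ (1 / 3 : ℝ) = 1 := by
      rw [hm, ← Real.rpow_add hM0]; norm_num
    have h6 := mul_le_mul_of_nonneg_right D4 (show 0 ≤ M ^ (1 / 3 : ℝ) by positivity)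
    have e3 : m * l ^ 3 * M ^ (1 / 3 : ℝ) = l ^ 3 := by
      calc m * l ^ 3 * M ^ (1 / 3 : ℝ) = (m * M ^ (1 / 3 : ℝ)) * l ^ 3 := by ring
        _ = l ^ 3 := by rw [e2, one_mul]
    rw [e3, one_mul] at h6
    exact h6
  calc M ^ (1 / 9 : ℝ) = (M ^ (1 / 3 : ℝ)) ^ (1 / 3 : ℝ) := by
        rw [← Real.rpow_mul hM0.le]; norm_num
    _ ≤ (l ^ 3) ^ (1 / 3 : ℝ) := Real.rpow_le_rpow (by positivity) D5 (by norm_num)
    _ = l := by
        rw [← Real.rpow_natCast, ← Real.rpow_mul (by linarith)]; norm_num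

open Classical in
theorem near_cube {A θ : ℝ} (hA : 0 < A) (hθ : θ < 4 / 5) : ∃ C : ℝ, 0 < C ∧ ∀ U : ℕ, 1 ≤ U →
    (((range (U + 1)).filter (fun u : ℕ => ∃ v : ℕ, v ^ 3 ≠ u ^ 5 ∧
      |(v : ℝ) ^ 3 - (u : ℝ) ^ 5| ≤ A * (u : ℝ) ^ (5 / 2 * θ))).card : ℝ) ≤ C * (U : ℝ) ^ (8 / 9 : ℝ) := by
  refine ⟨5 * 4 + 2 * (⌈10 * A⌉₊ : ℕ) + 4, by positivity, dyadic (by norm_num) (by norm_num) fun M hM hM1 => ?_⟩
  have hM1' : (1 : ℝ) ≤ M := by exact_mod_cast hM1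
  have hM0 : (0 : ℝ) < M := by linarith
  have hMA : 10 * A ≤ M := (Nat.le_ceil _).trans (by exact_mod_cast hM)
  have key := card_of_span (k := 2) (M := M) (L := (M : ℝ) ^ (1 / 9 : ℝ)) (by positivity)
    ((Ioc M (2 * M)).filter (fun u : ℕ => ∃ v : ℕ, v ^ 3 ≠ u ^ 5 ∧
      |(v : ℝ) ^ 3 - (u : ℝ) ^ 5| ≤ A * (u : ℝ) ^ (5 / 2 * θ))) (Finset.filter_subset _ _) ?_
  · refine key.trans ?_
    have e1 : (M : ℝ) / (M : ℝ) ^ (1 / 9 : ℝ) = (M : ℝ) ^ (8 / 9 : ℝ) := by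
      rw [div_eq_iff (by positivity), ← Real.rpow_add hM0]; norm_num
    have e2 : 1 ≤ (M : ℝ) ^ (8 / 9 : ℝ) := Real.one_le_rpow hM1' (by norm_num)
    rw [e1]
    push_cast
    linarith
  · intro u hu hS
    have hk : ∀ i, ∃ v : ℕ, |(v : ℝ) - (u i : ℝ) ^ (5 / 3 : ℝ)| ≤ A * (M : ℝ) ^ (-(4 / 3) : ℝ) := by
      intro i
      have h1 := hS i
      rw [Finset.mem_filter, Finset.mem_Ioc] at h1
      obtain ⟨⟨h2, h3⟩, v, _, h4⟩ := h1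
      refine ⟨v, ?_⟩
      have h2' : (M : ℝ) ≤ u i := by exact_mod_cast h2.le
      have hu0 : (0 : ℝ) < u i := by linarith
      have hu1 : (1 : ℝ) ≤ u i := by linarith
      set w : ℝ := (u i : ℝ) ^ (5 / 3 : ℝ) with hw
      have hw0 : 0 < w := by positivity
      have hw3 : w ^ 3 = (u i : ℝ) ^ 5 := by
        rw [hw, ← Real.rpow_natCast, ← Real.rpow_mul hu0.le, ← Real.rpow_natCast]; norm_num
      have hw2 : w ^ 2 = (u i : ℝ) ^ (10 / 3 : ℝ) := by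
        rw [hw, ← Real.rpow_natCast, ← Real.rpow_mul hu0.le]; norm_num
      have h5 : |(v : ℝ) - w| * w ^ 2 ≤ |(v : ℝ) ^ 3 - (u i : ℝ) ^ 5| := by
        rw [← hw3, show (v : ℝ) ^ 3 - w ^ 3 = (v - w) * (v ^ 2 + v * w + w ^ 2) by ring, abs_mul]
        refine mul_le_mul_of_nonneg_left ?_ (abs_nonneg _)
        rw [abs_of_nonneg (by positivity)]
        have : (0 : ℝ) ≤ v * w := by positivity
        nlinarith [sq_nonneg (v : ℝ)]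
      have h6 : (u i : ℝ) ^ (5 / 2 * θ) ≤ (u i : ℝ) ^ (2 : ℝ) :=
        Real.rpow_le_rpow_of_exponent_le hu1 (by linarith)
      have h7 : |(v : ℝ) - w| * w ^ 2 ≤ A * (u i : ℝ) ^ (2 : ℝ) :=
        h5.trans (h4.trans (mul_le_mul_of_nonneg_left h6 hA.le))
      have h8 : |(v : ℝ) - w| ≤ A * (u i : ℝ) ^ (-(4 / 3) : ℝ) := by
        rw [hw2] at h7
        have e1 : A * (u i : ℝ) ^ (2 : ℝ) = A * (u i : ℝ) ^ (-(4 / 3) : ℝ) * (u i : ℝ) ^ (10 / 3 : ℝ) := by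
          rw [mul_assoc, ← Real.rpow_add hu0]; norm_num
        rw [e1] at h7
        exact le_of_mul_le_mul_right h7 (by positivity)
      exact h8.trans (mul_le_mul_of_nonneg_left (Real.rpow_le_rpow_of_nonpos hM0 h2' (by norm_num)) hA.le)
    choose v hv using hk
    have hm := fun i => Finset.mem_Ioc.1 (Finset.mem_filter.1 (hS i)).1
    have c0 : (M : ℝ) < u 0 := by exact_mod_cast (hm 0).1
    have c2 : ((u 2 : ℕ) : ℝ) ≤ 2 * M := by exact_mod_cast (hm 2).2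
    exact three_pts hA hMA hM1' c0 (hu (by decide : (0 : Fin 3) < 1)) (hu (by decide : (1 : Fin 3) < 2)) c2
      (hv 0) (hv 1) (hv 2)

end Pool.Agent.PG3
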