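import Pool.Agent.PGap.PP

/-! The number of the perfect powers which are neither squares nor cubes: an exponent as close to `1 / 5` as desired. -/

open Finset Real

namespace Pool.Agent.PG3

theorem OthS_bound' {e : ℝ} (he : 1 / 5 < e) : ∃ C : ℝ, 0 < C ∧ ∀ X : ℕ, 1 ≤ X →
    ((Pool.Agent.PGap.OthS X).card : ℝ) ≤ C * (X : ℝ) ^ e := by
  set δ : ℝ := e - 1 / 5 with hδ
  have hδ0 : 0 < δ := by rw [hδ]; linarith
  refine ⟨2 * (2 / δ + 1), by positivity, fun X hX => ?_⟩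
  have hX0 : (1 : ℝ) ≤ X := by exact_mod_cast hX
  have hX1 : (0 : ℝ) < X := by linarith
  set r : ℕ := ⌊(X : ℝ) ^ (1 / 5 : ℝ)⌋₊ + 1 with hr
  have h1 : X < r ^ 5 := by
    have h2 : (X : ℝ) ^ (1 / 5 : ℝ) < r := by rw [hr]; push_cast; exact Nat.lt_floor_add_one _
    have h3 : ((X : ℝ) ^ (1 / 5 : ℝ)) ^ 5 < (r : ℝ) ^ 5 := pow_lt_pow_left₀ h2 (by positivity) (by norm_num)
    rw [← Real.rpow_natCast, ← Real.rpow_mul (by linarith)] at h3
    norm_num at h3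
    exact_mod_cast h3
  have h2 := Pool.Agent.PGap.OthS_card X r h1
  have h3 : ((Pool.Agent.PGap.OthS X).card : ℝ) ≤ r * (Nat.log 2 X + 1) := by exact_mod_cast h2
  have h4 : (r : ℝ) ≤ 2 * (X : ℝ) ^ (1 / 5 : ℝ) := by
    rw [hr]; push_cast
    have := Nat.floor_le (show 0 ≤ (X : ℝ) ^ (1 / 5 : ℝ) by positivity)
    have : 1 ≤ (X : ℝ) ^ (1 / 5 : ℝ) := Real.one_le_rpow hX0 (by norm_num)
    linarith
  have h5 : (Nat.log 2 X : ℝ) + 1 ≤ (2 / δ + 1) * (X : ℝ) ^ δ := by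
    have h6 : (Nat.log 2 X : ℝ) ≤ Real.log X / Real.log 2 := by
      have := Real.natLog_le_logb X 2
      rwa [Real.logb] at this
    have h7 : Real.log X ≤ (X : ℝ) ^ δ / δ := Real.log_le_rpow_div (by linarith) hδ0
    have h8 : 0.5 < Real.log 2 := by have := Real.log_two_gt_d9; linarith
    have h9 : Real.log X / Real.log 2 ≤ ((X : ℝ) ^ δ / δ) / 0.5 :=
      div_le_div₀ (by positivity) h7 (by norm_num) h8.le
    have h10 : 1 ≤ (X : ℝ) ^ δ := Real.one_le_rpow hX0 hδ0.le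
    have h11 : ((X : ℝ) ^ δ / δ) / 0.5 = 2 / δ * (X : ℝ) ^ δ := by
      field_simp
      norm_num
    rw [h11] at h9
    linarith
  calc ((Pool.Agent.PGap.OthS X).card : ℝ) ≤ r * (Nat.log 2 X + 1) := h3
    _ ≤ (2 * (X : ℝ) ^ (1 / 5 : ℝ)) * ((2 / δ + 1) * (X : ℝ) ^ δ) :=
        mul_le_mul h4 h5 (by positivity) (by positivity)
    _ = 2 * (2 / δ + 1) * ((X : ℝ) ^ (1 / 5 : ℝ) * (X : ℝ) ^ δ) := by ring
    _ = _ := by
        rw [← Real.rpow_add hX1, hδ]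
        congr 2
        ring

end Pool.Agent.PG3
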