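import Pool.Agent.PG3.NearDef
import Pool.Agent.PG3.NearCube
import Pool.Agent.PG3.Oth

/-! The number of the powers with exponent at least five which are close to another power. -/

open Finset Real

namespace Pool.Agent.PG3

open Pool.Agent.PGap

open Classical in
/-- Powers with exponent at least six. -/
noncomputable def H6 (X : ℕ) : Finset ℕ :=
  (range (X + 1)).filter (fun x => ∃ m k : ℕ, 2 ≤ m ∧ 6 ≤ k ∧ m ^ k = x)

theorem H6_card (X r : ℕ) (hr : X < r ^ 6) : (H6 X).card ≤ r * (Nat.log 2 X + 1) := by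
  classical
  have hsub : H6 X ⊆ ((range r) ×ˢ (range (Nat.log 2 X + 1))).image (fun p => p.1 ^ p.2) := by
    intro x hx
    unfold H6 at hx
    rw [Finset.mem_filter, Finset.mem_range] at hx
    obtain ⟨hx1, m, k, hm, hk, hmk⟩ := hx
    have hX : m ^ k ≤ X := by omega
    rw [Finset.mem_image]
    refine ⟨(m, k), ?_, hmk⟩
    rw [Finset.mem_product, Finset.mem_range, Finset.mem_range]
    constructor
    · by_contra hle
      push Not at hle
      have : r ^ 6 ≤ m ^ k := (Nat.pow_le_pow_left hle 6).trans (Nat.pow_le_pow_right (by omega) hk)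
      omega
    · have h1 : 2 ^ k ≤ X := (Nat.pow_le_pow_left hm k).trans hX
      have h2 : X ≠ 0 := by
        have : 0 < 2 ^ k := by positivity
        omega
      have := (Nat.le_log_iff_pow_le (by norm_num) h2).2 h1
      simp only
      omega
  calc (H6 X).card ≤ (((range r) ×ˢ (range (Nat.log 2 X + 1))).image (fun p => p.1 ^ p.2)).card :=
        Finset.card_le_card hsub
    _ ≤ ((range r) ×ˢ (range (Nat.log 2 X + 1))).card := Finset.card_image_le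
    _ = r * (Nat.log 2 X + 1) := by rw [Finset.card_product, Finset.card_range, Finset.card_range]

theorem H6_bound {e : ℝ} (he : 1 / 6 < e) : ∃ C : ℝ, 0 < C ∧ ∀ X : ℕ, 1 ≤ X →
    ((H6 X).card : ℝ) ≤ C * (X : ℝ) ^ e := by
  set δ : ℝ := e - 1 / 6 with hδ
  have hδ0 : 0 < δ := by rw [hδ]; linarith
  refine ⟨2 * (2 / δ + 1), by positivity, fun X hX => ?_⟩
  have hX0 : (1 : ℝ) ≤ X := by exact_mod_cast hX
  have hX1 : (0 : ℝ) < X := by linarith
  set r : ℕ := ⌊(X : ℝ) ^ (1 / 6 : ℝ)⌋₊ + 1 with hr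
  have h1 : X < r ^ 6 := by
    have h2 : (X : ℝ) ^ (1 / 6 : ℝ) < r := by rw [hr]; push_cast; exact Nat.lt_floor_add_one _
    have h3 : ((X : ℝ) ^ (1 / 6 : ℝ)) ^ 6 < (r : ℝ) ^ 6 := pow_lt_pow_left₀ h2 (by positivity) (by norm_num)
    rw [← Real.rpow_natCast, ← Real.rpow_mul (by linarith)] at h3
    norm_num at h3
    exact_mod_cast h3
  have h2 := H6_card X r h1
  have h3 : ((H6 X).card : ℝ) ≤ r * (Nat.log 2 X + 1) := by exact_mod_cast h2
  have h4 : (r : ℝ) ≤ 2 * (X : ℝ) ^ (1 / 6 : ℝ) := by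
    rw [hr]; push_cast
    have := Nat.floor_le (show 0 ≤ (X : ℝ) ^ (1 / 6 : ℝ) by positivity)
    have : 1 ≤ (X : ℝ) ^ (1 / 6 : ℝ) := Real.one_le_rpow hX0 (by norm_num)
    linarith
  have h5 : (Nat.log 2 X : ℝ) + 1 ≤ (2 / δ + 1) * (X : ℝ) ^ δ := by
    have h6 : (Nat.log 2 X : ℝ) ≤ Real.log X / Real.log 2 := by
      have := Real.natLog_le_logb X 2
      rwa [Real.logb] at this
    have h7 : Real.log X ≤ (X : ℝ) ^ δ / δ := Real.log_le_rpow_div (by linarith) hδ0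
    have h8 : 0.5 < Real.log 2 := by have := Real.log_two_gt_d9; linarith
    have h9 : Real.log X / Real.log 2 ≤ ((X : ℝ) ^ δ / δ) / 0.5 :=
      div_le_div₀ (by positivity) h7 (by norm_num) h8.le
    have h10 : 1 ≤ (X : ℝ) ^ δ := Real.one_le_rpow hX0 hδ0.le
    have h11 : ((X : ℝ) ^ δ / δ) / 0.5 = 2 / δ * (X : ℝ) ^ δ := by
      field_simp
      norm_num
    rw [h11] at h9
    linarith
  calc ((H6 X).card : ℝ) ≤ r * (Nat.log 2 X + 1) := h3
    _ ≤ (2 * (X : ℝ) ^ (1 / 6 : ℝ)) * ((2 / δ + 1) * (X : ℝ) ^ δ) :=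
        mul_le_mul h4 h5 (by positivity) (by positivity)
    _ = 2 * (2 / δ + 1) * ((X : ℝ) ^ (1 / 6 : ℝ) * (X : ℝ) ^ δ) := by ring
    _ = _ := by
        rw [← Real.rpow_add hX1, hδ]
        congr 2
        ring

theorem fifth_gap {u w : ℕ} (h : u < w) : w ^ 4 ≤ w ^ 5 - u ^ 5 := by
  have h1 : u ^ 5 ≤ w ^ 4 * (w - 1) := by
    calc u ^ 5 = u ^ 4 * u := by ring
      _ ≤ w ^ 4 * (w - 1) := Nat.mul_le_mul (Nat.pow_le_pow_left h.le 4) (by omega)
  have h2 : w ^ 4 * (w - 1) + w ^ 4 = w ^ 5 := by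
    obtain ⟨k, rfl⟩ : ∃ k, w = k + 1 := ⟨w - 1, by omega⟩
    rw [Nat.add_sub_cancel]; ring
  omega

/-- Fifth powers are far apart. -/
theorem fifth_far {A : ℝ} {u w s : ℕ} (h : u < w) (h1 : |(s : ℝ) - (u : ℝ) ^ 5| ≤ A * (u : ℝ) ^ 2)
    (h2 : |(s : ℝ) - (w : ℝ) ^ 5| ≤ A * (w : ℝ) ^ 2) (hA : 0 < A) : (w : ℝ) ≤ 2 * A := by
  have h3 : (w : ℝ) ^ 4 + (u : ℝ) ^ 5 ≤ (w : ℝ) ^ 5 := by
    have h4 := fifth_gap h
    have h5 : u ^ 5 < w ^ 5 := Nat.pow_lt_pow_left h (by norm_num)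
    have h6 : w ^ 4 + u ^ 5 ≤ w ^ 5 := by omega
    exact_mod_cast h6
  have hw1 : (1 : ℝ) ≤ w := by
    have : 1 ≤ w := by omega
    exact_mod_cast this
  have huw : (u : ℝ) ≤ w := by exact_mod_cast h.le
  have h4 : (u : ℝ) ^ 2 ≤ (w : ℝ) ^ 2 := pow_le_pow_left₀ (Nat.cast_nonneg _) huw 2
  have h5 : (w : ℝ) ^ 4 ≤ 2 * A * (w : ℝ) ^ 2 := by
    rw [abs_le] at h1 h2
    have := mul_le_mul_of_nonneg_left h4 hA.le
    linarith [h1.1, h1.2, h2.1, h2.2]
  have h6 : (w : ℝ) ^ 2 ≤ 2 * A := by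
    have : (w : ℝ) ^ 2 * (w : ℝ) ^ 2 ≤ 2 * A * (w : ℝ) ^ 2 := by
      calc (w : ℝ) ^ 2 * (w : ℝ) ^ 2 = (w : ℝ) ^ 4 := by ring
        _ ≤ _ := h5
    exact le_of_mul_le_mul_right this (by positivity)
  nlinarith

open Classical in
/-- The fifth powers near a given kind of power. -/
noncomputable def nrU (A θ : ℝ) (k U : ℕ) : Finset ℕ :=
  (range (U + 1)).filter (fun u : ℕ => ∃ v : ℕ, v ^ k ≠ u ^ 5 ∧
      |(v : ℝ) ^ k - (u : ℝ) ^ 5| ≤ A * (u : ℝ) ^ (5 / 2 * θ))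

theorem NearO_card {A θ : ℝ} (hA : 0 < A) (hθ : θ < 4 / 5) (X U : ℕ) (hU : ∀ u : ℕ, u ^ 5 ≤ X → u ≤ U) :
    (NearO A θ X).card ≤ (H6 X).card + ((nrU A θ 2 U).card + ((nrU A θ 3 U).card +
      ((⌈2 * A⌉₊ + 1) + (H6 ((⌈A⌉₊ + 1) * X)).card))) := by
  classical
  set R : Finset ℕ := (range (U + 1)).filter (fun u => ⌈2 * A⌉₊ < u ∧ ∃ s, s ∈ H6 ((⌈A⌉₊ + 1) * X) ∧
    |(s : ℝ) - (u : ℝ) ^ 5| ≤ A * (u : ℝ) ^ 2) with hR
  have hsub : NearO A θ X ⊆ H6 X ∪ ((nrU A θ 2 U).image (fun u => u ^ 5) ∪ ((nrU A θ 3 U).image (fun u => u ^ 5) ∪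
      ((range (⌈2 * A⌉₊ + 1)).image (fun u => u ^ 5) ∪ R.image (fun u => u ^ 5)))) := by
    intro t ht
    unfold NearO OthS at ht
    rw [Finset.mem_filter, Finset.mem_filter, Finset.mem_range] at ht
    obtain ⟨⟨htX, hto⟩, s, hs, hst, hd⟩ := ht
    obtain ⟨m, k, hm, hk, hmk⟩ := Oth_exp hto
    simp only [Finset.mem_union]
    rcases Nat.lt_or_ge k 6 with hk6 | hk6
    swap
    · left
      unfold H6
      rw [Finset.mem_filter, Finset.mem_range]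
      exact ⟨htX, m, k, hm, hk6, hmk⟩
    right
    obtain rfl : k = 5 := by omega
    have hmU : m ≤ U := hU m (by omega)
    have hm0 : (0 : ℝ) < m := by
      have : 0 < m := by omega
      exact_mod_cast this
    have hm1 : (1 : ℝ) ≤ m := by
      have : 1 ≤ m := by omega
      exact_mod_cast this
    have ht5 : (t : ℝ) = (m : ℝ) ^ 5 := by rw [← hmk]; push_cast; ring
    have hpow : (t : ℝ) ^ (θ / 2) = (m : ℝ) ^ (5 / 2 * θ) := by
      rw [ht5, ← Real.rpow_natCast, ← Real.rpow_mul hm0.le]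
      congr 1
      push_cast
      ring
    rw [hpow, ht5] at hd
    have h2 : (m : ℝ) ^ (5 / 2 * θ) ≤ (m : ℝ) ^ 2 := by
      rw [← Real.rpow_natCast]
      exact Real.rpow_le_rpow_of_exponent_le hm1 (by push_cast; linarith)
    have hd2 : |(s : ℝ) - (m : ℝ) ^ 5| ≤ A * (m : ℝ) ^ 2 :=
      hd.trans (mul_le_mul_of_nonneg_left h2 hA.le)
    by_cases hsq : ∃ v, v ^ 2 = s
    · left
      obtain ⟨v, hv⟩ := hsq
      rw [Finset.mem_image]
      refine ⟨m, ?_, hmk⟩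
      unfold nrU
      rw [Finset.mem_filter, Finset.mem_range]
      refine ⟨by omega, v, by rw [hv, hmk]; exact hst, ?_⟩
      rw [← hv] at hd
      push_cast at hd
      exact hd
    by_cases hcu : ∃ v, v ^ 3 = s
    · right; left
      obtain ⟨v, hv⟩ := hcu
      rw [Finset.mem_image]
      refine ⟨m, ?_, hmk⟩
      unfold nrU
      rw [Finset.mem_filter, Finset.mem_range]
      refine ⟨by omega, v, by rw [hv, hmk]; exact hst, ?_⟩
      rw [← hv] at hd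
      push_cast at hd
      exact hd
    right; right
    by_cases hmA : m < ⌈2 * A⌉₊ + 1
    · left
      rw [Finset.mem_image]
      exact ⟨m, Finset.mem_range.2 hmA, hmk⟩
    right
    rw [Finset.mem_image]
    refine ⟨m, ?_, hmk⟩
    obtain ⟨w, l, hw, hl, hwl⟩ := Oth_exp ⟨hs, hsq, hcu⟩
    have hlt : ⌈2 * A⌉₊ < m := by omega
    have hmA2 : 2 * A < m := lt_of_le_of_lt (Nat.le_ceil _) (by exact_mod_cast hlt)
    rcases Nat.lt_or_ge l 6 with hl6 | hl6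
    · exfalso
      obtain rfl : l = 5 := by omega
      have hs5 : (s : ℝ) = (w : ℝ) ^ 5 := by rw [← hwl]; push_cast; ring
      have hwm : w ≠ m := by
        rintro rfl
        exact hst (by rw [← hwl, ← hmk])
      have hself : ∀ z : ℕ, |((w ^ 5 : ℕ) : ℝ) - (w : ℝ) ^ 5| ≤ A * (z : ℝ) ^ 2 := by
        intro z
        push_cast
        rw [sub_self, abs_zero]
        positivity
      rcases lt_or_gt_of_ne hwm with h | h
      · have := fifth_far (A := A) (s := s) h (by rw [← hwl]; exact hself w) hd2 hA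
        linarith
      · have := fifth_far (A := A) (s := s) h hd2 (by rw [← hwl]; exact hself w) hA
        have h' : (m : ℝ) ≤ w := by exact_mod_cast h.le
        linarith
    · rw [hR, Finset.mem_filter, Finset.mem_range]
      refine ⟨by omega, hlt, s, ?_, hd2⟩
      unfold H6
      rw [Finset.mem_filter, Finset.mem_range]
      refine ⟨?_, w, l, hw, hl6, hwl⟩
      have h5 : (s : ℝ) ≤ (⌈A⌉₊ + 1) * (t : ℝ) := by
        have h6 := (abs_le.1 hd2).2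
        have h7 : (m : ℝ) ^ 2 ≤ (m : ℝ) ^ 5 := pow_le_pow_right₀ hm1 (by norm_num)
        have h8 := Nat.le_ceil A
        have h9 : A * (m : ℝ) ^ 2 ≤ ⌈A⌉₊ * (m : ℝ) ^ 5 := mul_le_mul h8 h7 (by positivity) (by positivity)
        rw [ht5]
        linarith
      have h6 : s ≤ (⌈A⌉₊ + 1) * t := by exact_mod_cast h5
      have h7 : (⌈A⌉₊ + 1) * t ≤ (⌈A⌉₊ + 1) * X := Nat.mul_le_mul_left _ (by omega)
      omega
  have hRc : R.card ≤ (H6 ((⌈A⌉₊ + 1) * X)).card := by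
    have hch : ∀ u ∈ R, ∃ s, s ∈ H6 ((⌈A⌉₊ + 1) * X) ∧ |(s : ℝ) - (u : ℝ) ^ 5| ≤ A * (u : ℝ) ^ 2 := by
      intro u hu
      rw [hR, Finset.mem_filter] at hu
      exact hu.2.2
    choose! g hg using hch
    have hbig : ∀ u ∈ R, 2 * A < u := by
      intro u hu
      rw [hR, Finset.mem_filter] at hu
      exact lt_of_le_of_lt (Nat.le_ceil _) (by exact_mod_cast hu.2.1)
    refine Finset.card_le_card_of_injOn g (fun u hu => (hg u hu).1) ?_
    intro u hu w hw h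
    by_contra hne
    rcases lt_or_gt_of_ne hne with h1 | h1
    · have := fifth_far h1 (hg u hu).2 (by rw [h]; exact (hg w hw).2) hA
      linarith [hbig w hw]
    · have := fifth_far h1 (hg w hw).2 (by rw [← h]; exact (hg u hu).2) hA
      linarith [hbig u hu]
  refine (Finset.card_le_card hsub).trans ?_
  refine (Finset.card_union_le _ _).trans (add_le_add le_rfl ?_)
  refine (Finset.card_union_le _ _).trans (add_le_add Finset.card_image_le ?_)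
  refine (Finset.card_union_le _ _).trans (add_le_add Finset.card_image_le ?_)
  refine (Finset.card_union_le _ _).trans (add_le_add (Finset.card_image_le.trans (by rw [Finset.card_range])) ?_)
  exact Finset.card_image_le.trans hRc

theorem NearO_bound_of {A θ e : ℝ} (hA : 0 < A) (hθ : θ < 4 / 5) (he : 11 / 60 < e)
    (hsq : ∃ C : ℝ, 0 < C ∧ ∀ U : ℕ, 1 ≤ U → ((nrU A θ 2 U).card : ℝ) ≤ C * (U : ℝ) ^ (11 / 12 : ℝ)) :
    ∃ C : ℝ, 0 < C ∧ ∀ X : ℕ, 1 ≤ X → ((NearO A θ X).card : ℝ) ≤ C * (X : ℝ) ^ e := by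
  obtain ⟨C₁, hC₁, h1⟩ := H6_bound (show 1 / 6 < e by linarith)
  obtain ⟨C₂, hC₂, h2⟩ := hsq
  obtain ⟨C₃, hC₃, h3⟩ := near_cube hA hθ
  set B : ℕ := ⌈A⌉₊ + 1 with hB
  refine ⟨C₁ + (C₂ + (C₃ + ((⌈2 * A⌉₊ + 1) + C₁ * (B : ℝ) ^ e))), by positivity, fun X hX => ?_⟩
  have hX1 : (1 : ℝ) ≤ X := by exact_mod_cast hX
  have hX0 : (0 : ℝ) < X := by linarith
  set U : ℕ := ⌊(X : ℝ) ^ (1 / 5 : ℝ)⌋₊ with hU
  have hU1 : 1 ≤ U := by
    rw [hU, Nat.one_le_floor_iff]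
    exact Real.one_le_rpow hX1 (by norm_num)
  have hUX : (U : ℝ) ≤ (X : ℝ) ^ (1 / 5 : ℝ) := Nat.floor_le (by positivity)
  have hUall : ∀ u : ℕ, u ^ 5 ≤ X → u ≤ U := by
    intro u hu
    refine Nat.le_floor ?_
    have h4 : ((u : ℝ) ^ 5) ≤ X := by exact_mod_cast hu
    calc (u : ℝ) = ((u : ℝ) ^ 5) ^ (1 / 5 : ℝ) := by
          rw [← Real.rpow_natCast, ← Real.rpow_mul (by positivity)]; norm_num
      _ ≤ _ := Real.rpow_le_rpow (by positivity) h4 (by norm_num)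
  have hc := NearO_card hA hθ X U hUall
  have hc' : ((NearO A θ X).card : ℝ) ≤ (H6 X).card + ((nrU A θ 2 U).card + ((nrU A θ 3 U).card +
      ((⌈2 * A⌉₊ + 1) + (H6 (B * X)).card))) := by exact_mod_cast hc
  have hXe : 1 ≤ (X : ℝ) ^ e := Real.one_le_rpow hX1 (by linarith)
  have k1 := h1 X hX
  have k2 : ((nrU A θ 2 U).card : ℝ) ≤ C₂ * (X : ℝ) ^ e := by
    refine (h2 U hU1).trans (mul_le_mul_of_nonneg_left ?_ hC₂.le)
    calc (U : ℝ) ^ (11 / 12 : ℝ) ≤ ((X : ℝ) ^ (1 / 5 : ℝ)) ^ (11 / 12 : ℝ) :=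
          Real.rpow_le_rpow (by positivity) hUX (by norm_num)
      _ = (X : ℝ) ^ (11 / 60 : ℝ) := by rw [← Real.rpow_mul hX0.le]; norm_num
      _ ≤ _ := Real.rpow_le_rpow_of_exponent_le hX1 he.le
  have k3 : ((nrU A θ 3 U).card : ℝ) ≤ C₃ * (X : ℝ) ^ e := by
    refine (h3 U hU1).trans (mul_le_mul_of_nonneg_left ?_ hC₃.le)
    calc (U : ℝ) ^ (8 / 9 : ℝ) ≤ ((X : ℝ) ^ (1 / 5 : ℝ)) ^ (8 / 9 : ℝ) :=
          Real.rpow_le_rpow (by positivity) hUX (by norm_num)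
      _ = (X : ℝ) ^ (8 / 45 : ℝ) := by rw [← Real.rpow_mul hX0.le]; norm_num
      _ ≤ _ := Real.rpow_le_rpow_of_exponent_le hX1 (by linarith)
  have k4 : ((⌈2 * A⌉₊ : ℝ) + 1) ≤ ((⌈2 * A⌉₊ : ℝ) + 1) * (X : ℝ) ^ e :=
    le_mul_of_one_le_right (by positivity) hXe
  have k5 : ((H6 (B * X)).card : ℝ) ≤ C₁ * (B : ℝ) ^ e * (X : ℝ) ^ e := by
    have h4 := h1 (B * X) (Nat.one_le_iff_ne_zero.2 (by positivity))
    push_cast at h4
    rw [Real.mul_rpow (by positivity) hX0.le, ← mul_assoc] at h4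
    exact h4
  calc ((NearO A θ X).card : ℝ) ≤ _ := hc'
    _ ≤ C₁ * (X : ℝ) ^ e + (C₂ * (X : ℝ) ^ e + (C₃ * (X : ℝ) ^ e +
      (((⌈2 * A⌉₊ : ℝ) + 1) * (X : ℝ) ^ e + C₁ * (B : ℝ) ^ e * (X : ℝ) ^ e))) := by linarith
    _ = _ := by ring

end Pool.Agent.PG3
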