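import Pool.Agent.PG3.Pts

/-! Fifth powers close to squares. -/

open Finset Real

namespace Pool.Agent.PG3

theorem det_id (a b c d : ℝ) :
    -a ^ 5 * ((c ^ 2 - b ^ 2) * (d ^ 2 - b ^ 2) * (d ^ 2 - c ^ 2)) +
      b ^ 5 * ((c ^ 2 - a ^ 2) * (d ^ 2 - a ^ 2) * (d ^ 2 - c ^ 2)) -
      c ^ 5 * ((b ^ 2 - a ^ 2) * (d ^ 2 - a ^ 2) * (d ^ 2 - b ^ 2)) +
      d ^ 5 * ((b ^ 2 - a ^ 2) * (c ^ 2 - a ^ 2) * (c ^ 2 - b ^ 2)) =
    ((b - a) * (c - a) * (d - a) * (c - b) * (d - b) * (d - c)) *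
      ((a * b * c + a * b * d + a * c * d + b * c * d) * (a * b + a * c + a * d + b * c + b * d + c * d) -
        a * b * c * d * (a + b + c + d)) := by
  ring

theorem S_low {a b c d r : ℝ} (hr : 0 < r) (ha : r ≤ a) (hb : r ≤ b) (hc : r ≤ c) (hd : r ≤ d) :
    r ^ 5 ≤ (a * b * c + a * b * d + a * c * d + b * c * d) * (a * b + a * c + a * d + b * c + b * d + c * d) -
        a * b * c * d * (a + b + c + d) := by
  have ha0 : 0 < a := by linarith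
  have hb0 : 0 < b := by linarith
  have hc0 : 0 < c := by linarith
  have hd0 : 0 < d := by linarith
  have h1 : r ^ 5 ≤ a ^ 2 * b ^ 2 * c := by
    calc r ^ 5 = r ^ 2 * r ^ 2 * r := by ring
      _ ≤ a ^ 2 * b ^ 2 * c := by gcongr
  have h2 : (a * b * c + a * b * d + a * c * d + b * c * d) * (a * b + a * c + a * d + b * c + b * d + c * d) -
        a * b * c * d * (a + b + c + d) = a ^ 2 * b ^ 2 * c +
        (a ^ 2 * b ^ 2 * d + a ^ 2 * c ^ 2 * b + a ^ 2 * c ^ 2 * d + a ^ 2 * d ^ 2 * b + a ^ 2 * d ^ 2 * c +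
        b ^ 2 * c ^ 2 * a + b ^ 2 * c ^ 2 * d + b ^ 2 * d ^ 2 * a + b ^ 2 * d ^ 2 * c + c ^ 2 * d ^ 2 * a +
        c ^ 2 * d ^ 2 * b + 2 * (a ^ 2 * b * c * d + b ^ 2 * a * c * d + c ^ 2 * a * b * d + d ^ 2 * a * b * c)) := by
    ring
  rw [h2]
  have h3 : 0 ≤ (a ^ 2 * b ^ 2 * d + a ^ 2 * c ^ 2 * b + a ^ 2 * c ^ 2 * d + a ^ 2 * d ^ 2 * b + a ^ 2 * d ^ 2 * c +
        b ^ 2 * c ^ 2 * a + b ^ 2 * c ^ 2 * d + b ^ 2 * d ^ 2 * a + b ^ 2 * d ^ 2 * c + c ^ 2 * d ^ 2 * a +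
        c ^ 2 * d ^ 2 * b + 2 * (a ^ 2 * b * c * d + b ^ 2 * a * c * d + c ^ 2 * a * b * d + d ^ 2 * a * b * c)) := by
    positivity
  linarith

theorem S_high {a b c d R : ℝ} (ha0 : 0 < a) (hb0 : 0 < b) (hc0 : 0 < c) (hd0 : 0 < d) (ha : a ≤ R) (hb : b ≤ R)
    (hc : c ≤ R) (hd : d ≤ R) :
    (a * b * c + a * b * d + a * c * d + b * c * d) * (a * b + a * c + a * d + b * c + b * d + c * d) -
        a * b * c * d * (a + b + c + d) ≤ 24 * R ^ 5 := by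
  have hR : 0 < R := by linarith
  have h1 : a * b * c + a * b * d + a * c * d + b * c * d ≤ R * R * R + R * R * R + R * R * R + R * R * R := by
    gcongr
  have h2 : a * b + a * c + a * d + b * c + b * d + c * d ≤ R * R + R * R + R * R + R * R + R * R + R * R := by
    gcongr
  have h3 := mul_le_mul h1 h2 (by positivity) (by positivity)
  have h4 : 0 ≤ a * b * c * d * (a + b + c + d) := by positivity
  nlinarith

theorem Pi_low {a b c d r : ℝ} (hr : 0 < r) (ha : r ≤ a) (hb : r ≤ b) (hc : r ≤ c) (hd : r ≤ d) :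
    64 * r ^ 6 ≤ (a + b) * (a + c) * (a + d) * (b + c) * (b + d) * (c + d) := by
  have ha0 : 0 < a := by linarith
  have hb0 : 0 < b := by linarith
  have hc0 : 0 < c := by linarith
  have hd0 : 0 < d := by linarith
  calc 64 * r ^ 6 = (r + r) * (r + r) * (r + r) * (r + r) * (r + r) * (r + r) := by ring
    _ ≤ _ := by gcongr

theorem Pi_high {a b c d R : ℝ} (ha0 : 0 < a) (hb0 : 0 < b) (hc0 : 0 < c) (hd0 : 0 < d) (ha : a ≤ R) (hb : b ≤ R)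
    (hc : c ≤ R) (hd : d ≤ R) :
    (a + b) * (a + c) * (a + d) * (b + c) * (b + d) * (c + d) ≤ 64 * R ^ 6 := by
  have hR : 0 < R := by linarith
  calc _ ≤ (R + R) * (R + R) * (R + R) * (R + R) * (R + R) * (R + R) := by gcongr
    _ = _ := by ring

theorem four_pts {δ M : ℝ} (hM1 : 1 ≤ M) (hδ : 4 * δ ≤ (√M)⁻¹ / 1024) {u₀ u₁ u₂ u₃ v₀ v₁ v₂ v₃ : ℕ}
    (h0 : M < u₀) (h1 : u₀ < u₁) (h2 : u₁ < u₂) (h3 : u₂ < u₃) (h4 : (u₃ : ℝ) ≤ 2 * M)
    (k0 : |(v₀ : ℝ) - √(u₀ : ℝ) ^ 5| ≤ δ) (k1 : |(v₁ : ℝ) - √(u₁ : ℝ) ^ 5| ≤ δ)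
    (k2 : |(v₂ : ℝ) - √(u₂ : ℝ) ^ 5| ≤ δ) (k3 : |(v₃ : ℝ) - √(u₃ : ℝ) ^ 5| ≤ δ) :
    M ^ (1 / 12 : ℝ) / 2 ≤ (u₃ : ℝ) - u₀ := by
  have hM0 : 0 < M := by linarith
  have h1' : (u₀ : ℝ) + 1 ≤ u₁ := by exact_mod_cast h1
  have h2' : (u₁ : ℝ) + 1 ≤ u₂ := by exact_mod_cast h2
  have h3' : (u₂ : ℝ) + 1 ≤ u₃ := by exact_mod_cast h3
  obtain ⟨r, hr⟩ : ∃ r, r = √M := ⟨_, rfl⟩
  obtain ⟨R, hR⟩ : ∃ R, R = √(2 * M) := ⟨_, rfl⟩
  obtain ⟨a, ha⟩ : ∃ a, a = √(u₀ : ℝ) := ⟨_, rfl⟩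
  obtain ⟨b, hb⟩ : ∃ b, b = √(u₁ : ℝ) := ⟨_, rfl⟩
  obtain ⟨c, hc⟩ : ∃ c, c = √(u₂ : ℝ) := ⟨_, rfl⟩
  obtain ⟨d, hd⟩ : ∃ d, d = √(u₃ : ℝ) := ⟨_, rfl⟩
  have hr0 : 0 < r := by rw [hr]; exact Real.sqrt_pos.2 hM0
  have hr2 : r ^ 2 = M := by rw [hr]; exact Real.sq_sqrt hM0.le
  have hR2 : R ^ 2 = 2 * M := by rw [hR]; exact Real.sq_sqrt (by linarith)
  have ha2 : a ^ 2 = u₀ := by rw [ha]; exact Real.sq_sqrt (Nat.cast_nonneg _)
  have hb2 : b ^ 2 = u₁ := by rw [hb]; exact Real.sq_sqrt (Nat.cast_nonneg _)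
  have hc2 : c ^ 2 = u₂ := by rw [hc]; exact Real.sq_sqrt (Nat.cast_nonneg _)
  have hd2 : d ^ 2 = u₃ := by rw [hd]; exact Real.sq_sqrt (Nat.cast_nonneg _)
  have ra : r ≤ a := by rw [hr, ha]; exact Real.sqrt_le_sqrt (by linarith)
  have rb : r ≤ b := by rw [hr, hb]; exact Real.sqrt_le_sqrt (by linarith)
  have rc : r ≤ c := by rw [hr, hc]; exact Real.sqrt_le_sqrt (by linarith)
  have rd : r ≤ d := by rw [hr, hd]; exact Real.sqrt_le_sqrt (by linarith)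
  have aR : a ≤ R := by rw [hR, ha]; exact Real.sqrt_le_sqrt (by linarith)
  have bR : b ≤ R := by rw [hR, hb]; exact Real.sqrt_le_sqrt (by linarith)
  have cR : c ≤ R := by rw [hR, hc]; exact Real.sqrt_le_sqrt (by linarith)
  have dR : d ≤ R := by rw [hR, hd]; exact Real.sqrt_le_sqrt (by linarith)
  have ha0 : 0 < a := by linarith
  have hb0 : 0 < b := by linarith
  have hc0 : 0 < c := by linarith
  have hd0 : 0 < d := by linarith
  have hR0 : 0 < R := by linarith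
  rw [← ha] at k0
  rw [← hb] at k1
  rw [← hc] at k2
  rw [← hd] at k3
  rw [← hr] at hδ
  obtain ⟨S, hS⟩ : ∃ S, S = (a * b * c + a * b * d + a * c * d + b * c * d) *
    (a * b + a * c + a * d + b * c + b * d + c * d) - a * b * c * d * (a + b + c + d) := ⟨_, rfl⟩
  obtain ⟨Q, hQ⟩ : ∃ Q, Q = (a + b) * (a + c) * (a + d) * (b + c) * (b + d) * (c + d) := ⟨_, rfl⟩
  have s1 := S_low hr0 ra rb rc rd
  have s2 := S_high ha0 hb0 hc0 hd0 aR bR cR dR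
  have p1 := Pi_low hr0 ra rb rc rd
  have p2 := Pi_high ha0 hb0 hc0 hd0 aR bR cR dR
  rw [← hS] at s1 s2
  rw [← hQ] at p1 p2
  have hR6 : R ^ 6 = 8 * r ^ 6 := by
    calc R ^ 6 = (R ^ 2) ^ 3 := by ring
      _ = 8 * (r ^ 2) ^ 3 := by rw [hR2, hr2]; ring
      _ = _ := by ring
  have hRr : R ≤ 3 / 2 * r := by
    have : R ^ 2 ≤ (3 / 2 * r) ^ 2 := by rw [hR2, mul_pow, hr2]; linarith
    exact (pow_le_pow_iff_left₀ hR0.le (by positivity) (by norm_num)).1 this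
  have hR5 : R ^ 5 ≤ 6 * r ^ 5 := by
    calc R ^ 5 = R * (R ^ 2) ^ 2 := by ring
      _ = R * (4 * (r ^ 2) ^ 2) := by rw [hR2, hr2]; ring
      _ ≤ 3 / 2 * r * (4 * (r ^ 2) ^ 2) := mul_le_mul_of_nonneg_right hRr (by positivity)
      _ = 6 * r ^ 5 := by ring
  rw [hR6] at p2
  have hQ0 : 0 < Q := lt_of_lt_of_le (by positivity) p1
  -- the determinants
  obtain ⟨x, hx⟩ : ∃ x, x = (u₁ : ℝ) - u₀ := ⟨_, rfl⟩
  obtain ⟨y, hy⟩ : ∃ y, y = (u₂ : ℝ) - u₀ := ⟨_, rfl⟩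
  obtain ⟨z, hz⟩ : ∃ z, z = (u₃ : ℝ) - u₀ := ⟨_, rfl⟩
  obtain ⟨p, hp⟩ : ∃ p, p = (u₂ : ℝ) - u₁ := ⟨_, rfl⟩
  obtain ⟨q, hq⟩ : ∃ q, q = (u₃ : ℝ) - u₁ := ⟨_, rfl⟩
  obtain ⟨t, ht⟩ : ∃ t, t = (u₃ : ℝ) - u₂ := ⟨_, rfl⟩
  have x1 : 1 ≤ x := by linarith
  have y1 : 1 ≤ y := by linarith
  have z1 : 1 ≤ z := by linarith
  have p1' : 1 ≤ p := by linarith
  have q1 : 1 ≤ q := by linarith
  have t1 : 1 ≤ t := by linarith
  have xz : x ≤ z := by linarith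
  have yz : y ≤ z := by linarith
  have pz : p ≤ z := by linarith
  have qz : q ≤ z := by linarith
  have tz : t ≤ z := by linarith
  obtain ⟨V, hV⟩ : ∃ V, V = x * y * z * p * q * t := ⟨_, rfl⟩
  have hV0 : 0 < V := by rw [hV]; positivity
  have hVz : V ≤ z ^ 6 := by
    rw [hV]
    calc x * y * z * p * q * t ≤ z * z * z * z * z * z := by gcongr
      _ = z ^ 6 := by ring
  obtain ⟨F, hF⟩ : ∃ F, F = -a ^ 5 * (p * q * t) + b ^ 5 * (y * z * t) - c ^ 5 * (x * z * q) + d ^ 5 * (x * y * p) :=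
    ⟨_, rfl⟩
  have hFV : F * Q = V * S := by
    have h5 := det_id a b c d
    rw [← hS] at h5
    have h6 : F = (b - a) * (c - a) * (d - a) * (c - b) * (d - b) * (d - c) * S := by
      rw [hF, ← h5, hx, hy, hz, hp, hq, ht, ← ha2, ← hb2, ← hc2, ← hd2]
    have h7 : V = (b - a) * (c - a) * (d - a) * (c - b) * (d - b) * (d - c) * Q := by
      rw [hV, hQ, hx, hy, hz, hp, hq, ht, ← ha2, ← hb2, ← hc2, ← hd2]
      ring
    rw [h6, h7]
    ring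
  have F1 : V / (512 * r) ≤ F := by
    rw [div_le_iff₀ (by positivity)]
    have h5 : V * r ^ 5 ≤ F * (512 * r ^ 6) := by
      have h6 : V * r ^ 5 ≤ F * Q := by rw [hFV]; exact mul_le_mul_of_nonneg_left s1 hV0.le
      have h7 : 0 ≤ F := by
        have : 0 < F * Q := lt_of_lt_of_le (by positivity) h6
        exact ((mul_pos_iff_of_pos_right hQ0).1 this).le
      refine h6.trans (mul_le_mul_of_nonneg_left ?_ h7)
      linarith
    have h8 : F * (512 * r ^ 6) = F * (512 * r) * r ^ 5 := by ring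
    rw [h8] at h5
    exact le_of_mul_le_mul_right h5 (by positivity)
  have F2 : F ≤ 3 * V / r := by
    have h7 : 0 ≤ F := le_trans (by positivity) F1
    rw [le_div_iff₀ hr0]
    have h5 : F * (64 * r ^ 6) ≤ V * (144 * r ^ 5) := by
      calc F * (64 * r ^ 6) ≤ F * Q := mul_le_mul_of_nonneg_left p1 h7
        _ = V * S := hFV
        _ ≤ V * (144 * r ^ 5) := mul_le_mul_of_nonneg_left (by linarith) hV0.le
    have h8 : F * (64 * r ^ 6) = (F * r * 64) * r ^ 5 := by ring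
    have h9 : V * (144 * r ^ 5) = (V * 144) * r ^ 5 := by ring
    rw [h8, h9] at h5
    have h10 := le_of_mul_le_mul_right h5 (by positivity)
    linarith
  obtain ⟨N, hN⟩ : ∃ N : ℤ, N = -(v₀ : ℤ) * (((u₂ : ℤ) - u₁) * ((u₃ : ℤ) - u₁) * ((u₃ : ℤ) - u₂)) +
    v₁ * (((u₂ : ℤ) - u₀) * ((u₃ : ℤ) - u₀) * ((u₃ : ℤ) - u₂)) -
    v₂ * (((u₁ : ℤ) - u₀) * ((u₃ : ℤ) - u₀) * ((u₃ : ℤ) - u₁)) +
    v₃ * (((u₁ : ℤ) - u₀) * ((u₂ : ℤ) - u₀) * ((u₂ : ℤ) - u₁)) := ⟨_, rfl⟩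
  have hNr : (N : ℝ) = -(v₀ : ℝ) * (p * q * t) + v₁ * (y * z * t) - v₂ * (x * z * q) + v₃ * (x * y * p) := by
    rw [hN, hx, hy, hz, hp, hq, ht]
    push_cast
    ring
  have w0 : p * q * t ≤ V := by
    rw [hV]
    calc p * q * t = 1 * 1 * 1 * p * q * t := by ring
      _ ≤ x * y * z * p * q * t := by gcongr
  have w1 : y * z * t ≤ V := by
    rw [hV]
    calc y * z * t = 1 * y * z * 1 * 1 * t := by ring
      _ ≤ x * y * z * p * q * t := by gcongr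
  have w2 : x * z * q ≤ V := by
    rw [hV]
    calc x * z * q = x * 1 * z * 1 * q * 1 := by ring
      _ ≤ x * y * z * p * q * t := by gcongr
  have w3 : x * y * p ≤ V := by
    rw [hV]
    calc x * y * p = x * y * 1 * p * 1 * 1 := by ring
      _ ≤ x * y * z * p * q * t := by gcongr
  have hδ0 : 0 ≤ δ := (abs_nonneg _).trans k0
  have hdiff : |(N : ℝ) - F| ≤ 4 * δ * V := by
    have e1 : (N : ℝ) - F = -((v₀ - a ^ 5) * (p * q * t)) + (v₁ - b ^ 5) * (y * z * t) -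
        (v₂ - c ^ 5) * (x * z * q) + (v₃ - d ^ 5) * (x * y * p) := by
      rw [hNr, hF]; ring
    have g0 : |(v₀ - a ^ 5) * (p * q * t)| ≤ δ * V := by
      rw [abs_mul, abs_of_nonneg (show 0 ≤ p * q * t by positivity)]
      exact mul_le_mul k0 w0 (by positivity) hδ0
    have g1 : |(v₁ - b ^ 5) * (y * z * t)| ≤ δ * V := by
      rw [abs_mul, abs_of_nonneg (show 0 ≤ y * z * t by positivity)]
      exact mul_le_mul k1 w1 (by positivity) hδ0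
    have g2 : |(v₂ - c ^ 5) * (x * z * q)| ≤ δ * V := by
      rw [abs_mul, abs_of_nonneg (show 0 ≤ x * z * q by positivity)]
      exact mul_le_mul k2 w2 (by positivity) hδ0
    have g3 : |(v₃ - d ^ 5) * (x * y * p)| ≤ δ * V := by
      rw [abs_mul, abs_of_nonneg (show 0 ≤ x * y * p by positivity)]
      exact mul_le_mul k3 w3 (by positivity) hδ0
    rw [e1]
    rw [abs_le] at g0 g1 g2 g3 ⊢
    constructor <;> linarith [g0.1, g0.2, g1.1, g1.2, g2.1, g2.2, g3.1, g3.2]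
  have hδV : 4 * δ * V ≤ V / (1024 * r) := by
    have := mul_le_mul_of_nonneg_right hδ hV0.le
    refine this.trans (le_of_eq ?_)
    field_simp
  rw [abs_le] at hdiff
  have N1 : (0 : ℝ) < N := by
    have h5 : V / (512 * r) = 2 * (V / (1024 * r)) := by field_simp; norm_num
    have h6 : 0 < V / (1024 * r) := by positivity
    linarith [hdiff.1]
  have N2 : (1 : ℝ) ≤ N := by
    have h5 : 0 < N := by exact_mod_cast N1
    exact_mod_cast h5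
  have N3 : (N : ℝ) ≤ 4 * V / r := by
    have h5 : V / (1024 * r) ≤ V / r := by
      refine div_le_div_of_nonneg_left hV0.le hr0 ?_
      linarith
    have h6 : 4 * V / r = 3 * V / r + V / r := by ring
    linarith [hdiff.2]
  have h5 : r ≤ (2 * z) ^ 6 := by
    have h6 := N2.trans N3
    rw [le_div_iff₀ hr0, one_mul] at h6
    have h7 : (2 * z) ^ 6 = 64 * z ^ 6 := by ring
    have h8 : 0 ≤ z ^ 6 := by positivity
    rw [h7]; linarith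
  have h6 : M ^ (1 / 12 : ℝ) ≤ 2 * z := by
    calc M ^ (1 / 12 : ℝ) = r ^ (1 / 6 : ℝ) := by
          rw [hr, Real.sqrt_eq_rpow, ← Real.rpow_mul hM0.le]; norm_num
      _ ≤ ((2 * z) ^ 6) ^ (1 / 6 : ℝ) := Real.rpow_le_rpow hr0.le h5 (by norm_num)
      _ = 2 * z := by
          rw [← Real.rpow_natCast, ← Real.rpow_mul (by linarith)]; norm_num
  rw [← hz]
  linarith

open Classical in
theorem near_sq {A θ : ℝ} (hA : 0 < A) (hθ : θ < 4 / 5) : ∃ C : ℝ, 0 < C ∧ ∀ U : ℕ, 1 ≤ U →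
    (((range (U + 1)).filter (fun u : ℕ => ∃ v : ℕ, v ^ 2 ≠ u ^ 5 ∧
      |(v : ℝ) ^ 2 - (u : ℝ) ^ 5| ≤ A * (u : ℝ) ^ (5 / 2 * θ))).card : ℝ) ≤ C * (U : ℝ) ^ (11 / 12 : ℝ) := by
  obtain ⟨η, hη⟩ : ∃ η : ℝ, η = 2 - 5 / 2 * θ := ⟨_, rfl⟩
  have hη0 : 0 < η := by linarith
  have hlim : Filter.Tendsto (fun M : ℕ => 4 * A * (M : ℝ) ^ (-η)) Filter.atTop (nhds (4 * A * 0)) :=
    ((tendsto_rpow_neg_atTop hη0).comp tendsto_natCast_atTop_atTop).const_mul (4 * A)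
  rw [mul_zero] at hlim
  obtain ⟨M₀, hM₀⟩ := Filter.eventually_atTop.1 (hlim.eventually_lt_const (show (0 : ℝ) < 1 / 1024 by norm_num))
  refine ⟨5 * 9 + 2 * (M₀ : ℕ) + 4, by positivity, dyadic (by norm_num) (by norm_num) fun M hM hM1 => ?_⟩
  have hM1' : (1 : ℝ) ≤ M := by exact_mod_cast hM1
  have hM0 : (0 : ℝ) < M := by linarith
  have key := card_of_span (k := 3) (M := M) (L := (M : ℝ) ^ (1 / 12 : ℝ) / 2) (by positivity)
    ((Ioc M (2 * M)).filter (fun u : ℕ => ∃ v : ℕ, v ^ 2 ≠ u ^ 5 ∧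
      |(v : ℝ) ^ 2 - (u : ℝ) ^ 5| ≤ A * (u : ℝ) ^ (5 / 2 * θ))) (Finset.filter_subset _ _) ?_
  · refine key.trans ?_
    have e1 : (M : ℝ) / ((M : ℝ) ^ (1 / 12 : ℝ) / 2) = 2 * (M : ℝ) ^ (11 / 12 : ℝ) := by
      have : (M : ℝ) = (M : ℝ) ^ (11 / 12 : ℝ) * (M : ℝ) ^ (1 / 12 : ℝ) := by
        rw [← Real.rpow_add hM0]; norm_num
      rw [div_eq_iff (by positivity)]
      linarith
    have e2 : 1 ≤ (M : ℝ) ^ (11 / 12 : ℝ) := Real.one_le_rpow hM1' (by norm_num)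
    rw [e1]
    push_cast
    linarith
  · intro u hu hS
    set δ : ℝ := A * (M : ℝ) ^ (-η) * (√(M : ℝ))⁻¹ with hδ
    have hδ1 : 4 * δ ≤ (√(M : ℝ))⁻¹ / 1024 := by
      have h1 := hM₀ M hM
      have h2 : 0 < (√(M : ℝ))⁻¹ := inv_pos.2 (Real.sqrt_pos.2 hM0)
      have h3 := mul_le_mul_of_nonneg_right h1.le h2.le
      rw [hδ]
      linarith
    have hk : ∀ i, ∃ v : ℕ, |(v : ℝ) - √(u i : ℝ) ^ 5| ≤ δ := by
      intro i
      have h1 := hS i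
      rw [Finset.mem_filter, Finset.mem_Ioc] at h1
      obtain ⟨⟨h2, h3⟩, v, _, h4⟩ := h1
      refine ⟨v, ?_⟩
      have h2' : (M : ℝ) ≤ u i := by exact_mod_cast h2.le
      have hu0 : (0 : ℝ) < u i := by linarith
      have hu1 : (1 : ℝ) ≤ u i := by linarith
      obtain ⟨w, hw⟩ : ∃ w, w = √(u i : ℝ) ^ 5 := ⟨_, rfl⟩
      rw [← hw]
      have hw0 : 0 < w := by
        have := Real.sqrt_pos.2 hu0
        rw [hw]; positivity
      have hw2 : w ^ 2 = (u i : ℝ) ^ 5 := by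
        rw [hw, ← pow_mul, pow_mul', Real.sq_sqrt hu0.le]
      have hw' : w = (u i : ℝ) ^ (5 / 2 : ℝ) := by
        rw [hw, Real.sqrt_eq_rpow, ← Real.rpow_natCast, ← Real.rpow_mul hu0.le]; norm_num
      have h5 : |(v : ℝ) - w| * w ≤ |(v : ℝ) ^ 2 - (u i : ℝ) ^ 5| := by
        rw [← hw2, show (v : ℝ) ^ 2 - w ^ 2 = (v - w) * (v + w) by ring, abs_mul]
        refine mul_le_mul_of_nonneg_left ?_ (abs_nonneg _)
        rw [abs_of_nonneg (by positivity)]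
        have : (0 : ℝ) ≤ v := by positivity
        linarith
      have h7 := h5.trans h4
      have h8 : |(v : ℝ) - w| ≤ A * (u i : ℝ) ^ (-(η + 1 / 2)) := by
        have e1 : A * (u i : ℝ) ^ (5 / 2 * θ) = A * (u i : ℝ) ^ (-(η + 1 / 2)) * w := by
          rw [hw', mul_assoc, ← Real.rpow_add hu0]
          congr 2
          rw [hη]; ring
        rw [e1] at h7
        exact le_of_mul_le_mul_right h7 hw0
      refine h8.trans ?_
      have h9 : (u i : ℝ) ^ (-(η + 1 / 2)) ≤ (M : ℝ) ^ (-(η + 1 / 2)) :=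
        Real.rpow_le_rpow_of_nonpos hM0 h2' (by linarith)
      have h10 : (M : ℝ) ^ (-(η + 1 / 2)) = (M : ℝ) ^ (-η) * (√(M : ℝ))⁻¹ := by
        rw [Real.sqrt_eq_rpow, ← Real.rpow_neg hM0.le, ← Real.rpow_add hM0]
        congr 1
        ring
      rw [hδ, mul_assoc, ← h10]
      exact mul_le_mul_of_nonneg_left h9 hA.le
    choose v hv using hk
    have hm := fun i => Finset.mem_Ioc.1 (Finset.mem_filter.1 (hS i)).1
    have c0 : (M : ℝ) < u 0 := by exact_mod_cast (hm 0).1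
    have c3 : ((u 3 : ℕ) : ℝ) ≤ 2 * M := by exact_mod_cast (hm 3).2
    exact four_pts hM1' hδ1 c0 (hu (by decide : (0 : Fin 4) < 1)) (hu (by decide : (1 : Fin 4) < 2))
      (hu (by decide : (2 : Fin 4) < 3)) c3 (hv 0) (hv 1) (hv 2) (hv 3)

end Pool.Agent.PG3
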