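import Pool.Agent.PG3.NearDef
import Pool.Agent.PGap.Upper

/-! Upper bound for the number of small gaps. -/

open Finset Real Filter

namespace Pool.Agent.PG3

open Pool.Agent.PGap

theorem _root_.Pool.Agent.PGap.PP.pos {t : ℕ} (h : PP t) : 1 ≤ t := by
  obtain ⟨m, k, hm, _, rfl⟩ := h
  exact Nat.one_le_pow _ _ (by omega)

open Classical in
/-- The gap bound in terms of the power. -/
theorem gap_le {θ lam : ℝ} (hθ : 0 < θ) (hlam : 0 < lam) : ∃ A : ℝ, 0 < A ∧ ∀ t : ℕ, 1 ≤ t → ∀ n : ℕ,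
    n ≤ Nat.count PP t + 1 → lam * (n : ℝ) ^ θ ≤ A * (t : ℝ) ^ (θ / 2) := by
  obtain ⟨C, hC, hb⟩ := count_bound
  refine ⟨lam * (2 + C) ^ θ, by positivity, fun t ht n hn => ?_⟩
  have ht1 : (1 : ℝ) ≤ t := by exact_mod_cast ht
  have ht0 : (0 : ℝ) < t := by linarith
  have h1 := (abs_le.1 (hb t ht)).2
  have h2 : (t : ℝ) ^ (1 / 3 : ℝ) ≤ √t := by
    rw [Real.sqrt_eq_rpow]
    exact Real.rpow_le_rpow_of_exponent_le ht1 (by norm_num)
  have h3 : 1 ≤ √(t : ℝ) := Real.one_le_sqrt.2 ht1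
  have h4 : (n : ℝ) ≤ Nat.count PP t + 1 := by exact_mod_cast hn
  have h5 : (n : ℝ) ≤ (2 + C) * √t := by
    have := mul_le_mul_of_nonneg_left h2 hC.le
    linarith
  have h6 : (n : ℝ) ^ θ ≤ (2 + C) ^ θ * (t : ℝ) ^ (θ / 2) := by
    calc (n : ℝ) ^ θ ≤ ((2 + C) * √t) ^ θ := Real.rpow_le_rpow (by positivity) h5 hθ.le
      _ = _ := by
        rw [Real.mul_rpow (by positivity) (by positivity), Real.sqrt_eq_rpow, ← Real.rpow_mul ht0.le]
        congr 2
        ring
  calc lam * (n : ℝ) ^ θ ≤ lam * ((2 + C) ^ θ * (t : ℝ) ^ (θ / 2)) := mul_le_mul_of_nonneg_left h6 hlam.le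
    _ = _ := by ring

theorem upper_bound' {θ lam c : ℝ} (hθ : 0 < θ) (hθ1 : θ ≤ 1) (h : θ < 1 ∨ lam < 2) (hlam : 0 < lam)
    (hc : lam / 2 < c) : ∃ A : ℝ, 0 < A ∧ ∃ K : ℕ, ∀ N : ℕ, ((PGap.E θ lam N).card : ℝ) ≤ K +
      (cnt (fun y => f3 y) c (3 / 2 * (1 - θ)) (((N : ℝ) + 2) ^ (2 / 3 : ℝ)) +
        cnt (fun y => -f3 y) c (3 / 2 * (1 - θ)) (((N : ℝ) + 2) ^ (2 / 3 : ℝ))) +
      2 * ((NearO A θ ((N + 2) ^ 2)).card : ℝ) := by
  classical
  obtain ⟨v₀, hv₀⟩ := eventually_atTop.1 (sq_gap hθ hθ1 h hlam)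
  obtain ⟨y₁, hy₁⟩ := eventually_atTop.1 (low_a θ hc)
  obtain ⟨y₂, hy₂⟩ := eventually_atTop.1 (up_a θ hc)
  obtain ⟨A, hA, hgapA⟩ := gap_le hθ hlam
  refine ⟨A, hA, (v₀ ^ 2 + 1) + y₁ + y₂, fun N => ?_⟩
  set Y : ℝ := ((N : ℝ) + 2) ^ (2 / 3 : ℝ) with hY
  set S₁ := (Ioc 0 ⌊Y⌋₊).filter (fun y : ℕ => Int.fract (f3 (y : ℝ)) ≤ c * (y : ℝ) ^ (-(3 / 2 * (1 - θ)))) with hS₁
  set S₂ := (Ioc 0 ⌊Y⌋₊).filter (fun y : ℕ => Int.fract (-f3 (y : ℝ)) ≤ c * (y : ℝ) ^ (-(3 / 2 * (1 - θ)))) with hS₂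
  set O := NearO A θ ((N + 2) ^ 2) with hO
  have hYle : ∀ y : ℕ, y ^ 3 ≤ (N + 2) ^ 2 → y ≤ ⌊Y⌋₊ := by
    intro y hy
    refine Nat.le_floor ?_
    have h1 : ((y : ℝ) ^ 3) ≤ ((N : ℝ) + 2) ^ 2 := by exact_mod_cast hy
    calc (y : ℝ) = ((y : ℝ) ^ 3) ^ (1 / 3 : ℝ) := by
          rw [← Real.rpow_natCast, ← Real.rpow_mul (by positivity)]; norm_num
      _ ≤ (((N : ℝ) + 2) ^ 2) ^ (1 / 3 : ℝ) := Real.rpow_le_rpow (by positivity) h1 (by norm_num)
      _ = Y := by rw [hY, ← Real.rpow_natCast, ← Real.rpow_mul (by positivity)]; norm_num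
  have hsub : PGap.E θ lam N ⊆ range (v₀ ^ 2 + 1) ∪ ((range y₁).image idx ∪ ((range y₂).image (fun y => idx y + 1) ∪
      (S₁.image idx ∪ (S₂.image (fun y => idx y + 1) ∪
        (O.image (fun t => Nat.count PP t) ∪ O.image (fun t => Nat.count PP t + 1)))))) := by
    intro n hn
    unfold PGap.E at hn
    rw [Finset.mem_filter, Finset.mem_Icc] at hn
    obtain ⟨⟨hn1, hnN⟩, hgap⟩ := hn
    have hlt : b (n - 1) < b n := b_mono (by omega)
    have hbn : b n ≤ (N + 2) ^ 2 := (b_mono.monotone hnN).trans (b_le N)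
    simp only [Finset.mem_union]
    by_cases hn0 : n < v₀ ^ 2 + 1
    · left; exact Finset.mem_range.2 hn0
    right
    by_cases hO1 : Oth (b n)
    · right; right; right; right; left
      rw [Finset.mem_image]
      refine ⟨b n, ?_, count_b n⟩
      rw [hO]; unfold NearO OthS
      rw [Finset.mem_filter, Finset.mem_filter, Finset.mem_range]
      refine ⟨⟨by omega, hO1⟩, b (n - 1), b_PP _, by omega, ?_⟩
      have h1 := hgapA (b n) (b_PP n).pos n (by rw [count_b]; omega)
      have h2 : ((b (n - 1) : ℕ) : ℝ) ≤ (b n : ℕ) := by exact_mod_cast hlt.le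
      rw [abs_sub_comm, abs_of_nonneg (by linarith)]
      linarith
    by_cases hO2 : Oth (b (n - 1))
    · right; right; right; right; right
      rw [Finset.mem_image]
      refine ⟨b (n - 1), ?_, ?_⟩
      · rw [hO]; unfold NearO OthS
        rw [Finset.mem_filter, Finset.mem_filter, Finset.mem_range]
        refine ⟨⟨by omega, hO2⟩, b n, b_PP _, by omega, ?_⟩
        have h1 := hgapA (b (n - 1)) (b_PP (n - 1)).pos n (by rw [count_b]; omega)
        have h2 : ((b (n - 1) : ℕ) : ℝ) ≤ (b n : ℕ) := by exact_mod_cast hlt.le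
        rw [abs_of_nonneg (by linarith)]
        linarith
      · rw [count_b]; omega
    -- squares or cubes
    have hcube : ∀ t, PP t → ¬ Oth t → (¬ ∃ u, u ^ 2 = t) → ∃ y, y ^ 3 = t ∧ ¬ ∃ u, u ^ 2 = y := by
      intro t ht hto hts
      have h3 : ∃ y, y ^ 3 = t := by
        by_contra h3
        exact hto ⟨ht, hts, h3⟩
      obtain ⟨y, hy⟩ := h3
      refine ⟨y, hy, ?_⟩
      rintro ⟨u, rfl⟩
      exact hts ⟨u ^ 3, by rw [← hy]; ring⟩
    by_cases hs1 : ∃ v, v ^ 2 = b n
    · obtain ⟨v, hv⟩ := hs1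
      by_cases hs2 : ∃ u, u ^ 2 = b (n - 1)
      · -- both squares
        exfalso
        obtain ⟨u, hu⟩ := hs2
        have huv := both_sq hn1 hu hv
        have h1 : v₀ ≤ v := by
          have h2 : n ≤ b n := b_mono.id_le n
          by_contra hc
          push Not at hc
          have : v ^ 2 ≤ v₀ ^ 2 := Nat.pow_le_pow_left hc.le 2
          omega
        have h2 := hv₀ v h1
        have h3 : Nat.count PP (v ^ 2) = n := by rw [hv, count_b]
        rw [h3] at h2
        rw [← hu, ← hv, huv] at hgap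
        push_cast at hgap
        have h4 : (v : ℝ) = u + 1 := by rw [huv]; push_cast; ring
        rw [h4] at h2
        nlinarith
      · obtain ⟨y, hy, hyn⟩ := hcube _ (b_PP _) hO2 hs2
        have hvy := up_pair hn1 hyn hy hv
        have hi : idx y + 1 = n := by
          unfold idx
          rw [hy, count_b]; omega
        by_cases hy2 : y < y₂
        · right; left
          rw [Finset.mem_image]
          exact ⟨y, Finset.mem_range.2 hy2, hi⟩
        · right; right; right; left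
          rw [Finset.mem_image]
          refine ⟨y, ?_, hi⟩
          rw [hS₂, Finset.mem_filter, Finset.mem_Ioc]
          refine ⟨⟨by have := two_le_of_not_sq hyn; omega, hYle y (by rw [hy]; omega)⟩, ?_⟩
          refine hy₂ y (by omega) hyn ?_
          have h5 : (n : ℝ) = (idx y : ℝ) + 1 := by rw [← hi]; push_cast; ring
          rw [← hy, ← hv, hvy, h5] at hgap
          push_cast at hgap
          exact hgap
    · obtain ⟨y, hy, hyn⟩ := hcube _ (b_PP _) hO1 hs1
      by_cases hs2 : ∃ u, u ^ 2 = b (n - 1)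
      · obtain ⟨u, hu⟩ := hs2
        have huy := low_pair hn1 hyn hu hy
        have hi : idx y = n := by
          unfold idx
          rw [hy, count_b]
        by_cases hy1 : y < y₁
        · left
          rw [Finset.mem_image]
          exact ⟨y, Finset.mem_range.2 hy1, hi⟩
        · right; right; left
          rw [Finset.mem_image]
          refine ⟨y, ?_, hi⟩
          rw [hS₁, Finset.mem_filter, Finset.mem_Ioc]
          refine ⟨⟨by have := two_le_of_not_sq hyn; omega, hYle y (by rw [hy]; exact hbn)⟩, ?_⟩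
          refine hy₁ y (by omega) ?_
          rw [← hy, ← hu, huy, ← hi] at hgap
          push_cast at hgap
          exact hgap
      · exfalso
        obtain ⟨z, hz, _⟩ := hcube _ (b_PP _) hO2 hs2
        exact not_both_cubes hn1 hz hy hyn
  have hcard : (PGap.E θ lam N).card ≤ (v₀ ^ 2 + 1) + (y₁ + (y₂ + (S₁.card + (S₂.card + (O.card + O.card))))) := by
    refine (Finset.card_le_card hsub).trans ?_
    refine (Finset.card_union_le _ _).trans (add_le_add (by rw [Finset.card_range]) ?_)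
    refine (Finset.card_union_le _ _).trans (add_le_add (Finset.card_image_le.trans (by rw [Finset.card_range])) ?_)
    refine (Finset.card_union_le _ _).trans (add_le_add (Finset.card_image_le.trans (by rw [Finset.card_range])) ?_)
    refine (Finset.card_union_le _ _).trans (add_le_add Finset.card_image_le ?_)
    refine (Finset.card_union_le _ _).trans (add_le_add Finset.card_image_le ?_)
    exact (Finset.card_union_le _ _).trans (add_le_add Finset.card_image_le Finset.card_image_le)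
  have hcard' : ((PGap.E θ lam N).card : ℝ) ≤ ((v₀ : ℝ) ^ 2 + 1) + (y₁ + (y₂ + (S₁.card + (S₂.card + (O.card + O.card))))) := by
    exact_mod_cast hcard
  have e1 : cnt (fun y => f3 y) c (3 / 2 * (1 - θ)) Y = S₁.card := rfl
  have e2 : cnt (fun y => -f3 y) c (3 / 2 * (1 - θ)) Y = S₂.card := rfl
  rw [e1, e2]
  push_cast
  linarith

end Pool.Agent.PG3
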