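import Pool.Agent.PGap.Lower

/-! The number of the `y ≤ N` whose cube is at a small positive distance from a square, from the two counts of small
fractional parts. -/

open Finset Real Filter
open Pool.Agent.PGap

namespace Pool.Agent.PG3

theorem f3_pow (y : ℕ) (κ : ℝ) : f3 (y : ℝ) ^ (2 * κ / 3) = (y : ℝ) ^ κ := by
  have h : f3 (y : ℝ) = (y : ℝ) ^ (3 / 2 : ℝ) := by
    rcases Nat.eq_zero_or_pos y with rfl | hy
    · unfold f3; norm_num
    · have : (0 : ℝ) < y := by exact_mod_cast hy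
      unfold f3
      rw [Real.sqrt_eq_rpow, ← Real.rpow_one_add' this.le (by norm_num)]; norm_num
  rw [h, ← Real.rpow_mul (by positivity)]
  congr 1; ring

theorem f3_pow' (y : ℕ) (κ : ℝ) : f3 (y : ℝ) ^ (2 * κ / 3 - 1) = (y : ℝ) ^ (-(3 / 2 - κ)) := by
  rw [f3_rpow]
  congr 1; ring

theorem tendsto_self : Tendsto (fun y : ℕ => f3 (y : ℝ) / f3 y) atTop (nhds 1) := by
  refine tendsto_const_nhds.congr' ?_
  filter_upwards [eventually_ge_atTop 1] with y hy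
  rw [div_self (f3_pos hy).ne']

theorem lowA (κ : ℝ) {lam c : ℝ} (hc : lam / 2 < c) : ∀ᶠ y : ℕ in atTop,
    (y : ℝ) ^ 3 - (sc y : ℝ) ^ 2 ≤ lam * (y : ℝ) ^ κ →
      Int.fract (f3 (y : ℝ)) ≤ c * (y : ℝ) ^ (-(3 / 2 - κ)) := by
  filter_upwards [(thr (g := fun y => f3 (y : ℝ)) (h := fun y => (sc y : ℝ))
    (fun y => f3_nonneg y) tendsto_self tendsto_sc (2 * κ / 3) (lam := lam) (c := c)).1 hc,
    eventually_ge_atTop 1] with y h1 hy h2
  have h0 := f3_pos hy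
  rw [low_eq] at h2
  have h3 : 0 < f3 (y : ℝ) + sc y := by positivity
  rw [f3_pow, f3_pow'] at h1
  have h4 := h2.trans h1
  rw [← mul_assoc] at h4
  exact le_of_mul_le_mul_right h4 h3

theorem lowB (κ : ℝ) {lam c : ℝ} (hc : c < lam / 2) : ∀ᶠ y : ℕ in atTop,
    Int.fract (f3 (y : ℝ)) ≤ c * (y : ℝ) ^ (-(3 / 2 - κ)) →
      (y : ℝ) ^ 3 - (sc y : ℝ) ^ 2 ≤ lam * (y : ℝ) ^ κ := by
  filter_upwards [(thr (g := fun y => f3 (y : ℝ)) (h := fun y => (sc y : ℝ))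
    (fun y => f3_nonneg y) tendsto_self tendsto_sc (2 * κ / 3) (lam := lam) (c := c)).2 hc,
    eventually_ge_atTop 1] with y h1 hy h2
  have h0 := f3_pos hy
  rw [low_eq]
  have h3 : 0 < f3 (y : ℝ) + sc y := by positivity
  rw [f3_pow, f3_pow'] at h1
  refine le_trans ?_ h1
  rw [← mul_assoc]
  exact mul_le_mul_of_nonneg_right h2 h3.le

theorem upA (κ : ℝ) {lam c : ℝ} (hc : lam / 2 < c) : ∀ᶠ y : ℕ in atTop, (¬ ∃ u, u ^ 2 = y) →
    ((sc y : ℝ) + 1) ^ 2 - (y : ℝ) ^ 3 ≤ lam * (y : ℝ) ^ κ →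
      Int.fract (-f3 (y : ℝ)) ≤ c * (y : ℝ) ^ (-(3 / 2 - κ)) := by
  filter_upwards [(thr (g := fun y => f3 (y : ℝ)) (h := fun y => (sc y : ℝ) + 1)
    (fun y => f3_nonneg y) tendsto_self (tendsto_succ tendsto_sc) (2 * κ / 3)
    (lam := lam) (c := c)).1 hc, eventually_ge_atTop 1] with y h1 hy hsq h2
  have h0 := f3_pos hy
  rw [up_eq hsq] at h2
  have h3 : 0 < f3 (y : ℝ) + (sc y + 1) := by positivity
  rw [f3_pow, f3_pow'] at h1
  have h4 := h2.trans h1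
  rw [← mul_assoc] at h4
  exact le_of_mul_le_mul_right h4 h3

theorem upB (κ : ℝ) {lam c : ℝ} (hc : c < lam / 2) : ∀ᶠ y : ℕ in atTop, (¬ ∃ u, u ^ 2 = y) →
    Int.fract (-f3 (y : ℝ)) ≤ c * (y : ℝ) ^ (-(3 / 2 - κ)) →
      ((sc y : ℝ) + 1) ^ 2 - (y : ℝ) ^ 3 ≤ lam * (y : ℝ) ^ κ := by
  filter_upwards [(thr (g := fun y => f3 (y : ℝ)) (h := fun y => (sc y : ℝ) + 1)
    (fun y => f3_nonneg y) tendsto_self (tendsto_succ tendsto_sc) (2 * κ / 3)
    (lam := lam) (c := c)).2 hc, eventually_ge_atTop 1] with y h1 hy hsq h2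
  have h0 := f3_pos hy
  rw [up_eq hsq]
  have h3 : 0 < f3 (y : ℝ) + (sc y + 1) := by positivity
  rw [f3_pow, f3_pow'] at h1
  refine le_trans ?_ h1
  rw [← mul_assoc]
  exact mul_le_mul_of_nonneg_right h2 h3.le

/-- `y` is a square -/
def Sq (y : ℕ) : Prop := ∃ u, u ^ 2 = y

/-- the cube of `y` is at a small positive distance from a square -/
def Near (κ lam : ℝ) (y : ℕ) : Prop :=
  ∃ x : ℕ, x ^ 2 ≠ y ^ 3 ∧ |((x : ℝ) ^ 2 - (y : ℝ) ^ 3)| ≤ lam * (y : ℝ) ^ κ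

theorem near_iff {κ lam : ℝ} {y : ℕ} (hy : ¬ ∃ u, u ^ 2 = y) : Near κ lam y ↔
    ((y : ℝ) ^ 3 - (sc y : ℝ) ^ 2 ≤ lam * (y : ℝ) ^ κ ∨
      ((sc y : ℝ) + 1) ^ 2 - (y : ℝ) ^ 3 ≤ lam * (y : ℝ) ^ κ) := by
  have a1 : ((sc y : ℝ)) ^ 2 < (y : ℝ) ^ 3 := by exact_mod_cast sc_sq_lt hy
  have a2 : (y : ℝ) ^ 3 < ((sc y : ℝ) + 1) ^ 2 := by exact_mod_cast lt_sc_succ y
  constructor
  · rintro ⟨x, -, hx⟩
    rw [abs_le] at hx
    rcases Nat.lt_or_ge (sc y) x with h | h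
    · right
      have h1 : ((sc y : ℝ) + 1) ≤ x := by exact_mod_cast h
      have h2 : ((sc y : ℝ) + 1) ^ 2 ≤ (x : ℝ) ^ 2 := pow_le_pow_left₀ (by positivity) h1 2
      linarith [hx.2]
    · left
      have h1 : (x : ℝ) ≤ sc y := by exact_mod_cast h
      have h2 : (x : ℝ) ^ 2 ≤ (sc y : ℝ) ^ 2 := pow_le_pow_left₀ (by positivity) h1 2
      linarith [hx.1]
  · rintro (h | h)
    · refine ⟨sc y, (sc_sq_lt hy).ne, ?_⟩
      rw [abs_sub_comm, abs_of_pos (by linarith)]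
      exact h
    · refine ⟨sc y + 1, (lt_sc_succ y).ne', ?_⟩
      push_cast
      rw [abs_of_pos (by linarith)]
      exact h

theorem sq_card {S : Finset ℕ} {N : ℕ} (hS : ∀ y ∈ S, y ≤ N ∧ ∃ u, u ^ 2 = y) :
    (S.card : ℝ) ≤ √(N : ℝ) + 1 := by
  have h1 : S ⊆ (range (Nat.sqrt N + 1)).image (fun u => u ^ 2) := by
    intro y hy
    obtain ⟨hyN, u, rfl⟩ := hS y hy
    rw [Finset.mem_image]
    refine ⟨u, ?_, rfl⟩
    rw [Finset.mem_range]
    have : u ≤ Nat.sqrt N := Nat.le_sqrt.2 (by rw [← pow_two]; exact hyN)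
    omega
  have h2 : S.card ≤ Nat.sqrt N + 1 :=
    (Finset.card_le_card h1).trans (Finset.card_image_le.trans (by rw [Finset.card_range]))
  have h3 : (S.card : ℝ) ≤ (Nat.sqrt N : ℝ) + 1 := by exact_mod_cast h2
  have h4 : (Nat.sqrt N : ℝ) ≤ √(N : ℝ) := Real.nat_sqrt_le_real_sqrt
  linarith

open Classical in
theorem near_upper {κ lam c : ℝ} (hc : lam / 2 < c) : ∃ K : ℕ, ∀ N : ℕ,
    (((Icc 1 N).filter (Near κ lam)).card : ℝ) ≤
      cnt (fun y => f3 y) c (3 / 2 - κ) N + cnt (fun y => -f3 y) c (3 / 2 - κ) N + (K + (√(N : ℝ) + 1)) := by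
  obtain ⟨y₁, hy₁⟩ := eventually_atTop.1 (lowA κ hc)
  obtain ⟨y₂, hy₂⟩ := eventually_atTop.1 (upA κ hc)
  refine ⟨y₁ + y₂, fun N => ?_⟩
  set S₁ := (Ioc 0 ⌊(N : ℝ)⌋₊).filter (fun y : ℕ => Int.fract (f3 (y : ℝ)) ≤ c * (y : ℝ) ^ (-(3 / 2 - κ))) with hS₁
  set S₂ := (Ioc 0 ⌊(N : ℝ)⌋₊).filter (fun y : ℕ => Int.fract (-f3 (y : ℝ)) ≤ c * (y : ℝ) ^ (-(3 / 2 - κ))) with hS₂
  set Sqs := (Icc 1 N).filter Sq with hSq
  have hsub : (Icc 1 N).filter (Near κ lam) ⊆ S₁ ∪ (S₂ ∪ (range (y₁ + y₂) ∪ Sqs)) := by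
    intro y hy
    rw [Finset.mem_filter, Finset.mem_Icc] at hy
    obtain ⟨⟨hy1, hyN⟩, hn⟩ := hy
    simp only [Finset.mem_union]
    by_cases hsq : Sq y
    · right; right; right
      rw [hSq, Finset.mem_filter, Finset.mem_Icc]
      exact ⟨⟨hy1, hyN⟩, hsq⟩
    by_cases hlt : y < y₁ + y₂
    · right; right; left; exact Finset.mem_range.2 hlt
    have hfl : y ∈ Ioc 0 ⌊(N : ℝ)⌋₊ := by
      rw [Nat.floor_natCast, Finset.mem_Ioc]
      omega
    rcases (near_iff hsq).1 hn with h | h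
    · left
      rw [hS₁, Finset.mem_filter]
      exact ⟨hfl, hy₁ y (by omega) h⟩
    · right; left
      rw [hS₂, Finset.mem_filter]
      exact ⟨hfl, hy₂ y (by omega) hsq h⟩
  have h1 := Finset.card_le_card hsub
  have h2 := Finset.card_union_le S₁ (S₂ ∪ (range (y₁ + y₂) ∪ Sqs))
  have h3 := Finset.card_union_le S₂ (range (y₁ + y₂) ∪ Sqs)
  have h4 := Finset.card_union_le (range (y₁ + y₂)) Sqs
  rw [Finset.card_range] at h4
  have h5 : ((Icc 1 N).filter (Near κ lam)).card ≤ S₁.card + (S₂.card + ((y₁ + y₂) + Sqs.card)) := by omega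
  have h6 : (((Icc 1 N).filter (Near κ lam)).card : ℝ) ≤ S₁.card + (S₂.card + (((y₁ + y₂ : ℕ) : ℝ) + Sqs.card)) := by
    exact_mod_cast h5
  have h7 : (Sqs.card : ℝ) ≤ √(N : ℝ) + 1 := sq_card fun y hy => by
    rw [hSq, Finset.mem_filter, Finset.mem_Icc] at hy
    exact ⟨hy.1.2, hy.2⟩
  have e1 : cnt (fun y => f3 y) c (3 / 2 - κ) N = S₁.card := rfl
  have e2 : cnt (fun y => -f3 y) c (3 / 2 - κ) N = S₂.card := rfl
  rw [e1, e2]
  linarith

open Classical in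
theorem near_lower {κ lam c : ℝ} (hκ : κ < 3 / 2) (hc : c < lam / 2) : ∃ K : ℕ, ∀ N : ℕ,
    cnt (fun y => f3 y) c (3 / 2 - κ) N + cnt (fun y => -f3 y) c (3 / 2 - κ) N ≤
      (((Icc 1 N).filter (Near κ lam)).card : ℝ) + (K + 2 * (√(N : ℝ) + 1)) := by
  obtain ⟨y₁, hy₁⟩ := eventually_atTop.1 (lowB κ hc)
  obtain ⟨y₂, hy₂⟩ := eventually_atTop.1 (upB κ hc)
  have h0 : Tendsto (fun y : ℕ => 2 * (c * (y : ℝ) ^ (-(3 / 2 - κ)))) atTop (nhds (2 * (c * 0))) :=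
    (((tendsto_rpow_neg_atTop (show (0 : ℝ) < 3 / 2 - κ by linarith)).comp
      tendsto_natCast_atTop_atTop).const_mul c).const_mul 2
  rw [mul_zero, mul_zero] at h0
  obtain ⟨y₃, hy₃⟩ := eventually_atTop.1 (h0.eventually_lt_const (show (0 : ℝ) < 1 by norm_num))
  refine ⟨2 * (y₁ + y₂ + y₃), fun N => ?_⟩
  set M := y₁ + y₂ + y₃ with hM
  set S₁ := (Ioc 0 ⌊(N : ℝ)⌋₊).filter (fun y : ℕ => Int.fract (f3 (y : ℝ)) ≤ c * (y : ℝ) ^ (-(3 / 2 - κ))) with hS₁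
  set S₂ := (Ioc 0 ⌊(N : ℝ)⌋₊).filter (fun y : ℕ => Int.fract (-f3 (y : ℝ)) ≤ c * (y : ℝ) ^ (-(3 / 2 - κ))) with hS₂
  have hdec : ∀ S : Finset ℕ, S ⊆ Ioc 0 ⌊(N : ℝ)⌋₊ → (S.card : ℝ) ≤
      ((S.filter (fun y => ¬ Sq y ∧ M ≤ y)).card : ℝ) + (M + (√(N : ℝ) + 1)) := by
    intro S hS
    have hsub : S ⊆ S.filter (fun y => ¬ Sq y ∧ M ≤ y) ∪ (range M ∪ S.filter Sq) := by
      intro y hy
      simp only [Finset.mem_union]
      by_cases hsq : Sq y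
      · right; right; exact Finset.mem_filter.2 ⟨hy, hsq⟩
      by_cases hlt : y < M
      · right; left; exact Finset.mem_range.2 hlt
      · left; exact Finset.mem_filter.2 ⟨hy, hsq, not_lt.1 hlt⟩
    have h1 := Finset.card_le_card hsub
    have h2 := Finset.card_union_le (S.filter (fun y => ¬ Sq y ∧ M ≤ y))
      (range M ∪ S.filter Sq)
    have h3 := Finset.card_union_le (range M) (S.filter Sq)
    rw [Finset.card_range] at h3
    have h4 : S.card ≤ (S.filter (fun y => ¬ Sq y ∧ M ≤ y)).card +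
        (M + (S.filter Sq).card) := by omega
    have h5 : (S.card : ℝ) ≤ ((S.filter (fun y => ¬ Sq y ∧ M ≤ y)).card : ℝ) +
        (M + ((S.filter Sq).card : ℝ)) := by exact_mod_cast h4
    have h6 : ((S.filter Sq).card : ℝ) ≤ √(N : ℝ) + 1 := sq_card fun y hy => by
      rw [Finset.mem_filter] at hy
      have := hS hy.1
      rw [Nat.floor_natCast, Finset.mem_Ioc] at this
      exact ⟨this.2, hy.2⟩
    linarith
  have d₁ := hdec S₁ (Finset.filter_subset _ _)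
  have d₂ := hdec S₂ (Finset.filter_subset _ _)
  set S₁' := S₁.filter (fun y => ¬ Sq y ∧ M ≤ y) with hS₁'
  set S₂' := S₂.filter (fun y => ¬ Sq y ∧ M ≤ y) with hS₂'
  have hdisj : Disjoint S₁' S₂' := by
    rw [Finset.disjoint_left]
    intro y h1 h2
    rw [hS₁', Finset.mem_filter, hS₁, Finset.mem_filter] at h1
    rw [hS₂', Finset.mem_filter, hS₂, Finset.mem_filter] at h2
    have a1 := h1.1.2
    have a2 := h2.1.2
    have a3 := hy₃ y (by omega)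
    rw [fract_neg_f3 h1.2.1] at a2
    rw [fract_f3] at a1
    linarith
  have hsub : S₁' ∪ S₂' ⊆ (Icc 1 N).filter (Near κ lam) := by
    intro y hy
    rw [Finset.mem_union] at hy
    rw [Finset.mem_filter, Finset.mem_Icc]
    rcases hy with hy | hy
    · rw [hS₁', Finset.mem_filter, hS₁, Finset.mem_filter, Nat.floor_natCast, Finset.mem_Ioc] at hy
      obtain ⟨⟨⟨hy0, hyN⟩, hf⟩, hsq, hMy⟩ := hy
      exact ⟨⟨hy0, hyN⟩, (near_iff hsq).2 (Or.inl (hy₁ y (by omega) hf))⟩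
    · rw [hS₂', Finset.mem_filter, hS₂, Finset.mem_filter, Nat.floor_natCast, Finset.mem_Ioc] at hy
      obtain ⟨⟨⟨hy0, hyN⟩, hf⟩, hsq, hMy⟩ := hy
      exact ⟨⟨hy0, hyN⟩, (near_iff hsq).2 (Or.inr (hy₂ y (by omega) hsq hf))⟩
  have h1 : S₁'.card + S₂'.card ≤ ((Icc 1 N).filter (Near κ lam)).card := by
    rw [← Finset.card_union_of_disjoint hdisj]
    exact Finset.card_le_card hsub
  have h2 : (S₁'.card : ℝ) + S₂'.card ≤ (((Icc 1 N).filter (Near κ lam)).card : ℝ) := by exact_mod_cast h1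
  have e1 : cnt (fun y => f3 y) c (3 / 2 - κ) N = S₁.card := rfl
  have e2 : cnt (fun y => -f3 y) c (3 / 2 - κ) N = S₂.card := rfl
  rw [e1, e2]
  push_cast
  linarith

open Classical in
theorem hall_of {κ lam : ℝ} (h1 : 1 < κ) (h2 : κ < 3 / 2) (hlam : 0 < lam)
    (hcnt : ∀ c : ℝ, 0 < c →
      Tendsto (fun Y : ℝ => cnt (fun y => f3 y) c (3 / 2 - κ) Y / Y ^ (κ - 1 / 2)) atTop (nhds (c / (κ - 1 / 2))) ∧
      Tendsto (fun Y : ℝ => cnt (fun y => -f3 y) c (3 / 2 - κ) Y / Y ^ (κ - 1 / 2)) atTop (nhds (c / (κ - 1 / 2)))) :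
    Tendsto (fun N : ℕ => (((Finset.Icc 1 N).filter (fun y : ℕ => ∃ x : ℕ, x ^ 2 ≠ y ^ 3 ∧
        |((x : ℝ) ^ 2 - (y : ℝ) ^ 3)| ≤ lam * (y : ℝ) ^ κ)).card : ℝ) / (N : ℝ) ^ (κ - 1 / 2)) atTop
      (nhds (lam / (κ - 1 / 2))) := by
  have hp : 0 < κ - 1 / 2 := by linarith
  have hN : ∀ c : ℝ, 0 < c → Tendsto (fun N : ℕ => (cnt (fun y => f3 y) c (3 / 2 - κ) N +
      cnt (fun y => -f3 y) c (3 / 2 - κ) N) / (N : ℝ) ^ (κ - 1 / 2)) atTop (nhds (2 * c / (κ - 1 / 2))) := by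
    intro c hc
    obtain ⟨a, b⟩ := hcnt c hc
    have h := (a.add b).comp (tendsto_natCast_atTop_atTop (R := ℝ))
    have e : c / (κ - 1 / 2) + c / (κ - 1 / 2) = 2 * c / (κ - 1 / 2) := by ring
    rw [e] at h
    refine h.congr fun N => ?_
    simp only [Function.comp_apply]
    rw [add_div]
  have hsm : ∀ K : ℕ, Tendsto (fun N : ℕ => ((K : ℝ) + 2 * (√(N : ℝ) + 1)) / (N : ℝ) ^ (κ - 1 / 2)) atTop
      (nhds 0) := by
    intro K
    have t1 : Tendsto (fun N : ℕ => (N : ℝ) ^ (-(κ - 1 / 2))) atTop (nhds 0) :=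
      (tendsto_rpow_neg_atTop hp).comp (tendsto_natCast_atTop_atTop (R := ℝ))
    have t2 : Tendsto (fun N : ℕ => (N : ℝ) ^ (-(κ - 1))) atTop (nhds 0) :=
      (tendsto_rpow_neg_atTop (show 0 < κ - 1 by linarith)).comp (tendsto_natCast_atTop_atTop (R := ℝ))
    have t3 := (t1.const_mul ((K : ℝ) + 2)).add (t2.const_mul 2)
    rw [mul_zero, mul_zero, add_zero] at t3
    refine t3.congr' ?_
    filter_upwards [eventually_ge_atTop 1] with N hN1
    have hN0 : (0 : ℝ) < N := by exact_mod_cast hN1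
    have e1 : (N : ℝ) ^ (-(κ - 1)) = √(N : ℝ) * (N : ℝ) ^ (-(κ - 1 / 2)) := by
      rw [Real.sqrt_eq_rpow, ← Real.rpow_add hN0]
      congr 1; ring
    rw [e1, Real.rpow_neg hN0.le]
    ring
  have key : Tendsto (fun N : ℕ => (((Icc 1 N).filter (Near κ lam)).card : ℝ) / (N : ℝ) ^ (κ - 1 / 2)) atTop
      (nhds (lam / (κ - 1 / 2))) := by
    rw [tendsto_order]
    constructor
    · intro a ha
      have ha' : a * (κ - 1 / 2) / 2 < lam / 2 := by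
        have := (lt_div_iff₀ hp).1 ha
        linarith
      obtain ⟨c, hc1, hc2⟩ := exists_between (max_lt ha' (show (0 : ℝ) < lam / 2 by linarith))
      have hc0 : 0 < c := (le_max_right _ _).trans_lt hc1
      have hca : a < 2 * c / (κ - 1 / 2) := by
        rw [lt_div_iff₀ hp]
        have := (le_max_left (a * (κ - 1 / 2) / 2) 0).trans_lt hc1
        linarith
      obtain ⟨K, hK⟩ := near_lower h2 hc2
      have h3 := (hN c hc0).sub (hsm K)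
      rw [sub_zero] at h3
      filter_upwards [h3.eventually_const_lt hca, eventually_ge_atTop 1] with N hlt hN1
      refine hlt.trans_le ?_
      have hN0 : (0 : ℝ) < (N : ℝ) ^ (κ - 1 / 2) := Real.rpow_pos_of_pos (by exact_mod_cast hN1) _
      rw [← sub_div]
      refine div_le_div_of_nonneg_right ?_ hN0.le
      have := hK N
      linarith
    · intro a ha
      have ha' : lam / 2 < a * (κ - 1 / 2) / 2 := by
        have := (div_lt_iff₀ hp).1 ha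
        linarith
      obtain ⟨c, hc1, hc2⟩ := exists_between ha'
      have hc0 : 0 < c := (show (0 : ℝ) < lam / 2 by linarith).trans hc1
      have hca : 2 * c / (κ - 1 / 2) < a := by
        rw [div_lt_iff₀ hp]
        linarith
      obtain ⟨K, hK⟩ := near_upper (κ := κ) hc1
      have h3 := (hN c hc0).add (hsm K)
      rw [add_zero] at h3
      filter_upwards [h3.eventually_lt_const hca, eventually_ge_atTop 1] with N hlt hN1
      refine lt_of_le_of_lt ?_ hlt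
      have hN0 : (0 : ℝ) < (N : ℝ) ^ (κ - 1 / 2) := Real.rpow_pos_of_pos (by exact_mod_cast hN1) _
      rw [← add_div]
      refine div_le_div_of_nonneg_right ?_ hN0.le
      have := hK N
      have := Real.sqrt_nonneg (N : ℝ)
      linarith
  exact key

/-- the same with `ncard` -/
theorem hall_ncard {κ lam : ℝ} (h1 : 1 < κ) (h2 : κ < 3 / 2) (hlam : 0 < lam)
    (hcnt : ∀ c : ℝ, 0 < c →
      Tendsto (fun Y : ℝ => cnt (fun y => f3 y) c (3 / 2 - κ) Y / Y ^ (κ - 1 / 2)) atTop (nhds (c / (κ - 1 / 2))) ∧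
      Tendsto (fun Y : ℝ => cnt (fun y => -f3 y) c (3 / 2 - κ) Y / Y ^ (κ - 1 / 2)) atTop (nhds (c / (κ - 1 / 2)))) :
    Tendsto (fun N : ℕ => (({y : ℕ | 1 ≤ y ∧ y ≤ N ∧ ∃ x : ℕ, x ^ 2 ≠ y ^ 3 ∧
        |((x : ℝ) ^ 2 - (y : ℝ) ^ 3)| ≤ lam * (y : ℝ) ^ κ}.ncard : ℕ) : ℝ) / (N : ℝ) ^ (κ - 1 / 2)) atTop
      (nhds (lam / (κ - 1 / 2))) := by
  classical
  refine (hall_of h1 h2 hlam hcnt).congr fun N => ?_
  congr 2
  rw [← Set.ncard_coe_finset]
  congr 1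
  ext y
  simp only [Finset.coe_filter, Finset.mem_Icc, Set.mem_ofPred_eq, and_assoc]

end Pool.Agent.PG3
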