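import Pool.Agent.PG3.Final2
import Pool.Agent.PG3.Hall

/-! Small values of `x ^ 2 - y ^ 3` on average. -/

open Finset Real Filter

namespace Pool.Agent.PG3

open Pool.Agent.PGap

theorem hall {κ lam : ℝ} (h1 : 1 < κ) (h2 : κ < 3 / 2) (hlam : 0 < lam) :
    Tendsto (fun N : ℕ => (({y : ℕ | 1 ≤ y ∧ y ≤ N ∧ ∃ x : ℕ, x ^ 2 ≠ y ^ 3 ∧
        |((x : ℝ) ^ 2 - (y : ℝ) ^ 3)| ≤ lam * (y : ℝ) ^ κ}.ncard : ℕ) : ℝ) / (N : ℝ) ^ (κ - 1 / 2)) atTop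
      (nhds (lam / (κ - 1 / 2))) := by
  refine hall_ncard h1 h2 hlam fun c hc => ?_
  have h := cnt_f3 (γ := 3 / 2 - κ) (by linarith) (by linarith) hc (Or.inl (by linarith))
  rw [show 1 - (3 / 2 - κ) = κ - 1 / 2 by ring] at h
  exact h

end Pool.Agent.PG3
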