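import Pool.Agent.PGap.PP

/-! Powers with exponent at least five which are close to another power. -/

open Finset Real

namespace Pool.Agent.PG3

open Pool.Agent.PGap

open Classical in
/-- The powers up to `X` which are neither squares nor cubes and which are close to another power. -/
noncomputable def NearO (A θ : ℝ) (X : ℕ) : Finset ℕ :=
  (OthS X).filter (fun t => ∃ s, PP s ∧ s ≠ t ∧ |(s : ℝ) - t| ≤ A * (t : ℝ) ^ (θ / 2))

end Pool.Agent.PG3
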