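import Pool.Agent.PG3.Wt

/-! The oscillatory integral: the bound `λ ^ (-1/2)`. -/

open MeasureTheory Set Filter Topology Complex
open scoped ContDiff

namespace Pool.Agent.PG3

open Pool.Agent.ANT

/-- `∫ 3 s R(s) e(λ ψ(s)) ds`. -/
noncomputable def Osc (R : ℝ → ℝ) (lam σ : ℝ) : ℂ := ∫ s, ((3 * s * R s : ℝ) : ℂ) * E lam σ s

theorem int_cauchy {δ : ℝ} (hδ : 0 < δ) (σ : ℝ) :
    Integrable (fun s : ℝ => ((s - σ) ^ 2 + δ ^ 2)⁻¹) ∧
      ∫ s : ℝ, ((s - σ) ^ 2 + δ ^ 2)⁻¹ = Real.pi / δ := by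
  have e : ∀ s : ℝ, ((s - σ) ^ 2 + δ ^ 2)⁻¹ = (δ ^ 2)⁻¹ * (1 + ((s - σ) / δ) ^ 2)⁻¹ := by
    intro s
    rw [← mul_inv]
    congr 1
    field_simp
    ring
  have i0 : Integrable (fun s : ℝ => (1 + (s / δ) ^ 2)⁻¹) :=
    integrable_inv_one_add_sq.comp_div hδ.ne'
  have i1 : Integrable (fun s : ℝ => (1 + ((s - σ) / δ) ^ 2)⁻¹) := i0.comp_sub_right σ
  constructor
  · simp_rw [e]
    exact i1.const_mul _
  · simp_rw [e]
    rw [integral_const_mul, integral_sub_right_eq_self (fun s : ℝ => (1 + (s / δ) ^ 2)⁻¹) σ,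
      Measure.integral_comp_div (fun s : ℝ => (1 + s ^ 2)⁻¹) δ, integral_univ_inv_one_add_sq,
      abs_of_pos hδ, smul_eq_mul]
    field_simp

theorem osc_bound_aux {a b : ℝ} (hab : a ≤ b) {R : ℝ → ℝ} (hR : Wt a b R) {M : ℝ} (hM0 : 0 ≤ M)
    (h3 : ∀ s, |3 * s * R s| ≤ M) (h1 : ∀ s, |R s| ≤ M) (h2 : ∀ s, |deriv R s| ≤ M)
    {lam : ℝ} (hl : 0 < lam) {δ : ℝ} (hδ : 0 < δ) (σ : ℝ) :
    ‖Osc R lam σ‖ ≤ M * Real.pi * δ + (M * (b - a) + M * Real.pi) / (lam * δ) := by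
  have hd2 : ∀ s : ℝ, 0 < (s - σ) ^ 2 + δ ^ 2 := fun s => by positivity
  set k : ℝ → ℝ := fun s => (s - σ) / ((s - σ) ^ 2 + δ ^ 2) with hk
  set k' : ℝ → ℝ := fun s => (δ ^ 2 - (s - σ) ^ 2) / ((s - σ) ^ 2 + δ ^ 2) ^ 2 with hk'
  have hkd : ∀ s, HasDerivAt k (k' s) s := by
    intro s
    have hx : HasDerivAt (fun t : ℝ => t - σ) 1 s := (hasDerivAt_id s).sub_const σ
    have h4 := hx.div ((hx.pow 2).add_const (δ ^ 2)) (hd2 s).ne'
    refine h4.congr_deriv ?_
    rw [hk']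
    congr 1
    norm_num
    ring
  have hkc' : Continuous k' := by
    rw [hk']
    exact Continuous.div (by fun_prop) (by fun_prop) fun s => by have := hd2 s; positivity
  have hkb : ∀ s, |k s| ≤ (2 * δ)⁻¹ := by
    intro s
    rw [hk]
    simp only
    rw [abs_div, abs_of_pos (hd2 s), div_le_iff₀ (hd2 s)]
    have : |s - σ| ^ 2 = (s - σ) ^ 2 := sq_abs _
    rw [← this]
    have h5 : 0 ≤ (|s - σ| - δ) ^ 2 := sq_nonneg _
    rw [inv_mul_eq_div, le_div_iff₀ (by positivity)]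
    nlinarith
  have hkb' : ∀ s, |k' s| ≤ ((s - σ) ^ 2 + δ ^ 2)⁻¹ := by
    intro s
    rw [hk']
    simp only
    have := hd2 s
    rw [abs_div, abs_of_pos (show 0 < ((s - σ) ^ 2 + δ ^ 2) ^ 2 by positivity), div_le_iff₀ (by positivity)]
    have h5 : |δ ^ 2 - (s - σ) ^ 2| ≤ (s - σ) ^ 2 + δ ^ 2 := by
      rw [abs_le]; constructor <;> nlinarith [sq_nonneg (s - σ), sq_nonneg δ]
    calc _ ≤ _ := h5
      _ = _ := by field_simp
  set G : ℝ → ℂ := fun s => ((R s * k s : ℝ) : ℂ) with hG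
  set G' : ℝ → ℂ := fun s => ((deriv R s * k s + R s * k' s : ℝ) : ℂ) with hG'
  have hGd : ∀ s, HasDerivAt G (G' s) s := fun s => ((hR.hasDerivAt s).mul (hkd s)).ofReal_comp
  have hkc : Continuous k := continuous_iff_continuousAt.2 fun s => (hkd s).continuousAt
  have hGc : Continuous G' := by
    rw [hG']
    exact Complex.continuous_ofReal.comp (((hR.deriv.continuous).mul hkc).add (hR.continuous.mul hkc'))
  have hib := ibp (a := a) (b := b) hGd hGc (fun s hs => by rw [hG]; simp [hR.supp s hs])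
    (fun s hs => by rw [hG']; simp [hR.supp s hs, hR.deriv.supp s hs]) lam σ
  -- splitting
  have hEc := continuous_E lam σ
  have hsplit : ∀ s, ((3 * s * R s : ℝ) : ℂ) * E lam σ s =
      ((3 * s * R s * (δ ^ 2 * ((s - σ) ^ 2 + δ ^ 2)⁻¹) : ℝ) : ℂ) * E lam σ s +
      (2 * Real.pi * lam * I)⁻¹ * (G s * (2 * Real.pi * (lam * (3 * s * (s - σ)) : ℝ) * I * E lam σ s)) := by
    intro s
    have hc1 : (Real.pi : ℂ) ≠ 0 := by exact_mod_cast Real.pi_ne_zero
    have hc2 : (lam : ℂ) ≠ 0 := by exact_mod_cast hl.ne'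
    have e1 : (2 * Real.pi * lam * I)⁻¹ * (G s * (2 * Real.pi * (lam * (3 * s * (s - σ)) : ℝ) * I * E lam σ s))
        = ((R s * k s * (3 * s * (s - σ)) : ℝ) : ℂ) * E lam σ s := by
      rw [hG]
      push_cast
      field_simp
    rw [e1, ← add_mul, ← Complex.ofReal_add]
    congr 2
    rw [hk]
    simp only
    have := (hd2 s).ne'
    field_simp
    ring
  have i1 : Integrable (fun s => ((3 * s * R s * (δ ^ 2 * ((s - σ) ^ 2 + δ ^ 2)⁻¹) : ℝ) : ℂ) * E lam σ s) := by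
    refine integrable_of_supp (a := a) (b := b) ?_ fun s hs => by simp [hR.supp s hs]
    have : Continuous fun s : ℝ => ((s - σ) ^ 2 + δ ^ 2)⁻¹ :=
      Continuous.inv₀ (by fun_prop) fun s => (hd2 s).ne'
    have hRc := hR.continuous
    fun_prop
  have i2 : Integrable (fun s => (2 * Real.pi * lam * I : ℂ)⁻¹ *
      (G s * (2 * Real.pi * (lam * (3 * s * (s - σ)) : ℝ) * I * E lam σ s))) := by
    refine integrable_of_supp (a := a) (b := b) ?_ fun s hs => by rw [hG]; simp [hR.supp s hs]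
    have hRc := hR.continuous
    rw [hG]
    fun_prop
  have e0 : Osc R lam σ = (∫ s, ((3 * s * R s * (δ ^ 2 * ((s - σ) ^ 2 + δ ^ 2)⁻¹) : ℝ) : ℂ) * E lam σ s) +
      (2 * Real.pi * lam * I)⁻¹ * (-∫ s, G' s * E lam σ s) := by
    rw [← hib, ← integral_const_mul, ← integral_add i1 i2]
    unfold Osc
    exact integral_congr_ae (Eventually.of_forall hsplit)
  obtain ⟨j1, j2⟩ := int_cauchy hδ σ
  have n1 : ‖∫ s, ((3 * s * R s * (δ ^ 2 * ((s - σ) ^ 2 + δ ^ 2)⁻¹) : ℝ) : ℂ) * E lam σ s‖ ≤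
      M * Real.pi * δ := by
    refine (norm_integral_le_of_norm_le (j1.const_mul (M * δ ^ 2)) (Eventually.of_forall fun s => ?_)).trans ?_
    · rw [norm_mul, norm_E, mul_one, Complex.norm_real, Real.norm_eq_abs, abs_mul,
        abs_of_nonneg (show 0 ≤ δ ^ 2 * ((s - σ) ^ 2 + δ ^ 2)⁻¹ by positivity)]
      have := mul_le_mul_of_nonneg_right (h3 s) (show 0 ≤ δ ^ 2 * ((s - σ) ^ 2 + δ ^ 2)⁻¹ by positivity)
      linarith
    · rw [integral_const_mul, j2]
      refine le_of_eq ?_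
      field_simp
  have n2 : ‖∫ s, G' s * E lam σ s‖ ≤ M * (2 * δ)⁻¹ * (b - a) + M * (Real.pi / δ) := by
    have hs1 : Integrable (fun s => indicator (Icc a b) (fun _ => M * (2 * δ)⁻¹) s) := by
      rw [integrable_indicator_iff measurableSet_Icc]
      exact continuous_const.integrableOn_Icc
    have hs2 : Integrable (fun s => indicator (Icc a b) (fun _ => M * (2 * δ)⁻¹) s +
        M * ((s - σ) ^ 2 + δ ^ 2)⁻¹) := hs1.add (j1.const_mul M)
    refine (norm_integral_le_of_norm_le hs2 (Eventually.of_forall fun s => ?_)).trans ?_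
    · rw [norm_mul, norm_E, mul_one, hG']
      simp only
      rw [Complex.norm_real, Real.norm_eq_abs]
      by_cases hs : s ∈ Icc a b
      · rw [indicator_of_mem hs]
        refine (abs_add_le _ _).trans (add_le_add ?_ ?_)
        · rw [abs_mul]
          exact mul_le_mul (h2 s) (hkb s) (abs_nonneg _) hM0
        · rw [abs_mul]
          exact mul_le_mul (h1 s) (hkb' s) (abs_nonneg _) hM0
      · rw [indicator_of_notMem hs, hR.supp s hs, hR.deriv.supp s hs]
        have := hd2 s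
        simp
        positivity
    · rw [integral_add hs1 (j1.const_mul M), integral_const_mul, j2, integral_indicator measurableSet_Icc,
        setIntegral_const]
      simp only [Measure.real, Real.volume_Icc, ENNReal.toReal_ofReal (sub_nonneg.2 hab), smul_eq_mul]
      refine le_of_eq ?_
      ring
  rw [e0]
  refine (norm_add_le _ _).trans (add_le_add n1 ?_)
  rw [norm_mul, norm_neg, norm_inv]
  have e2 : ‖(2 * Real.pi * lam * I : ℂ)‖ = 2 * Real.pi * lam := by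
    simp [abs_of_pos Real.pi_pos, abs_of_pos hl]
  rw [e2]
  have hπ := Real.pi_pos
  have hπ3 := Real.pi_gt_three
  calc (2 * Real.pi * lam)⁻¹ * ‖∫ s, G' s * E lam σ s‖
      ≤ (2 * Real.pi * lam)⁻¹ * (M * (2 * δ)⁻¹ * (b - a) + M * (Real.pi / δ)) :=
        mul_le_mul_of_nonneg_left n2 (by positivity)
    _ = (M * (b - a) / (4 * Real.pi) + M / 2) / (lam * δ) := by field_simp; ring
    _ ≤ (M * (b - a) + M * Real.pi) / (lam * δ) := by
        refine div_le_div_of_nonneg_right ?_ (by positivity)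
        have : M * (b - a) / (4 * Real.pi) ≤ M * (b - a) :=
          div_le_self (mul_nonneg hM0 (by linarith)) (by linarith)
        nlinarith

/-- The second derivative test. -/
theorem osc_bound {a b : ℝ} (hab : a ≤ b) {R : ℝ → ℝ} (hR : Wt a b R) :
    ∃ C : ℝ, 0 ≤ C ∧ ∀ lam : ℝ, 0 < lam → ∀ σ : ℝ, ‖Osc R lam σ‖ ≤ C * (√lam)⁻¹ := by
  obtain ⟨M1, hM1, h1⟩ := hR.bdd
  obtain ⟨M2, hM2, h2⟩ := hR.deriv.bdd
  obtain ⟨M3, hM3, h3⟩ := (hR.mul_left (g := fun s => 3 * s) (by fun_prop)).bdd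
  set M := M1 + M2 + M3 with hM
  have hM0 : 0 ≤ M := by positivity
  refine ⟨M * Real.pi + (M * (b - a) + M * Real.pi), ?_, fun lam hl σ => ?_⟩
  · have := Real.pi_pos
    have : 0 ≤ b - a := by linarith
    positivity
  have hs : 0 < √lam := Real.sqrt_pos.2 hl
  have h := osc_bound_aux hab hR hM0 (fun s => (h3 s).trans (by linarith))
    (fun s => (h1 s).trans (by linarith)) (fun s => (h2 s).trans (by linarith)) hl (δ := (√lam)⁻¹)
    (by positivity) σ
  refine h.trans (le_of_eq ?_)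
  have e : lam * (√lam)⁻¹ = √lam := by
    nth_rewrite 1 [← Real.mul_self_sqrt hl.le]
    field_simp
  rw [e, div_eq_mul_inv, ← add_mul]

end Pool.Agent.PG3
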