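import Pool.Agent.PG3.Osc1

/-! The oscillatory integral: dependence on `σ` and decay. -/

open MeasureTheory Set Filter Topology Complex
open scoped ContDiff

namespace Pool.Agent.PG3

open Pool.Agent.ANT

theorem zero_notMem {a b : ℝ} (ha : 0 < a) : (0 : ℝ) ∉ Icc a b := fun h => absurd h.1 (not_le.2 ha)

/-- `R(s) / (3 s)`. -/
noncomputable def q3 (R : ℝ → ℝ) (s : ℝ) : ℝ := 1 / 3 * (R s * (s - 0)⁻¹)

theorem Wt.q3 {a b : ℝ} {R : ℝ → ℝ} (ha : 0 < a) (h : Wt a b R) : Wt a b (q3 R) :=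
  (h.div_sub (zero_notMem ha)).mul_left contDiff_const

theorem q3_mul {a b : ℝ} {R : ℝ → ℝ} (ha : 0 < a) (h : Wt a b R) (s : ℝ) : 3 * s * q3 R s = R s := by
  unfold q3
  rcases eq_or_ne s 0 with rfl | hs
  · rw [h.supp 0 (zero_notMem ha)]; simp
  · rw [sub_zero]; field_simp

theorem osc_q3 {a b : ℝ} {R : ℝ → ℝ} (ha : 0 < a) (h : Wt a b R) (lam σ : ℝ) :
    Osc (q3 R) lam σ = ∫ s, (R s : ℂ) * E lam σ s := by
  unfold Osc
  simp_rw [q3_mul ha h]

theorem Wt.mul_id {a b : ℝ} {R : ℝ → ℝ} (h : Wt a b R) : Wt a b (fun s => s * R s) :=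
  h.mul_left contDiff_id

/-- The derivative in `σ`. -/
theorem osc_hasDeriv {a b : ℝ} (ha : 0 < a) {R : ℝ → ℝ} (hR : Wt a b R) (lam σ : ℝ) :
    HasDerivAt (fun x => Osc R lam x)
      (3 / 2 * (Osc (q3 fun s => s * deriv R s + R s) lam σ + σ * Osc (q3 (deriv R)) lam σ)) σ := by
  have hRc := hR.continuous
  have hF : Continuous fun s : ℝ => ((3 * s * R s : ℝ) : ℂ) := by fun_prop
  have hE := continuous_E lam σ
  set K : ℝ := 2 * Real.pi * (|lam| * (3 / 2 * (b + |σ| + 1) ^ 2)) with hK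
  have key := hasDerivAt_integral_of_dominated_loc_of_deriv_le (μ := volume) (𝕜 := ℝ)
    (F := fun x s => ((3 * s * R s : ℝ) : ℂ) * E lam x s) (x₀ := σ) (s := Metric.ball σ 1)
    (F' := fun x s => ((3 * s * R s : ℝ) : ℂ) *
      (2 * Real.pi * (lam * (-(3 / 2) * ((s - x) * (s + x))) : ℝ) * I * E lam x s))
    (bound := fun s => |3 * s * R s| * K) (Metric.ball_mem_nhds σ one_pos) ?_ ?_ ?_ ?_ ?_ ?_
  · have h2 := key.2
    have e : (∫ s, ((3 * s * R s : ℝ) : ℂ) *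
        (2 * Real.pi * (lam * (-(3 / 2) * ((s - σ) * (s + σ))) : ℝ) * I * E lam σ s)) =
        3 / 2 * (Osc (q3 fun s => s * deriv R s + R s) lam σ + σ * Osc (q3 (deriv R)) lam σ) := by
      have hG : ∀ s, HasDerivAt (fun t : ℝ => ((R t * (t + σ) : ℝ) : ℂ))
          ((deriv R s * (s + σ) + R s : ℝ) : ℂ) s := by
        intro s
        have h3 := (hR.hasDerivAt s).mul ((hasDerivAt_id s).add_const σ)
        refine (h3.congr_deriv ?_).ofReal_comp
        simp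
      have hDc := hR.deriv.continuous
      have hib := ibp (a := a) (b := b) hG (by fun_prop) (fun s hs => by simp [hR.supp s hs])
        (fun s hs => by simp [hR.supp s hs, hR.deriv.supp s hs]) lam σ
      have e1 : (∫ s, ((3 * s * R s : ℝ) : ℂ) *
          (2 * Real.pi * (lam * (-(3 / 2) * ((s - σ) * (s + σ))) : ℝ) * I * E lam σ s)) =
          -(3 / 2) * ∫ s, ((R s * (s + σ) : ℝ) : ℂ) *
            (2 * Real.pi * (lam * (3 * s * (s - σ)) : ℝ) * I * E lam σ s) := by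
        rw [← integral_const_mul]
        congr 1
        funext s
        push_cast
        ring
      rw [e1, hib, osc_q3 ha (hR.deriv.mul_id.add hR), osc_q3 ha hR.deriv, ← integral_const_mul,
        ← integral_add]
      · rw [neg_mul_neg]
        congr 1
        congr 1
        funext s
        push_cast
        ring
      · exact integrable_of_supp (a := a) (b := b) (by fun_prop) fun s hs => by
          simp [hR.supp s hs, hR.deriv.supp s hs]
      · exact integrable_of_supp (a := a) (b := b) (by fun_prop) fun s hs => by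
          simp [hR.deriv.supp s hs]
    rw [e] at h2
    exact h2
  · exact Eventually.of_forall fun x => (hF.mul (continuous_E lam x)).aestronglyMeasurable
  · exact integrable_of_supp (a := a) (b := b) (hF.mul hE) fun s hs => by simp [hR.supp s hs]
  · exact (Continuous.aestronglyMeasurable (by fun_prop))
  · refine Eventually.of_forall fun s x hx => ?_
    rw [norm_mul, Complex.norm_real, Real.norm_eq_abs]
    by_cases hs : s ∈ Icc a b
    · refine mul_le_mul_of_nonneg_left ?_ (abs_nonneg _)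
      rw [norm_mul, norm_E, mul_one, norm_mul, norm_mul, norm_I, mul_one, Complex.norm_real,
        Real.norm_eq_abs]
      have hπ : ‖(2 * Real.pi : ℂ)‖ = 2 * Real.pi := by simp [abs_of_pos Real.pi_pos]
      rw [hπ, hK]
      refine mul_le_mul_of_nonneg_left ?_ (by have := Real.pi_pos; positivity)
      rw [abs_mul]
      refine mul_le_mul_of_nonneg_left ?_ (abs_nonneg _)
      rw [abs_mul, abs_mul, abs_neg, abs_of_pos (show (0 : ℝ) < 3 / 2 by norm_num), sq]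
      have hx1 : |x - σ| < 1 := by simpa [Real.dist_eq] using hx
      have hx2 : |x| ≤ |σ| + 1 := by
        have := abs_sub_abs_le_abs_sub x σ
        linarith
      have hs1 : |s| ≤ b := by rw [abs_of_pos (by linarith [hs.1])]; exact hs.2
      have h5 : |s - x| ≤ b + |σ| + 1 := (abs_sub _ _).trans (by linarith)
      have h6 : |s + x| ≤ b + |σ| + 1 := (abs_add_le _ _).trans (by linarith)
      exact mul_le_mul_of_nonneg_left (mul_le_mul h5 h6 (abs_nonneg _) ((abs_nonneg _).trans h5)) (by norm_num)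
    · rw [hR.supp s hs]; simp
  · refine Continuous.integrable_of_hasCompactSupport (by fun_prop) ?_
    exact HasCompactSupport.intro (K := Icc a b) isCompact_Icc fun s hs => by rw [hR.supp s hs]; simp
  · exact Eventually.of_forall fun s x _ => (E_hasDeriv_σ lam x s).const_mul _

theorem osc_lip {a b : ℝ} (ha : 0 < a) (hab : a ≤ b) {R : ℝ → ℝ} (hR : Wt a b R) {R₀ : ℝ}
    (hR₀ : 0 ≤ R₀) : ∃ C : ℝ, 0 ≤ C ∧ ∀ lam : ℝ, 0 < lam → ∀ σ τ : ℝ, |σ| ≤ R₀ → |τ| ≤ R₀ →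
      ‖Osc R lam τ - Osc R lam σ‖ ≤ C * (√lam)⁻¹ * |τ - σ| := by
  obtain ⟨C₁, hC₁, h₁⟩ := osc_bound hab (Wt.q3 ha (hR.deriv.mul_id.add hR))
  obtain ⟨C₂, hC₂, h₂⟩ := osc_bound hab (Wt.q3 ha hR.deriv)
  refine ⟨3 / 2 * (C₁ + R₀ * C₂), by positivity, fun lam hl σ τ hσ hτ => ?_⟩
  have hs : 0 < (√lam)⁻¹ := inv_pos.2 (Real.sqrt_pos.2 hl)
  refine Convex.norm_image_sub_le_of_norm_hasDerivWithin_le (s := Icc (-R₀) R₀)
    (f' := fun x => 3 / 2 * (Osc (q3 fun s => s * deriv R s + R s) lam x + x * Osc (q3 (deriv R)) lam x))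
    (fun x _ => (osc_hasDeriv ha hR lam x).hasDerivWithinAt) (fun x hx => ?_) (convex_Icc _ _)
    (abs_le.1 hσ) (abs_le.1 hτ)
  have h3 : ‖(3 / 2 : ℂ)‖ = 3 / 2 := by norm_num
  rw [norm_mul, h3]
  have hx' : |x| ≤ R₀ := abs_le.2 hx
  calc 3 / 2 * ‖Osc (q3 fun s => s * deriv R s + R s) lam x + x * Osc (q3 (deriv R)) lam x‖
      ≤ 3 / 2 * (C₁ * (√lam)⁻¹ + R₀ * (C₂ * (√lam)⁻¹)) := by
        refine mul_le_mul_of_nonneg_left ((norm_add_le _ _).trans (add_le_add (h₁ lam hl x) ?_)) (by norm_num)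
        rw [norm_mul, Complex.norm_real, Real.norm_eq_abs]
        exact mul_le_mul hx' (h₂ lam hl x) (norm_nonneg _) hR₀
    _ = _ := by ring

theorem wt_hasDerivAt_inv_pow {a b : ℝ} {R : ℝ → ℝ} (h : Wt a b R) {c : ℝ} (hc : c ∉ Icc a b) (n : ℕ)
    (s : ℝ) : HasDerivAt (fun t => R t * ((t - c)⁻¹) ^ n)
      (deriv R s * ((s - c)⁻¹) ^ n - n * R s * ((s - c)⁻¹) ^ (n + 1)) s := by
  rcases eq_or_ne s c with rfl | hs
  · rw [h.deriv.supp s hc, h.supp s hc]
    simp only [zero_mul, mul_zero, sub_zero]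
    have : (fun t => R t * ((t - s)⁻¹) ^ n) =ᶠ[𝓝 s] fun _ => 0 := by
      filter_upwards [h.ev_zero hc] with t ht
      rw [ht, zero_mul]
    exact (hasDerivAt_const s (0 : ℝ)).congr_of_eventuallyEq this
  · have h0 : s - c ≠ 0 := sub_ne_zero.2 hs
    have h1 : HasDerivAt (fun t : ℝ => (t - c)⁻¹) (-1 / (s - c) ^ 2) s :=
      ((hasDerivAt_id s).sub_const c).inv h0
    refine ((h.hasDerivAt s).fun_mul (h1.fun_pow n)).congr_deriv ?_
    rcases n with _ | n
    · simp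
    · have h2 : -1 / (s - c) ^ 2 = -((s - c)⁻¹) ^ 2 := by field_simp
      rw [h2, Nat.add_sub_cancel]
      push_cast
      ring

theorem wt_inv_pow {a b : ℝ} {R : ℝ → ℝ} (h : Wt a b R) {c : ℝ} (hc : c ∉ Icc a b) (n : ℕ) :
    Wt a b (fun t => R t * ((t - c)⁻¹) ^ n) := by
  induction n with
  | zero => simpa using h
  | succ n ih =>
    have := ih.div_sub hc
    refine ⟨?_, fun s hs => by rw [h.supp s hs, zero_mul]⟩
    have e : (fun t => R t * ((t - c)⁻¹) ^ (n + 1)) = fun t => R t * ((t - c)⁻¹) ^ n * (t - c)⁻¹ := by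
      funext t; ring
    rw [e]; exact this.smooth

theorem mul_inv_cancel_supp {a b : ℝ} {R : ℝ → ℝ} (h : Wt a b R) {c : ℝ} (hc : c ∉ Icc a b) (s : ℝ)
    (n : ℕ) : (s - c) * (R s * ((s - c)⁻¹) ^ (n + 1)) = R s * ((s - c)⁻¹) ^ n := by
  rcases eq_or_ne s c with rfl | hs
  · rw [h.supp s hc]; simp
  · have h0 : s - c ≠ 0 := sub_ne_zero.2 hs
    rw [pow_succ]; field_simp

/-- Decay in `σ`. -/
theorem osc_tail {a b : ℝ} (ha : 0 < a) (hab : a ≤ b) {R : ℝ → ℝ} (hR : Wt a b R) :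
    ∃ C : ℝ, 0 ≤ C ∧ ∀ lam : ℝ, 0 < lam → ∀ σ : ℝ, 2 * b + 2 ≤ |σ| →
      ‖Osc R lam σ‖ ≤ C * (lam ^ 2 * σ ^ 2)⁻¹ := by
  have hA := Wt.q3 ha hR.deriv
  have hB := Wt.q3 ha hR
  obtain ⟨M1, hM1, h1⟩ := hA.bdd
  obtain ⟨M2, hM2, h2⟩ := hB.bdd
  obtain ⟨M3, hM3, h3⟩ := hA.deriv.bdd
  obtain ⟨M4, hM4, h4⟩ := hB.deriv.bdd
  set M := M1 + M2 + M3 + M4 with hM
  refine ⟨28 * M * (b - a), by have : 0 ≤ b - a := by linarith
                               positivity, fun lam hl σ hσ => ?_⟩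
  have hb : 0 < b := lt_of_lt_of_le ha hab
  have hσ0 : 0 < |σ| := by linarith
  have hc : σ ∉ Icc a b := by
    intro h
    rw [abs_of_pos (by linarith [h.1])] at hσ
    linarith [h.2]
  have hE := continuous_E lam σ
  -- first integration by parts
  have hG1 := fun s => (wt_hasDerivAt_inv_pow hR hc 1 s).ofReal_comp
  have w1 := wt_inv_pow hR hc 1
  have w1' : Wt a b (fun s => deriv R s * ((s - σ)⁻¹) ^ 1 - (1 : ℕ) * R s * ((s - σ)⁻¹) ^ (1 + 1)) := by
    have := w1.deriv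
    have e : deriv (fun t => R t * ((t - σ)⁻¹) ^ 1) =
        fun s => deriv R s * ((s - σ)⁻¹) ^ 1 - (1 : ℕ) * R s * ((s - σ)⁻¹) ^ (1 + 1) := by
      funext s; exact (wt_hasDerivAt_inv_pow hR hc 1 s).deriv
    rwa [e] at this
  have i1 := ibp (a := a) (b := b) hG1 (Complex.continuous_ofReal.comp w1'.continuous)
    (fun s hs => by simp [hR.supp s hs]) (fun s hs => by simp [hR.supp s hs, hR.deriv.supp s hs]) lam σ
  -- second integration by parts
  have hG2 := fun s => ((wt_hasDerivAt_inv_pow hA hc 2 s).fun_sub (wt_hasDerivAt_inv_pow hB hc 3 s)).ofReal_comp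
  have w2 : Wt a b (fun s => q3 (deriv R) s * ((s - σ)⁻¹) ^ 2 + -1 * (q3 R s * ((s - σ)⁻¹) ^ 3)) :=
    (wt_inv_pow hA hc 2).add ((wt_inv_pow hB hc 3).mul_left contDiff_const)
  have w2' : Wt a b (fun s => deriv (q3 (deriv R)) s * ((s - σ)⁻¹) ^ 2 -
      (2 : ℕ) * q3 (deriv R) s * ((s - σ)⁻¹) ^ (2 + 1) -
      (deriv (q3 R) s * ((s - σ)⁻¹) ^ 3 - (3 : ℕ) * q3 R s * ((s - σ)⁻¹) ^ (3 + 1))) := by
    have := w2.deriv
    have e : deriv (fun s => q3 (deriv R) s * ((s - σ)⁻¹) ^ 2 + -1 * (q3 R s * ((s - σ)⁻¹) ^ 3)) =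
        (fun s => deriv (q3 (deriv R)) s * ((s - σ)⁻¹) ^ 2 -
      (2 : ℕ) * q3 (deriv R) s * ((s - σ)⁻¹) ^ (2 + 1) -
      (deriv (q3 R) s * ((s - σ)⁻¹) ^ 3 - (3 : ℕ) * q3 R s * ((s - σ)⁻¹) ^ (3 + 1))) := by
      funext s
      refine HasDerivAt.deriv ?_
      refine ((wt_hasDerivAt_inv_pow hA hc 2 s).add ((wt_hasDerivAt_inv_pow hB hc 3 s).const_mul (-1))).congr_deriv ?_
      ring
    rwa [e] at this
  have i2 := ibp (a := a) (b := b) hG2 (Complex.continuous_ofReal.comp w2'.continuous)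
    (fun s hs => by simp [hA.supp s hs, hB.supp s hs]) (fun s hs => by
      simp [hA.supp s hs, hB.supp s hs, hA.deriv.supp s hs, hB.deriv.supp s hs]) lam σ
  obtain ⟨z, hz⟩ : ∃ z : ℂ, z = 2 * Real.pi * lam * I := ⟨_, rfl⟩
  have hzn : ‖z‖ = 2 * Real.pi * lam := by
    rw [hz]; simp [abs_of_pos Real.pi_pos, abs_of_pos hl]
  have e1 : z * Osc R lam σ = ∫ s, ((R s * ((s - σ)⁻¹) ^ 1 : ℝ) : ℂ) *
      (2 * Real.pi * (lam * (3 * s * (s - σ)) : ℝ) * I * E lam σ s) := by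
    unfold Osc
    rw [← integral_const_mul]
    congr 1
    funext s
    have := mul_inv_cancel_supp hR hc s 0
    rw [pow_zero, mul_one, zero_add] at this
    have h5 : ((s - σ : ℝ) : ℂ) * ((R s * ((s - σ)⁻¹) ^ 1 : ℝ) : ℂ) = ((R s : ℝ) : ℂ) := by
      rw [← Complex.ofReal_mul, this]
    push_cast at h5 ⊢
    rw [hz]
    linear_combination (-(2 * Real.pi * lam * I * 3 * s * E lam σ s)) * h5
  have e2 : z * (∫ s, ((deriv R s * ((s - σ)⁻¹) ^ 1 - (1 : ℕ) * R s * ((s - σ)⁻¹) ^ (1 + 1) : ℝ) : ℂ) *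
      E lam σ s) = ∫ s, ((q3 (deriv R) s * ((s - σ)⁻¹) ^ 2 - q3 R s * ((s - σ)⁻¹) ^ 3 : ℝ) : ℂ) *
      (2 * Real.pi * (lam * (3 * s * (s - σ)) : ℝ) * I * E lam σ s) := by
    rw [← integral_const_mul]
    congr 1
    funext s
    have k1 := mul_inv_cancel_supp hA hc s 1
    have k2 := mul_inv_cancel_supp hB hc s 2
    have k3 := q3_mul ha hR.deriv s
    have k4 := q3_mul ha hR s
    have h5 : (3 * s * (s - σ)) * (q3 (deriv R) s * ((s - σ)⁻¹) ^ 2 - q3 R s * ((s - σ)⁻¹) ^ 3) =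
        deriv R s * ((s - σ)⁻¹) ^ 1 - (1 : ℕ) * R s * ((s - σ)⁻¹) ^ (1 + 1) := by
      norm_num only [Nat.cast_one] at k1 k2 ⊢
      linear_combination 3 * s * k1 - 3 * s * k2 + ((s - σ)⁻¹) * k3 - ((s - σ)⁻¹) ^ 2 * k4
    have h6 := congrArg (fun x : ℝ => (x : ℂ)) h5
    rw [← h6, hz]
    push_cast
    ring
  have e3 : z * (z * Osc R lam σ) = ∫ s, ((deriv (q3 (deriv R)) s * ((s - σ)⁻¹) ^ 2 -
      (2 : ℕ) * q3 (deriv R) s * ((s - σ)⁻¹) ^ (2 + 1) -
      (deriv (q3 R) s * ((s - σ)⁻¹) ^ 3 - (3 : ℕ) * q3 R s * ((s - σ)⁻¹) ^ (3 + 1)) : ℝ) : ℂ) *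
      E lam σ s := by
    rw [e1, i1, mul_neg, e2, i2, neg_neg]
  have n1 : ‖z * (z * Osc R lam σ)‖ ≤ 28 * M / σ ^ 2 * (b - a) := by
    rw [e3]
    refine norm_integral_le_supp hab (fun s hs => ?_) (fun s hs => ?_)
    · rw [w2'.supp s hs]; simp
    · rw [norm_mul, norm_E, mul_one, Complex.norm_real, Real.norm_eq_abs]
      set u : ℝ := (s - σ)⁻¹ with hu
      have hsb : |s| ≤ b := by rw [abs_of_pos (by linarith [hs.1])]; exact hs.2
      have hd : |σ| / 2 ≤ |s - σ| := by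
        have h8 := abs_sub_abs_le_abs_sub σ s
        rw [abs_sub_comm] at h8
        linarith
      have hu1 : |u| ≤ 2 / |σ| := by
        rw [hu, abs_inv, inv_le_comm₀ (by linarith) (by positivity), inv_div]
        exact hd
      have hu2 : |u| ≤ 1 := hu1.trans (by rw [div_le_one hσ0]; linarith)
      have hu3 : |u| ^ 2 ≤ 4 / σ ^ 2 := by
        have := pow_le_pow_left₀ (abs_nonneg u) hu1 2
        rw [div_pow, sq_abs σ] at this
        norm_num at this ⊢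
        exact this
      have hu0 : 0 ≤ |u| := abs_nonneg u
      have p3 : |u| ^ 3 ≤ |u| ^ 2 := pow_le_pow_of_le_one hu0 hu2 (by norm_num)
      have p4 : |u| ^ 4 ≤ |u| ^ 2 := pow_le_pow_of_le_one hu0 hu2 (by norm_num)
      have b1 : |deriv (q3 (deriv R)) s * u ^ 2| ≤ M * |u| ^ 2 := by
        rw [abs_mul, abs_pow]
        exact mul_le_mul_of_nonneg_right ((h3 s).trans (by linarith)) (by positivity)
      have b2 : |((2 : ℕ) : ℝ) * q3 (deriv R) s * u ^ (2 + 1)| ≤ 2 * M * |u| ^ 2 := by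
        rw [abs_mul, abs_mul, abs_pow]
        have : |((2 : ℕ) : ℝ)| = 2 := by norm_num
        rw [this]
        exact mul_le_mul (by linarith [h1 s]) p3 (by positivity) (by positivity)
      have b3 : |deriv (q3 R) s * u ^ 3| ≤ M * |u| ^ 2 := by
        rw [abs_mul, abs_pow]
        exact mul_le_mul ((h4 s).trans (by linarith)) p3 (by positivity) (by positivity)
      have b4 : |((3 : ℕ) : ℝ) * q3 R s * u ^ (3 + 1)| ≤ 3 * M * |u| ^ 2 := by
        rw [abs_mul, abs_mul, abs_pow]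
        have : |((3 : ℕ) : ℝ)| = 3 := by norm_num
        rw [this]
        exact mul_le_mul (by linarith [h2 s]) p4 (by positivity) (by positivity)
      have hM0 : 0 ≤ M := by positivity
      have t1 := abs_sub (deriv (q3 (deriv R)) s * u ^ 2) (((2 : ℕ) : ℝ) * q3 (deriv R) s * u ^ (2 + 1))
      have t2 := abs_sub (deriv (q3 R) s * u ^ 3) (((3 : ℕ) : ℝ) * q3 R s * u ^ (3 + 1))
      have t3 := abs_sub (deriv (q3 (deriv R)) s * u ^ 2 - ((2 : ℕ) : ℝ) * q3 (deriv R) s * u ^ (2 + 1))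
        (deriv (q3 R) s * u ^ 3 - ((3 : ℕ) : ℝ) * q3 R s * u ^ (3 + 1))
      have : 7 * (M * |u| ^ 2) ≤ 7 * (M * (4 / σ ^ 2)) :=
        mul_le_mul_of_nonneg_left (mul_le_mul_of_nonneg_left hu3 hM0) (by norm_num)
      have e5 : 28 * M / σ ^ 2 = 7 * (M * (4 / σ ^ 2)) := by ring
      rw [e5]
      refine (t3.trans (add_le_add (t1.trans (add_le_add b1 b2)) (t2.trans (add_le_add b3 b4)))).trans ?_
      refine le_trans (le_of_eq ?_) this
      ring
  rw [norm_mul, norm_mul, hzn] at n1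
  have hπ := Real.pi_gt_three
  have hσ2 : 0 < σ ^ 2 := by rw [← sq_abs]; positivity
  have h9 : (1 * lam) * (1 * lam * ‖Osc R lam σ‖) ≤ 2 * Real.pi * lam * (2 * Real.pi * lam * ‖Osc R lam σ‖) := by
    have h10 : 1 * lam ≤ 2 * Real.pi * lam := mul_le_mul_of_nonneg_right (by linarith) hl.le
    exact mul_le_mul h10 (mul_le_mul_of_nonneg_right h10 (norm_nonneg _)) (by positivity) (by positivity)
  have h10 := h9.trans n1
  rw [← div_eq_mul_inv, le_div_iff₀ (by positivity)]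
  have hσne : σ ≠ 0 := fun h => by rw [h] at hσ0; simp at hσ0
  have e6 : 28 * M / σ ^ 2 * (b - a) * σ ^ 2 = 28 * M * (b - a) := by field_simp
  calc ‖Osc R lam σ‖ * (lam ^ 2 * σ ^ 2) = (1 * lam) * (1 * lam * ‖Osc R lam σ‖) * σ ^ 2 := by ring
    _ ≤ 28 * M / σ ^ 2 * (b - a) * σ ^ 2 := mul_le_mul_of_nonneg_right h10 hσ2.le
    _ = _ := e6

end Pool.Agent.PG3
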