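import Pool.Agent.PG3.Osc2

/-! Poisson summation for `w(√x / T) e(h x^(3/2))`. -/

open MeasureTheory Set Filter Topology Complex Asymptotics
open scoped FourierTransform

namespace Pool.Agent.PG3

open Pool.Agent.ANT

/-- The weighted summand. -/
noncomputable def fw (w : ℝ → ℝ) (T : ℝ) (h : ℕ) (x : ℝ) : ℂ := (w (√x / T) : ℂ) * ee (h * (x * √x))

/-- The dual summand. -/
noncomputable def FT (w : ℝ → ℝ) (T : ℝ) (h : ℕ) (x : ℝ) : ℂ :=
  ((2 * T ^ 2 / 3 : ℝ) : ℂ) * (ee (-(4 * x ^ 3 / (27 * h ^ 2))) * Osc w (h * T ^ 3) (2 * x / (3 * h * T)))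

theorem continuous_ee : Continuous ee := by unfold ee; fun_prop

theorem fw_continuous {w : ℝ → ℝ} (hw : Continuous w) (T : ℝ) (h : ℕ) : Continuous (fw w T h) := by
  unfold fw
  have := continuous_ee
  fun_prop

theorem fw_zero {a b : ℝ} {w : ℝ → ℝ} (ha : 0 < a) (hw : Wt a b w) {T : ℝ} (hT : 0 < T) (h : ℕ) {x : ℝ}
    (hx : x ∉ Icc (a ^ 2 * T ^ 2) (b ^ 2 * T ^ 2)) : fw w T h x = 0 := by
  unfold fw
  have : √x / T ∉ Icc a b := by
    intro hs
    apply hx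
    have h1 : a * T ≤ √x := by rw [← le_div_iff₀ hT]; exact hs.1
    have h2 : √x ≤ b * T := by rw [← div_le_iff₀ hT]; exact hs.2
    have hx0 : 0 < x := by
      by_contra hneg
      rw [Real.sqrt_eq_zero'.2 (not_lt.1 hneg)] at h1
      have : 0 < a * T := by positivity
      linarith
    have h3 : √x ^ 2 = x := Real.sq_sqrt hx0.le
    have h4 : 0 < a * T := by positivity
    constructor
    · have := pow_le_pow_left₀ h4.le h1 2
      rw [h3, mul_pow] at this; exact this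
    · have := pow_le_pow_left₀ (Real.sqrt_nonneg x) h2 2
      rw [h3, mul_pow] at this; exact this
  rw [hw.supp _ this]; simp

theorem fourier_fw {a b : ℝ} {w : ℝ → ℝ} (ha : 0 < a) (hw : Wt a b w) {T : ℝ} (hT : 0 < T) {h : ℕ}
    (hh : 1 ≤ h) (ξ : ℝ) : 𝓕 (fw w T h) ξ = FT w T h ξ := by
  have hh0 : (0 : ℝ) < h := by exact_mod_cast hh
  rw [Real.fourier_real_eq_integral_exp_smul]
  have e1 : ∀ v : ℝ, Complex.exp (((-2 * Real.pi * v * ξ : ℝ) : ℂ) * I) • fw w T h v =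
      ee (-(v * ξ)) * fw w T h v := by
    intro v
    rw [smul_eq_mul]
    congr 1
    unfold ee
    congr 1
    push_cast
    ring
  simp_rw [e1]
  have e2 : ∫ v, ee (-(v * ξ)) * fw w T h v = ∫ v in Ioi (0 : ℝ), ee (-(v * ξ)) * fw w T h v := by
    rw [setIntegral_eq_integral_of_forall_compl_eq_zero]
    intro v hv
    rw [fw_zero ha hw hT h (fun hx => hv (lt_of_lt_of_le (by positivity) hx.1)), mul_zero]
  rw [e2, ← integral_comp_rpow_Ioi_of_pos (p := 2) two_pos]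
  have e3 : ∫ x in Ioi (0 : ℝ), (2 * x ^ ((2 : ℝ) - 1)) • (ee (-(x ^ (2 : ℝ) * ξ)) * fw w T h (x ^ (2 : ℝ))) =
      T • ∫ u in Ioi (0 : ℝ), ((2 * (T * u) : ℝ) : ℂ) * (ee (-((T * u) ^ 2 * ξ)) * fw w T h ((T * u) ^ 2)) := by
    have h5 := integral_comp_mul_left_Ioi (fun x : ℝ => ((2 * x : ℝ) : ℂ) * (ee (-(x ^ 2 * ξ)) * fw w T h (x ^ 2)))
      0 hT
    rw [mul_zero] at h5
    rw [h5, smul_smul, mul_inv_cancel₀ hT.ne', one_smul]
    refine setIntegral_congr_fun measurableSet_Ioi fun x _ => ?_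
    rw [show (2 : ℝ) - 1 = 1 by norm_num, Real.rpow_one, Real.rpow_two, Complex.real_smul]
  rw [e3]
  have e4 : ∀ u ∈ Ioi (0 : ℝ), ((2 * (T * u) : ℝ) : ℂ) * (ee (-((T * u) ^ 2 * ξ)) * fw w T h ((T * u) ^ 2)) =
      ((2 * T / 3 : ℝ) : ℂ) * ee (-(4 * ξ ^ 3 / (27 * h ^ 2))) *
        (((3 * u * w u : ℝ) : ℂ) * E (h * T ^ 3) (2 * ξ / (3 * h * T)) u) := by
    intro u hu
    have hu0 : (0 : ℝ) < u := hu
    unfold fw E
    rw [Real.sqrt_sq (by positivity), mul_div_cancel_left₀ _ hT.ne']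
    have e5 : ee (-((T * u) ^ 2 * ξ)) * ((w u : ℂ) * ee (h * ((T * u) ^ 2 * (T * u)))) =
        (w u : ℂ) * ee (-((T * u) ^ 2 * ξ) + h * ((T * u) ^ 2 * (T * u))) := by
      rw [ee_add]; ring
    have e6 : ee (-(4 * ξ ^ 3 / (27 * h ^ 2))) * ee (h * T ^ 3 * ps (2 * ξ / (3 * h * T)) u) =
        ee (-((T * u) ^ 2 * ξ) + h * ((T * u) ^ 2 * (T * u))) := by
      rw [← ee_add]
      congr 1
      unfold ps
      field_simp
      ring
    rw [e5, ← e6]
    push_cast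
    ring
  rw [setIntegral_congr_fun measurableSet_Ioi e4, integral_const_mul]
  have e7 : ∫ u in Ioi (0 : ℝ), ((3 * u * w u : ℝ) : ℂ) * E (h * T ^ 3) (2 * ξ / (3 * h * T)) u =
      Osc w (h * T ^ 3) (2 * ξ / (3 * h * T)) := by
    unfold Osc
    rw [setIntegral_eq_integral_of_forall_compl_eq_zero]
    intro u hu
    have : u ∉ Icc a b := fun hx => hu (lt_of_lt_of_le ha hx.1)
    rw [hw.supp u this]; simp
  rw [e7, Complex.real_smul]
  unfold FT
  push_cast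
  ring

theorem norm_FT (w : ℝ → ℝ) (T : ℝ) (h : ℕ) (x : ℝ) :
    ‖FT w T h x‖ = 2 * T ^ 2 / 3 * ‖Osc w (h * T ^ 3) (2 * x / (3 * h * T))‖ := by
  unfold FT
  rw [norm_mul, norm_mul, norm_ee, one_mul, Complex.norm_real, Real.norm_eq_abs,
    abs_of_nonneg (by positivity)]

/-- Bound for the dual summands far away. -/
theorem FT_tail {a b : ℝ} {w : ℝ → ℝ} (ha : 0 < a) (hab : a ≤ b) (hw : Wt a b w) :
    ∃ C : ℝ, 0 ≤ C ∧ ∀ T : ℝ, 0 < T → ∀ h : ℕ, 1 ≤ h → ∀ x : ℝ, 2 * b + 2 ≤ |2 * x / (3 * h * T)| →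
      ‖FT w T h x‖ ≤ C * (T ^ 2)⁻¹ * (x ^ 2)⁻¹ := by
  obtain ⟨C, hC, hb⟩ := osc_tail ha hab hw
  refine ⟨3 / 2 * C, by positivity, fun T hT h hh x hx => ?_⟩
  have hh0 : (0 : ℝ) < h := by exact_mod_cast hh
  have hx0 : x ≠ 0 := by
    rintro rfl
    rw [mul_zero, zero_div, abs_zero] at hx
    linarith
  rw [norm_FT]
  refine (mul_le_mul_of_nonneg_left (hb (h * T ^ 3) (by positivity) _ hx) (by positivity)).trans (le_of_eq ?_)
  field_simp

theorem FT_summable {a b : ℝ} {w : ℝ → ℝ} (ha : 0 < a) (hab : a ≤ b) (hw : Wt a b w) {T : ℝ}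
    (hT : 0 < T) {h : ℕ} (hh : 1 ≤ h) : Summable fun m : ℤ => FT w T h m := by
  obtain ⟨C, hC, hb⟩ := FT_tail ha hab hw
  have hh0 : (0 : ℝ) < h := by exact_mod_cast hh
  refine Summable.of_norm_bounded_eventually (g := fun m : ℤ => C * (T ^ 2)⁻¹ * |(m : ℝ)| ^ (-(2 : ℝ)))
    ((Real.summable_abs_int_rpow one_lt_two).mul_left _) ?_
  have hfin : {m : ℤ | |2 * (m : ℝ) / (3 * h * T)| < 2 * b + 2}.Finite := by
    obtain ⟨N, hN⟩ := exists_nat_gt ((2 * b + 2) * (3 * h * T))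
    refine (Set.finite_Icc (-(N : ℤ)) N).subset fun m hm => ?_
    rw [Set.mem_ofPred_eq, abs_div, abs_mul, abs_two, abs_of_pos (show (0 : ℝ) < 3 * h * T by positivity),
      div_lt_iff₀ (by positivity)] at hm
    have h1 : |(m : ℝ)| < N := by
      have := abs_nonneg (m : ℝ)
      linarith
    have h2 : |m| < N := by exact_mod_cast h1
    rw [abs_lt] at h2
    exact ⟨h2.1.le, h2.2.le⟩
  refine hfin.subset fun m hm => ?_
  by_contra hcon
  apply hm
  have h3 := hb T hT h hh m (not_lt.1 hcon)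
  refine h3.trans (le_of_eq ?_)
  rw [Real.rpow_neg (abs_nonneg _), Real.rpow_two, sq_abs]

/-- Poisson summation. -/
theorem poisson {a b : ℝ} {w : ℝ → ℝ} (ha : 0 < a) (hab : a ≤ b) (hw : Wt a b w) {T : ℝ}
    (hT : 0 < T) {h : ℕ} (hh : 1 ≤ h) : ∑' n : ℤ, fw w T h n = ∑' m : ℤ, FT w T h m := by
  have hO : fw w T h =O[cocompact ℝ] fun x : ℝ => |x| ^ (-(2 : ℝ)) := by
    refine IsBigO.of_bound 1 ?_
    have := (isCompact_Icc (a := a ^ 2 * T ^ 2) (b := b ^ 2 * T ^ 2)).compl_mem_cocompact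
    filter_upwards [this] with x hx
    rw [fw_zero ha hw hT h hx, norm_zero]
    positivity
  have hs := FT_summable ha hab hw hT hh
  have h1 := Real.tsum_eq_tsum_fourier_of_rpow_decay_of_summable (fw_continuous hw.continuous T h)
    one_lt_two hO (by simp_rw [fourier_fw ha hw hT hh]; exact hs) 0
  simp_rw [fourier_fw ha hw hT hh] at h1
  simpa using h1

theorem tsum_fw {a b : ℝ} {w : ℝ → ℝ} (ha : 0 < a) (hw : Wt a b w) {T : ℝ}
    (hT : 0 < T) (h : ℕ) {N : ℕ} (hN : b ^ 2 * T ^ 2 ≤ N) :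
    ∑' n : ℤ, fw w T h n = ∑ y ∈ Finset.Ioc 0 N, fw w T h y := by
  have h1 : ∑' n : ℤ, fw w T h n = ∑ n ∈ (Finset.Ioc 0 N).map Nat.castEmbedding, fw w T h ((n : ℤ) : ℝ) := by
    refine tsum_eq_sum fun n hn => ?_
    apply fw_zero ha hw hT h
    intro hx
    apply hn
    have h2 : (0 : ℝ) < n := lt_of_lt_of_le (by positivity) hx.1
    have h3 : (n : ℝ) ≤ N := hx.2.trans hN
    have h4 : 0 < n := by exact_mod_cast h2
    have h5 : n ≤ N := by exact_mod_cast h3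
    rw [Finset.mem_map]
    refine ⟨n.toNat, ?_, ?_⟩
    · rw [Finset.mem_Ioc]; omega
    · simp [h4.le]
  rw [h1, Finset.sum_map]
  refine Finset.sum_congr rfl fun y _ => ?_
  simp

end Pool.Agent.PG3
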