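import Mathlib

/-! Counting points with large gaps. -/

open Finset Real

namespace Pool.Agent.PG3

/-- If any `k + 1` points have span at least `L`, there are at most `k (M / L + 1)` points. -/
theorem card_of_span {k M : ℕ} {L : ℝ} (hL : 0 < L) (S : Finset ℕ) (hS : S ⊆ Ioc M (2 * M))
    (h : ∀ u : Fin (k + 1) → ℕ, StrictMono u → (∀ i, u i ∈ S) → L ≤ (u (Fin.last k) : ℝ) - u 0) :
    (S.card : ℝ) ≤ k * (M / L + 1) := by
  classical
  set g : ℕ → ℕ := fun u => ⌊((u : ℝ) - M) / L⌋₊ with hg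
  have h1 : S.card ≤ k * (S.image g).card := by
    refine Finset.card_le_mul_card_image S k fun a _ => ?_
    by_contra hc
    push Not at hc
    set F := S.filter (fun x => g x = a) with hF
    have hk : k + 1 ≤ F.card := hc
    set e := F.orderEmbOfCardLe hk with he
    have h2 : ∀ i, e i ∈ F := fun i => Finset.orderEmbOfCardLe_mem F hk i
    have h3 : ∀ i, e i ∈ S := fun i => (Finset.mem_filter.1 (h2 i)).1
    have h4 : ∀ i, g (e i) = a := fun i => (Finset.mem_filter.1 (h2 i)).2
    have h5 := h (fun i => e i) e.strictMono h3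
    have h6 := h4 (Fin.last k)
    have h7 := h4 0
    rw [hg] at h6 h7
    simp only at h6 h7
    have h8 := (Finset.mem_Ioc.1 (hS (h3 0))).1
    have h8' : (M : ℝ) < e 0 := by exact_mod_cast h8
    have h9 := (Finset.mem_Ioc.1 (hS (h3 (Fin.last k)))).1
    have h9' : (M : ℝ) < e (Fin.last k) := by exact_mod_cast h9
    have a1 := Nat.lt_floor_add_one ((((e (Fin.last k) : ℕ) : ℝ) - M) / L)
    have a2 := Nat.floor_le (show 0 ≤ (((e 0 : ℕ) : ℝ) - M) / L from div_nonneg (by linarith) hL.le)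
    rw [h6] at a1
    rw [h7] at a2
    have a3 : (((e (Fin.last k) : ℕ) : ℝ) - M) / L < (((e 0 : ℕ) : ℝ) - M) / L + 1 := by linarith
    have a4 : (((e (Fin.last k) : ℕ) : ℝ) - M) < (((e 0 : ℕ) : ℝ) - M) + L := by
      have := mul_lt_mul_of_pos_right a3 hL
      rwa [add_mul, div_mul_cancel₀ _ hL.ne', div_mul_cancel₀ _ hL.ne', one_mul] at this
    linarith
  have h2 : S.image g ⊆ range (⌊(M : ℝ) / L⌋₊ + 1) := by
    intro x hx
    rw [Finset.mem_image] at hx
    obtain ⟨u, hu, rfl⟩ := hx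
    rw [Finset.mem_range, Nat.lt_add_one_iff]
    have h3 := (Finset.mem_Ioc.1 (hS hu)).2
    have h3' : (u : ℝ) ≤ 2 * M := by exact_mod_cast h3
    refine Nat.floor_le_floor ?_
    exact div_le_div_of_nonneg_right (by linarith) hL.le
  have h3 : (S.image g).card ≤ ⌊(M : ℝ) / L⌋₊ + 1 := by
    refine (Finset.card_le_card h2).trans ?_
    rw [Finset.card_range]
  have h4 : (S.card : ℝ) ≤ k * (⌊(M : ℝ) / L⌋₊ + 1) := by
    exact_mod_cast h1.trans (Nat.mul_le_mul_left k h3)
  refine h4.trans (mul_le_mul_of_nonneg_left ?_ (Nat.cast_nonneg _))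
  have := Nat.floor_le (show 0 ≤ (M : ℝ) / L by positivity)
  linarith

theorem dyadic {P : ℕ → Prop} [DecidablePred P] {e C : ℝ} (he : 1 / 2 ≤ e) (hC : 0 ≤ C) {M₀ : ℕ}
    (h : ∀ M : ℕ, M₀ ≤ M → 1 ≤ M → (((Ioc M (2 * M)).filter P).card : ℝ) ≤ C * (M : ℝ) ^ e) :
    ∀ U : ℕ, 1 ≤ U → (((range (U + 1)).filter P).card : ℝ) ≤ (5 * C + 2 * M₀ + 4) * (U : ℝ) ^ e := by
  intro U
  induction U using Nat.strong_induction_on with
  | _ U ih =>
    intro hU
    have hU1 : (1 : ℝ) ≤ U := by exact_mod_cast hU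
    have hUe : 1 ≤ (U : ℝ) ^ e := Real.one_le_rpow hU1 (by linarith)
    rcases le_or_gt U (2 * M₀ + 3) with hs | hs
    · have h1 : ((range (U + 1)).filter P).card ≤ U + 1 :=
        (Finset.card_filter_le _ _).trans (by rw [Finset.card_range])
      have h2 : (((range (U + 1)).filter P).card : ℝ) ≤ 2 * M₀ + 4 := by
        have : ((range (U + 1)).filter P).card ≤ 2 * M₀ + 4 := by omega
        exact_mod_cast this
      have h3 : (0 : ℝ) ≤ 2 * M₀ + 4 := by positivity
      nlinarith
    · set M := (U + 1) / 2 with hM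
      have hM1 : 1 ≤ M := by omega
      have hM2 : M₀ ≤ M := by omega
      have hM3 : M < U := by omega
      have hM4 : U ≤ 2 * M := by omega
      have hM5 : 3 * M ≤ 2 * U := by omega
      have h1 := ih M hM3 hM1
      have h2 := h M hM2 hM1
      have hsub : (range (U + 1)).filter P ⊆ (range (M + 1)).filter P ∪ (Ioc M (2 * M)).filter P := by
        intro x hx
        rw [Finset.mem_filter, Finset.mem_range] at hx
        rw [Finset.mem_union, Finset.mem_filter, Finset.mem_filter, Finset.mem_range, Finset.mem_Ioc]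
        rcases le_or_gt x M with h3 | h3
        · exact Or.inl ⟨by omega, hx.2⟩
        · exact Or.inr ⟨⟨h3, by omega⟩, hx.2⟩
      have h3 : (((range (U + 1)).filter P).card : ℝ) ≤
          ((range (M + 1)).filter P).card + ((Ioc M (2 * M)).filter P).card := by
        exact_mod_cast (Finset.card_le_card hsub).trans (Finset.card_union_le _ _)
      have hM0 : (0 : ℝ) < M := by exact_mod_cast hM1
      have h4 : (M : ℝ) ≤ 2 / 3 * U := by
        have : (3 : ℝ) * M ≤ 2 * U := by exact_mod_cast hM5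
        linarith
      have h5 : (M : ℝ) ^ e ≤ 0.82 * (U : ℝ) ^ e := by
        have e1 : (2 / 3 : ℝ) ^ e ≤ 0.82 := by
          have e2 : (2 / 3 : ℝ) ^ e ≤ (2 / 3 : ℝ) ^ (1 / 2 : ℝ) :=
            Real.rpow_le_rpow_of_exponent_ge (by norm_num) (by norm_num) he
          refine e2.trans ?_
          rw [← Real.sqrt_eq_rpow, Real.sqrt_le_left (by norm_num)]
          norm_num
        calc (M : ℝ) ^ e ≤ (2 / 3 * (U : ℝ)) ^ e := Real.rpow_le_rpow hM0.le h4 (by linarith)
          _ = (2 / 3 : ℝ) ^ e * (U : ℝ) ^ e := Real.mul_rpow (by norm_num) (by linarith)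
          _ ≤ _ := mul_le_mul_of_nonneg_right e1 (by positivity)
      have h6 : (((range (U + 1)).filter P).card : ℝ) ≤ (5 * C + 2 * M₀ + 4 + C) * (M : ℝ) ^ e := by
        rw [add_mul]; linarith
      refine h6.trans ((mul_le_mul_of_nonneg_left h5 (by positivity)).trans ?_)
      rw [← mul_assoc]
      refine mul_le_mul_of_nonneg_right ?_ (by positivity)
      have : (0 : ℝ) ≤ M₀ := by positivity
      linarith

end Pool.Agent.PG3
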