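import Pool.Agent.PG3.Pois

/-! The shift `m ↦ m + 9 h j` in the dual sum. -/

open Filter Topology Complex Finset

namespace Pool.Agent.PG3

open Pool.Agent.ANT

theorem sum_range_ee (θ : ℝ) (k : ℕ) :
    ee θ * ∑ i ∈ range k, ee (i * θ) = ∑ l ∈ Ioc 0 k, ee (l * θ) := by
  induction k with
  | zero => simp
  | succ k ih =>
    rw [Finset.sum_range_succ, mul_add, ih, Finset.sum_Ioc_succ_top (Nat.zero_le _), ← ee_add]
    congr 2
    push_cast
    ring

theorem norm_sum_range_ee {θ T : ℝ} (hT : 0 < T) {k : ℕ} (hk : (k : ℝ) ≤ T) :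
    ‖∑ i ∈ range k, ee (i * θ)‖ ≤ Fy T θ := by
  have h := norm_geom_le (θ := θ) hT (A := 0) (B := k) (by simpa using hk)
  rw [← sum_range_ee, norm_mul, norm_ee, one_mul] at h
  exact h

theorem abel_c {θ T : ℝ} (hT : 0 < T) {J : ℕ} (hJ : (J : ℝ) ≤ T) {g : ℕ → ℂ} {B V : ℝ} (hB : 0 ≤ B)
    (hV : 0 ≤ V) (h1 : ∀ j, j < J → ‖g j‖ ≤ B) (h2 : ∀ j, j + 1 < J → ‖g (j + 1) - g j‖ ≤ V) :
    ‖∑ j ∈ range J, g j * ee (j * θ)‖ ≤ (B + J * V) * Fy T θ := by
  have hF := Fy_pos hT θ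
  rcases Nat.eq_zero_or_pos J with rfl | hJ0
  · simp; positivity
  have h := Finset.sum_range_by_parts g (fun j : ℕ => ee (j * θ)) J
  simp only [smul_eq_mul] at h
  rw [h]
  have n1 : ‖g (J - 1) * ∑ i ∈ range J, ee (i * θ)‖ ≤ B * Fy T θ := by
    rw [norm_mul]
    exact mul_le_mul (h1 _ (by omega)) (norm_sum_range_ee hT hJ) (norm_nonneg _) hB
  have n2 : ‖∑ i ∈ range (J - 1), (g (i + 1) - g i) * ∑ i ∈ range (i + 1), ee (i * θ)‖ ≤
      J * (V * Fy T θ) := by
    refine (norm_sum_le _ _).trans ?_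
    calc _ ≤ ∑ i ∈ range (J - 1), V * Fy T θ := by
          refine Finset.sum_le_sum fun i hi => ?_
          rw [Finset.mem_range] at hi
          rw [norm_mul]
          refine mul_le_mul (h2 i (by omega)) (norm_sum_range_ee hT ?_) (norm_nonneg _) hV
          refine le_trans ?_ hJ
          exact_mod_cast (by omega : i + 1 ≤ J)
      _ = ((J - 1 : ℕ) : ℝ) * (V * Fy T θ) := by rw [Finset.sum_const, Finset.card_range, nsmul_eq_mul]
      _ ≤ _ := by
          refine mul_le_mul_of_nonneg_right ?_ (by positivity)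
          exact_mod_cast (by omega : J - 1 ≤ J)
  refine (norm_sub_le _ _).trans ?_
  linarith

theorem FT_shift (w : ℝ → ℝ) {T : ℝ} (hT : 0 < T) {h : ℕ} (hh : 1 ≤ h) (m : ℤ) (j : ℕ) :
    FT w T h ((m + 9 * h * j : ℤ) : ℝ) = ((2 * T ^ 2 / 3 : ℝ) : ℂ) * ee (-(4 * (m : ℝ) ^ 3 / (27 * h ^ 2))) *
      (Osc w (h * T ^ 3) (2 * m / (3 * h * T) + 6 * j / T) * ee (j * (-(4 * (m : ℝ) ^ 2 / h)))) := by
  have hh0 : (0 : ℝ) < h := by exact_mod_cast hh
  unfold FT
  have e1 : 2 * ((m + 9 * h * j : ℤ) : ℝ) / (3 * h * T) = 2 * m / (3 * h * T) + 6 * j / T := by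
    push_cast
    field_simp
    ring
  have e2 : -(4 * ((m + 9 * h * j : ℤ) : ℝ) ^ 3 / (27 * h ^ 2)) =
      -(4 * (m : ℝ) ^ 3 / (27 * h ^ 2)) + (j * (-(4 * (m : ℝ) ^ 2 / h)) +
        ((-(36 * j ^ 2 * m + 108 * h * j ^ 3) : ℤ) : ℝ)) := by
    push_cast
    field_simp
    ring
  rw [e1, e2, ee_add, ee_add_int]
  ring

/-- The arithmetic sum. -/
noncomputable def D (h : ℕ) (T : ℝ) : ℝ := ∑ m ∈ range h, Fy T (-(4 * (m : ℝ) ^ 2 / h))

theorem nn_add_int (x : ℝ) (k : ℤ) : nn (x + k) = nn x := by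
  unfold nn
  rw [round_add_intCast]
  push_cast
  congr 1
  ring

theorem Fy_add_int (T x : ℝ) (k : ℤ) : Fy T (x + k) = Fy T x := by
  unfold Fy
  rw [nn_add_int]

theorem sum_periodic {g : ℤ → ℝ} {h : ℕ} (hg : ∀ m, g (m + h) = g m) (K : ℕ) :
    ∑ m ∈ Ico (-(K * h : ℤ)) (K * h), g m = 2 * K * ∑ m ∈ range h, g m := by
  have hp : ∀ (L : ℕ) (m : ℤ), g (m + L * h) = g m := by
    intro L
    induction L with
    | zero => intro m; simp
    | succ L ih =>
      intro m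
      rw [show m + ((L + 1 : ℕ) : ℤ) * h = (m + L * h) + h by push_cast; ring, hg, ih]
  have h1 : ∀ L : ℕ, ∑ i ∈ range (L * h), g ((i : ℕ) : ℤ) = L * ∑ m ∈ range h, g m := by
    intro L
    induction L with
    | zero => simp
    | succ L ih =>
      rw [Nat.succ_mul, Finset.sum_range_add, ih]
      have : ∑ x ∈ range h, g (((L * h + x : ℕ) : ℕ) : ℤ) = ∑ m ∈ range h, g m := by
        refine Finset.sum_congr rfl fun x _ => ?_
        rw [← hp L x]
        congr 1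
        push_cast
        ring
      rw [this]
      push_cast
      ring
  have h2 : ∑ m ∈ Ico (-(K * h : ℤ)) (K * h), g m = ∑ i ∈ range (2 * K * h), g ((i : ℤ) - K * h) := by
    refine Finset.sum_bij' (fun (m : ℤ) _ => (m + K * h).toNat) (fun (i : ℕ) _ => (i : ℤ) - K * h)
      ?_ ?_ ?_ ?_ ?_
    · intro m hm
      rw [Finset.mem_Ico] at hm
      rw [Finset.mem_range]
      have h0 : 0 ≤ m + K * h := by linarith
      have : ((m + K * h).toNat : ℤ) < ((2 * K * h : ℕ) : ℤ) := by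
        rw [Int.toNat_of_nonneg h0]
        push_cast
        linarith
      exact_mod_cast this
    · intro i hi
      rw [Finset.mem_range] at hi
      rw [Finset.mem_Ico]
      have : (i : ℤ) < 2 * K * h := by exact_mod_cast hi
      constructor <;> nlinarith
    · intro m hm
      rw [Finset.mem_Ico] at hm
      rw [Int.toNat_of_nonneg (by linarith)]
      ring
    · intro i _
      simp
    · intro m hm
      rw [Finset.mem_Ico] at hm
      rw [Int.toNat_of_nonneg (by linarith)]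
      congr 1
      ring
  rw [h2]
  have h3 : ∀ i ∈ range (2 * K * h), g ((i : ℤ) - K * h) = g (i : ℤ) := by
    intro i _
    have := hp K ((i : ℤ) - K * h)
    rw [sub_add_cancel] at this
    exact this.symm
  rw [Finset.sum_congr rfl h3, h1]
  push_cast
  ring

/-- The exponential sum with smooth weights. -/
theorem dual_bound {a b : ℝ} {w : ℝ → ℝ} (ha : 0 < a) (hab : a ≤ b) (hw : Wt a b w) :
    ∃ C : ℝ, 0 ≤ C ∧ ∀ T : ℝ, 1 ≤ T → ∀ h : ℕ, 1 ≤ h →
      ‖∑' m : ℤ, FT w T h m‖ ≤ C * (√T * (√(h : ℝ))⁻¹ * D h T + 1) := by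
  have hb : 0 < b := lt_of_lt_of_le ha hab
  obtain ⟨C₁, hC₁, h₁⟩ := osc_bound hab hw
  obtain ⟨C₂, hC₂, h₂⟩ := osc_lip ha hab hw (R₀ := 2 / 3 * (25 + 6 * b) + 6) (by positivity)
  obtain ⟨C₃, hC₃, h₃⟩ := FT_tail ha hab hw
  set Z : ℝ := ∑' m : ℤ, |(m : ℝ)| ^ (-(2 : ℝ)) with hZ
  have hZs : Summable fun m : ℤ => |(m : ℝ)| ^ (-(2 : ℝ)) := Real.summable_abs_int_rpow one_lt_two
  have hZ0 : 0 ≤ Z := tsum_nonneg fun m => by positivity
  set C₄ : ℝ := C₁ + 6 * C₂ with hC₄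
  refine ⟨4 * (25 + 6 * b) * (2 / 3 * C₄) + 4 * C₃ * Z, by positivity, fun T hT h hh => ?_⟩
  have hT0 : 0 < T := by linarith
  have hh0 : (0 : ℝ) < h := by exact_mod_cast hh
  set J : ℕ := ⌊T⌋₊ with hJ
  have hJT : (J : ℝ) ≤ T := Nat.floor_le hT0.le
  have hJ1 : 1 ≤ J := (Nat.one_le_floor_iff T).2 hT
  have hJ2 : T / 2 ≤ J := by
    have h5 : T < J + 1 := Nat.lt_floor_add_one T
    have h6 : (1 : ℝ) ≤ J := by exact_mod_cast hJ1
    linarith
  set K : ℕ := ⌈(24 + 6 * b) * T⌉₊ with hK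
  have hK1 : (24 + 6 * b) * T ≤ K := Nat.le_ceil _
  have hK2 : (K : ℝ) ≤ (25 + 6 * b) * T := by
    have : (K : ℝ) < (24 + 6 * b) * T + 1 := Nat.ceil_lt_add_one (by positivity)
    linarith
  set S₁ : Finset ℤ := Ico (-(K * h : ℤ)) (K * h) with hS₁
  set lam : ℝ := h * T ^ 3 with hlam
  have hlam0 : 0 < lam := by positivity
  set sl : ℝ := (√lam)⁻¹ with hsl
  have hsl0 : 0 < sl := by positivity
  have hFTs := FT_summable ha hab hw hT0 hh
  -- averaging
  have hav : (J : ℂ) * ∑' m : ℤ, FT w T h m =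
      ∑' m : ℤ, ∑ j ∈ range J, FT w T h ((m + 9 * h * j : ℤ) : ℝ) := by
    rw [Summable.tsum_finsetSum]
    · have : ∀ j ∈ range J, ∑' m : ℤ, FT w T h ((m + 9 * h * j : ℤ) : ℝ) = ∑' m : ℤ, FT w T h m := by
        intro j _
        exact (Equiv.addRight (9 * h * j : ℤ)).tsum_eq (fun m : ℤ => FT w T h m)
      rw [Finset.sum_congr rfl this, Finset.sum_const, Finset.card_range, nsmul_eq_mul]
    · intro j _
      exact (Equiv.addRight (9 * h * j : ℤ)).summable_iff.2 hFTs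
  -- bounds for the inner sums
  have hin : ∀ m ∈ S₁, ‖∑ j ∈ range J, FT w T h ((m + 9 * h * j : ℤ) : ℝ)‖ ≤
      2 * T ^ 2 / 3 * (C₄ * sl * Fy T (-(4 * (m : ℝ) ^ 2 / h))) := by
    intro m hm
    rw [hS₁, Finset.mem_Ico] at hm
    have hm1 : |(m : ℝ)| ≤ K * h := by
      rw [abs_le]
      constructor
      · have : ((-(K * h) : ℤ) : ℝ) ≤ m := by exact_mod_cast hm.1
        push_cast at this; linarith
      · have : (m : ℝ) < ((K * h : ℤ) : ℝ) := by exact_mod_cast hm.2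
        push_cast at this; linarith
    have hr : ∀ j : ℕ, j < J → |2 * (m : ℝ) / (3 * h * T) + 6 * j / T| ≤ 2 / 3 * (25 + 6 * b) + 6 := by
      intro j hj
      refine (abs_add_le _ _).trans (add_le_add ?_ ?_)
      · rw [abs_div, abs_mul, abs_two, abs_of_pos (show (0 : ℝ) < 3 * h * T by positivity),
          div_le_iff₀ (by positivity)]
        linarith [mul_le_mul_of_nonneg_right hK2 hh0.le]
      · rw [abs_of_nonneg (by positivity), div_le_iff₀ hT0]
        have : (j : ℝ) ≤ T := le_trans (by exact_mod_cast hj.le) hJT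
        linarith
    rw [Finset.sum_congr rfl fun j _ => FT_shift w hT0 hh m j, ← Finset.mul_sum, norm_mul, norm_mul,
      norm_ee, mul_one, Complex.norm_real, Real.norm_eq_abs, abs_of_nonneg (by positivity)]
    refine mul_le_mul_of_nonneg_left ?_ (by positivity)
    have hA := abel_c hT0 hJT (θ := -(4 * (m : ℝ) ^ 2 / h))
      (g := fun j : ℕ => Osc w (h * T ^ 3) (2 * m / (3 * h * T) + 6 * j / T)) (B := C₁ * sl)
      (V := C₂ * sl * (6 / T)) (by positivity) (by positivity) (fun j _ => h₁ lam hlam0 _) (fun j hj => ?_)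
    · refine hA.trans (mul_le_mul_of_nonneg_right ?_ (Fy_pos hT0 _).le)
      have : (J : ℝ) * (C₂ * sl * (6 / T)) ≤ T * (C₂ * sl * (6 / T)) :=
        mul_le_mul_of_nonneg_right hJT (by positivity)
      have e : T * (C₂ * sl * (6 / T)) = 6 * C₂ * sl := by field_simp
      rw [hC₄]
      linarith
    · have h5 := h₂ lam hlam0 _ _ (hr j (by omega)) (hr (j + 1) hj)
      refine h5.trans (le_of_eq ?_)
      congr 1
      rw [show 2 * (m : ℝ) / (3 * h * T) + 6 * ((j + 1 : ℕ) : ℝ) / T - (2 * m / (3 * h * T) + 6 * j / T) =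
        6 / T by push_cast; ring, abs_of_pos (by positivity)]
  have hout : ∀ m : ℤ, m ∉ S₁ → ‖∑ j ∈ range J, FT w T h ((m + 9 * h * j : ℤ) : ℝ)‖ ≤
      J * (4 * C₃) * (T ^ 2)⁻¹ * |(m : ℝ)| ^ (-(2 : ℝ)) := by
    intro m hm
    have hm1 : (K * h : ℝ) ≤ |(m : ℝ)| := by
      rw [hS₁, Finset.mem_Ico, not_and_or, not_le, not_lt] at hm
      rcases hm with hm | hm
      · have : (m : ℝ) < ((-(K * h) : ℤ) : ℝ) := by exact_mod_cast hm
        push_cast at this
        exact le_trans (by linarith) (neg_le_abs _)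
      · have : ((K * h : ℤ) : ℝ) ≤ m := by exact_mod_cast hm
        push_cast at this
        exact this.trans (le_abs_self _)
    have hm2 : (24 + 6 * b) * T * h ≤ |(m : ℝ)| :=
      le_trans (mul_le_mul_of_nonneg_right hK1 hh0.le) hm1
    have hm0 : 0 < |(m : ℝ)| := lt_of_lt_of_le (by positivity) hm2
    have hterm : ∀ j ∈ range J, ‖FT w T h ((m + 9 * h * j : ℤ) : ℝ)‖ ≤
        4 * C₃ * (T ^ 2)⁻¹ * |(m : ℝ)| ^ (-(2 : ℝ)) := by
      intro j hj
      rw [Finset.mem_range] at hj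
      have hjT : (j : ℝ) ≤ T := le_trans (by exact_mod_cast hj.le) hJT
      set x : ℝ := ((m + 9 * h * j : ℤ) : ℝ) with hx
      have hx1 : |(m : ℝ)| / 2 ≤ |x| := by
        have e : (m : ℝ) = x - 9 * h * j := by rw [hx]; push_cast; ring
        have h6 : |(m : ℝ)| ≤ |x| + |9 * (h : ℝ) * j| := by
          calc |(m : ℝ)| = |x - 9 * h * j| := by rw [← e]
            _ ≤ _ := abs_sub _ _
        rw [abs_of_nonneg (show (0 : ℝ) ≤ 9 * (h : ℝ) * j by positivity)] at h6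
        have h7 : (h : ℝ) * j ≤ h * T := mul_le_mul_of_nonneg_left hjT hh0.le
        have h8 : 0 ≤ 6 * b * T * h := by positivity
        have h9 : 0 ≤ T * h := by positivity
        linarith
      have hx2 : 2 * b + 2 ≤ |2 * x / (3 * h * T)| := by
        rw [abs_div, abs_mul, abs_two, abs_of_pos (show (0 : ℝ) < 3 * h * T by positivity),
          le_div_iff₀ (by positivity)]
        have h8 : 0 ≤ b * T * h := by positivity
        have h9 : 0 ≤ T * h := by positivity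
        linarith
      refine (h₃ T hT0 h hh x hx2).trans ?_
      rw [Real.rpow_neg hm0.le, Real.rpow_two, mul_assoc (4 * C₃), mul_assoc C₃]
      have h10 : (x ^ 2)⁻¹ ≤ 4 * (|(m : ℝ)| ^ 2)⁻¹ := by
        rw [← sq_abs x]
        have h11 : |(m : ℝ)| ^ 2 / 4 ≤ |x| ^ 2 := by
          have := pow_le_pow_left₀ (by positivity) hx1 2
          rw [div_pow] at this
          norm_num at this ⊢
          linarith
        calc (|x| ^ 2)⁻¹ ≤ (|(m : ℝ)| ^ 2 / 4)⁻¹ := inv_anti₀ (by positivity) h11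
          _ = _ := by rw [inv_div]; ring
      calc C₃ * ((T ^ 2)⁻¹ * (x ^ 2)⁻¹) ≤ C₃ * ((T ^ 2)⁻¹ * (4 * (|(m : ℝ)| ^ 2)⁻¹)) := by gcongr
        _ = _ := by ring
    refine (norm_sum_le _ _).trans ((Finset.sum_le_sum hterm).trans (le_of_eq ?_))
    rw [Finset.sum_const, Finset.card_range, nsmul_eq_mul]
    ring
  -- summation over m
  have hg := (hasSum_sum_of_ne_finset_zero (s := S₁)
    (f := fun m : ℤ => if m ∈ S₁ then 2 * T ^ 2 / 3 * (C₄ * sl * Fy T (-(4 * (m : ℝ) ^ 2 / h))) else 0)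
    (fun m hm => if_neg hm)).add (hZs.hasSum.mul_left (J * (4 * C₃) * (T ^ 2)⁻¹))
  have htot := tsum_of_norm_bounded hg (f := fun m : ℤ => ∑ j ∈ range J, FT w T h ((m + 9 * h * j : ℤ) : ℝ)) ?_
  · rw [← hav, norm_mul, Complex.norm_natCast] at htot
    have e1 : ∑ m ∈ S₁, (if m ∈ S₁ then 2 * T ^ 2 / 3 * (C₄ * sl * Fy T (-(4 * (m : ℝ) ^ 2 / h))) else 0) =
        2 * T ^ 2 / 3 * (C₄ * sl * (2 * K * D h T)) := by
      rw [Finset.sum_congr rfl fun m hm => if_pos hm, ← Finset.mul_sum, ← Finset.mul_sum]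
      congr 2
      have := sum_periodic (g := fun m : ℤ => Fy T (-(4 * (m : ℝ) ^ 2 / h))) (h := h) (fun m => ?_) K
      · rw [hS₁, this]
        unfold D
        simp
      · have e : -(4 * ((m + h : ℤ) : ℝ) ^ 2 / h) = -(4 * (m : ℝ) ^ 2 / h) + ((-(8 * m + 4 * h) : ℤ) : ℝ) := by
          push_cast
          field_simp
          ring
        rw [e, Fy_add_int]
    rw [e1] at htot
    have hD0 : 0 ≤ D h T := Finset.sum_nonneg fun m _ => (Fy_pos hT0 _).le
    have hJ0 : (0 : ℝ) < J := by exact_mod_cast hJ1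
    have e2 : T ^ 2 * sl = √T * (√(h : ℝ))⁻¹ := by
      rw [hsl, hlam, Real.sqrt_mul hh0.le]
      have e3 : √(T ^ 3) = T * √T := by
        rw [show T ^ 3 = T ^ 2 * T by ring, Real.sqrt_mul (by positivity), Real.sqrt_sq hT0.le]
      have e4 : √T * √T = T := Real.mul_self_sqrt hT0.le
      have s1 : 0 < √T := Real.sqrt_pos.2 hT0
      have s2 : 0 < √(h : ℝ) := Real.sqrt_pos.2 hh0
      have e6 : T ^ 2 = T * (√T * √T) := by rw [e4]; ring
      rw [e3]
      nth_rewrite 1 [e6]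
      field_simp
    set Q : ℝ := √T * (√(h : ℝ))⁻¹ * D h T with hQ
    have hQ0 : 0 ≤ Q := by positivity
    have e5 : 2 * T ^ 2 / 3 * (C₄ * sl * (2 * K * D h T)) = 2 * K * (2 / 3 * C₄) * Q := by
      rw [hQ, ← e2]; ring
    rw [e5] at htot
    have k1 : 2 * (K : ℝ) ≤ J * (4 * (25 + 6 * b)) := by
      have := mul_le_mul_of_nonneg_left hJ2 (show 0 ≤ 4 * (25 + 6 * b) by positivity)
      linarith
    have k2 : (T ^ 2)⁻¹ ≤ 1 := inv_le_one_of_one_le₀ (one_le_pow₀ hT)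
    have k3 : 2 * K * (2 / 3 * C₄) * Q ≤ J * (4 * (25 + 6 * b)) * (2 / 3 * C₄) * Q := by gcongr
    have k4 : J * (4 * C₃) * (T ^ 2)⁻¹ * Z ≤ J * (4 * C₃) * 1 * Z := by gcongr
    have k5 : J * ‖∑' m : ℤ, FT w T h m‖ ≤ J * (4 * (25 + 6 * b) * (2 / 3 * C₄) * Q + 4 * C₃ * Z) := by
      rw [← hZ] at htot
      linarith
    have k6 := le_of_mul_le_mul_left k5 hJ0
    refine k6.trans ?_
    have k7 : 0 ≤ 4 * (25 + 6 * b) * (2 / 3 * C₄) := by positivity
    have k8 : 0 ≤ 4 * C₃ * Z := by positivity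
    have k9 : 0 ≤ 4 * C₃ * Z * Q := mul_nonneg k8 hQ0
    have e7 : (4 * (25 + 6 * b) * (2 / 3 * C₄) + 4 * C₃ * Z) * (Q + 1) =
        4 * (25 + 6 * b) * (2 / 3 * C₄) * Q + 4 * C₃ * Z + (4 * (25 + 6 * b) * (2 / 3 * C₄) +
          4 * C₃ * Z * Q) := by ring
    rw [e7]
    linarith
  · intro m
    by_cases hm : m ∈ S₁
    · refine (hin m hm).trans ?_
      simp only [if_pos hm]
      have : 0 ≤ J * (4 * C₃) * (T ^ 2)⁻¹ * |(m : ℝ)| ^ (-(2 : ℝ)) := by positivity
      linarith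
    · refine (hout m hm).trans ?_
      simp only [if_neg hm]
      linarith

end Pool.Agent.PG3
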