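import Mathlib
import Pool.Agent.Lib.ANT.Geo

/-! Smooth weights with compact support in the positive half line. -/

open MeasureTheory Set Filter Topology Complex
open scoped ContDiff

namespace Pool.Agent.PG3

/-- Smooth functions supported in `[a, b]`. -/
structure Wt (a b : ℝ) (R : ℝ → ℝ) : Prop where
  smooth : ContDiff ℝ ∞ R
  supp : ∀ s, s ∉ Icc a b → R s = 0

namespace Wt

variable {a b : ℝ} {R S : ℝ → ℝ}

theorem ev_zero (h : Wt a b R) {s : ℝ} (hs : s ∉ Icc a b) : R =ᶠ[𝓝 s] fun _ => 0 := by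
  filter_upwards [isClosed_Icc.isOpen_compl.mem_nhds hs] with t ht
  exact h.supp t ht

theorem continuous (h : Wt a b R) : Continuous R := h.smooth.continuous

theorem hasDerivAt (h : Wt a b R) (s : ℝ) : HasDerivAt R (deriv R s) s :=
  (h.smooth.differentiable (by simp)).differentiableAt.hasDerivAt

theorem deriv (h : Wt a b R) : Wt a b (deriv R) := by
  refine ⟨?_, fun s hs => ?_⟩
  · have := h.smooth
    rw [show (∞ : WithTop ℕ∞) = ∞ + 1 by rfl, contDiff_succ_iff_deriv] at this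
    exact this.2.2
  · rw [(h.ev_zero hs).deriv_eq, deriv_const]

theorem add (h : Wt a b R) (h' : Wt a b S) : Wt a b (fun s => R s + S s) :=
  ⟨h.smooth.add h'.smooth, fun s hs => by rw [h.supp s hs, h'.supp s hs, add_zero]⟩

theorem mul_left (h : Wt a b R) {g : ℝ → ℝ} (hg : ContDiff ℝ ∞ g) : Wt a b (fun s => g s * R s) :=
  ⟨hg.mul h.smooth, fun s hs => by rw [h.supp s hs, mul_zero]⟩

theorem div_sub (h : Wt a b R) {c : ℝ} (hc : c ∉ Icc a b) : Wt a b (fun s => R s * (s - c)⁻¹) := by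
  refine ⟨?_, fun s hs => by rw [h.supp s hs, zero_mul]⟩
  rw [contDiff_iff_contDiffAt]
  intro s
  rcases eq_or_ne s c with rfl | hs
  · have : (fun t => R t * (t - s)⁻¹) =ᶠ[𝓝 s] fun _ => 0 := by
      filter_upwards [h.ev_zero hc] with t ht
      rw [ht, zero_mul]
    exact contDiffAt_const.congr_of_eventuallyEq this
  · exact h.smooth.contDiffAt.mul ((contDiffAt_id.sub contDiffAt_const).inv (sub_ne_zero.2 hs))

theorem bdd (h : Wt a b R) : ∃ C : ℝ, 0 ≤ C ∧ ∀ s, |R s| ≤ C := by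
  obtain ⟨C, hC⟩ := isCompact_Icc.exists_bound_of_continuousOn (s := Icc a b) h.continuous.continuousOn
  refine ⟨max C 0, le_max_right _ _, fun s => ?_⟩
  by_cases hs : s ∈ Icc a b
  · exact (hC s hs).trans (le_max_left _ _)
  · rw [h.supp s hs, abs_zero]; exact le_max_right _ _

end Wt

/-- A continuous function supported in `[a, b]` is integrable. -/
theorem integrable_of_supp {a b : ℝ} {f : ℝ → ℂ} (hf : Continuous f) (hs : ∀ s, s ∉ Icc a b → f s = 0) :
    Integrable f := by
  refine hf.integrable_of_hasCompactSupport ?_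
  exact HasCompactSupport.intro isCompact_Icc hs

theorem norm_integral_le_supp {a b : ℝ} (hab : a ≤ b) {f : ℝ → ℂ} {C : ℝ}
    (hs : ∀ s, s ∉ Icc a b → f s = 0) (hb : ∀ s, s ∈ Icc a b → ‖f s‖ ≤ C) :
    ‖∫ s, f s‖ ≤ C * (b - a) := by
  have e : ∫ s, f s = ∫ s in Icc a b, f s := by
    rw [setIntegral_eq_integral_of_forall_compl_eq_zero hs]
  rw [e]
  have := norm_setIntegral_le_of_norm_le_const (μ := volume) (s := Icc a b) (f := f) (C := C)
    (by simp) hb
  simpa [Measure.real, Real.volume_Icc, ENNReal.toReal_ofReal (sub_nonneg.2 hab)] using this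

open Pool.Agent.ANT

/-- The phase: the square of s - σ, times s + σ / 2. -/
noncomputable def ps (σ s : ℝ) : ℝ := s ^ 3 - 3 / 2 * σ * s ^ 2 + σ ^ 3 / 2

/-- `e(λ ψ(s))`. -/
noncomputable def E (lam σ s : ℝ) : ℂ := ee (lam * ps σ s)

theorem norm_E (lam σ s : ℝ) : ‖E lam σ s‖ = 1 := norm_ee _

theorem hasDerivAt_ee {f : ℝ → ℝ} {f' x : ℝ} (hf : HasDerivAt f f' x) :
    HasDerivAt (fun t => ee (f t)) (2 * Real.pi * f' * I * ee (f x)) x := by
  unfold ee
  have h1 : HasDerivAt (fun t => I * ((2 * Real.pi * f t : ℝ) : ℂ)) (I * ((2 * Real.pi * f' : ℝ) : ℂ)) x :=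
    ((hf.const_mul (2 * Real.pi)).ofReal_comp).const_mul I
  have h2 := h1.cexp
  refine h2.congr_deriv ?_
  push_cast
  ring

theorem E_hasDeriv (lam σ s : ℝ) :
    HasDerivAt (fun t => E lam σ t) (2 * Real.pi * (lam * (3 * s * (s - σ)) : ℝ) * I * E lam σ s) s := by
  have h : HasDerivAt (fun t => lam * ps σ t) (lam * (3 * s * (s - σ))) s := by
    unfold ps
    have h1 := ((hasDerivAt_pow 3 s).sub ((hasDerivAt_pow 2 s).const_mul (3 / 2 * σ))).add_const (σ ^ 3 / 2)
    refine (h1.const_mul lam).congr_deriv ?_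
    norm_num only [Nat.cast_ofNat, pow_one]
    ring
  exact hasDerivAt_ee h

theorem E_hasDeriv_σ (lam σ s : ℝ) :
    HasDerivAt (fun t => E lam t s) (2 * Real.pi * (lam * (-(3 / 2) * ((s - σ) * (s + σ))) : ℝ) * I * E lam σ s) σ := by
  have h : HasDerivAt (fun t => lam * ps t s) (lam * (-(3 / 2) * ((s - σ) * (s + σ)))) σ := by
    unfold ps
    have h1 := (((hasDerivAt_id σ).const_mul (3 / 2)).mul_const (s ^ 2)).const_sub (s ^ 3)
    have h2 := h1.add ((hasDerivAt_pow 3 σ).div_const 2)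
    refine (h2.const_mul lam).congr_deriv ?_
    norm_num only [Nat.cast_ofNat, pow_one]
    ring
  exact hasDerivAt_ee h

theorem continuous_E (lam σ : ℝ) : Continuous (E lam σ) :=
  continuous_iff_continuousAt.2 fun s => (E_hasDeriv lam σ s).continuousAt

/-- Integration by parts against `E`. -/
theorem ibp {a b : ℝ} {G G' : ℝ → ℂ} (hG : ∀ s, HasDerivAt G (G' s) s) (hGc : Continuous G')
    (h0 : ∀ s, s ∉ Icc a b → G s = 0) (h0' : ∀ s, s ∉ Icc a b → G' s = 0) (lam σ : ℝ) :
    ∫ s, G s * (2 * Real.pi * (lam * (3 * s * (s - σ)) : ℝ) * I * E lam σ s) = -∫ s, G' s * E lam σ s := by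
  have hGc0 : Continuous G := continuous_iff_continuousAt.2 fun s => (hG s).continuousAt
  have hE := continuous_E lam σ
  have hE' : Continuous fun s : ℝ => (2 * Real.pi * (lam * (3 * s * (s - σ)) : ℝ) * I * E lam σ s : ℂ) := by
    fun_prop
  refine integral_mul_deriv_eq_deriv_mul_of_integrable (fun s _ => hG s) (fun s _ => E_hasDeriv lam σ s) ?_ ?_ ?_
  · exact integrable_of_supp (hGc0.mul hE') fun s hs => by
      simp only [Pi.mul_apply]; rw [h0 s hs, zero_mul]
  · exact integrable_of_supp (hGc.mul hE) fun s hs => by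
      simp only [Pi.mul_apply]; rw [h0' s hs, zero_mul]
  · exact integrable_of_supp (hGc0.mul hE) fun s hs => by
      simp only [Pi.mul_apply]; rw [h0 s hs, zero_mul]

end Pool.Agent.PG3
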